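import Mathlib
import Pool.Agent.Helper26.RadSum

set_option autoImplicit false

/-!
Basic tools for the power saving bound for exceptions to the abc inequality with a small entry:
a gap principle, the divisor bound, and the decomposition of an integer according to the
exponents of its prime factors.
-/

namespace Pool.Agent.Helper94.Abc

open Finset Real
open Pool.Agent.Helper26.RadSum (rad rad_pos one_le_rad rad_mul_of_coprime)

/-- A finite family of reals in an interval of length `v - u` with pairwise gaps at least `G`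
has at most `1 + (v - u) / G` members. -/
lemma gap_card {ι : Type*} (s : Finset ι) (f : ι → ℝ) {u v G : ℝ} (hG : 0 < G)
    (huv : u ≤ v) (hf : ∀ i ∈ s, u ≤ f i ∧ f i ≤ v)
    (hg : ∀ i ∈ s, ∀ j ∈ s, i ≠ j → G ≤ |f i - f j|) :
    (s.card : ℝ) ≤ 1 + (v - u) / G := by
  classical
  have h1 : s.card ≤ (Finset.range (⌊(v - u) / G⌋₊ + 1)).card := by
    apply Finset.card_le_card_of_injOn (fun i => ⌊(f i - u) / G⌋₊)
    · intro i hi
      have hi' := hf i hi
      simp only [Finset.coe_range, Set.mem_Iio]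
      have : ⌊(f i - u) / G⌋₊ ≤ ⌊(v - u) / G⌋₊ := by
        apply Nat.floor_le_floor
        apply div_le_div_of_nonneg_right _ hG.le
        linarith
      omega
    · intro i hi j hj hij
      by_contra hne
      have hi' := hf i hi
      have hj' := hf j hj
      have hgap := hg i hi j hj hne
      have e1 : (f i - u) / G < ⌊(f i - u) / G⌋₊ + 1 := Nat.lt_floor_add_one _
      have e2 : (f j - u) / G < ⌊(f j - u) / G⌋₊ + 1 := Nat.lt_floor_add_one _
      have e3 : (⌊(f i - u) / G⌋₊ : ℝ) ≤ (f i - u) / G :=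
        Nat.floor_le (div_nonneg (by linarith) hG.le)
      have e4 : (⌊(f j - u) / G⌋₊ : ℝ) ≤ (f j - u) / G :=
        Nat.floor_le (div_nonneg (by linarith) hG.le)
      have hij' : (⌊(f i - u) / G⌋₊ : ℝ) = ⌊(f j - u) / G⌋₊ := by exact_mod_cast hij
      have e5 : |(f i - u) / G - (f j - u) / G| < 1 := by
        rw [abs_lt]; constructor <;> linarith
      have e6 : (f i - u) / G - (f j - u) / G = (f i - f j) / G := by ring
      rw [e6, abs_div, abs_of_pos hG, div_lt_one hG] at e5
      linarith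
  rw [Finset.card_range] at h1
  have h2 : (⌊(v - u) / G⌋₊ : ℝ) ≤ (v - u) / G :=
    Nat.floor_le (div_nonneg (by linarith) hG.le)
  have h3 : (s.card : ℝ) ≤ ((⌊(v - u) / G⌋₊ + 1 : ℕ) : ℝ) := by exact_mod_cast h1
  push_cast at h3
  linarith

/-- The divisor bound. -/
lemma divisor_bound {ε : ℝ} (hε : 0 < ε) :
    ∃ C : ℝ, 1 ≤ C ∧ ∀ n : ℕ, n ≠ 0 → (n.divisors.card : ℝ) ≤ C * (n : ℝ) ^ ε := by
  obtain ⟨P, hP⟩ := exists_nat_gt ((2 : ℝ) ^ (1 / ε))
  set K : ℝ := 1 + 1 / (ε * log 2) with hK
  have hlog2 : 0 < log (2 : ℝ) := Real.log_pos (by norm_num)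
  have hK1 : 1 ≤ K := by
    have : 0 < 1 / (ε * log 2) := by positivity
    linarith
  refine ⟨K ^ P, one_le_pow₀ hK1, ?_⟩
  intro n hn
  have hcard : (n.divisors.card : ℝ) =
      ∏ p ∈ n.primeFactors, ((n.factorization p : ℝ) + 1) := by
    rw [Nat.card_divisors hn]; push_cast; rfl
  have hnprod : (n : ℝ) ^ ε = ∏ p ∈ n.primeFactors, ((p : ℝ) ^ (n.factorization p)) ^ ε := by
    rw [Real.finset_prod_rpow _ _ (fun p _ => by positivity)]
    congr 1
    have h := Nat.factorization_prod_pow_eq_self hn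
    conv_lhs => rw [← h]
    rw [Finsupp.prod]
    push_cast
    rfl
  rw [hcard, hnprod]
  have hpoint : ∀ p ∈ n.primeFactors, ((n.factorization p : ℝ) + 1) ≤
      (if p < P then K else 1) * ((p : ℝ) ^ (n.factorization p)) ^ ε := by
    intro p hp
    have hpp := Nat.prime_of_mem_primeFactors hp
    have hp2 : (2 : ℝ) ≤ p := by exact_mod_cast hpp.two_le
    set v := n.factorization p with hv
    have hrw : ((p : ℝ) ^ v) ^ ε = ((p : ℝ) ^ ε) ^ v := by
      rw [← Real.rpow_natCast, ← Real.rpow_natCast, ← Real.rpow_mul (by positivity),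
        ← Real.rpow_mul (by positivity), mul_comm]
    rw [hrw]
    split_ifs with hlt
    · have h2 : (2 : ℝ) ^ ε ≤ (p : ℝ) ^ ε := Real.rpow_le_rpow (by norm_num) hp2 hε.le
      have h3 : 1 + (v : ℝ) * (ε * log 2) ≤ ((2 : ℝ) ^ ε) ^ v := by
        rw [Real.rpow_def_of_pos (by norm_num), ← Real.exp_nat_mul]
        have := Real.add_one_le_exp ((v : ℝ) * (log 2 * ε))
        linarith
      have h4 : ((2 : ℝ) ^ ε) ^ v ≤ ((p : ℝ) ^ ε) ^ v := by gcongr
      have h5 : (v : ℝ) + 1 ≤ K * (1 + (v : ℝ) * (ε * log 2)) := by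
        have hc : 0 < ε * log 2 := by positivity
        rw [hK]
        have : (1 + 1 / (ε * log 2)) * (1 + (v : ℝ) * (ε * log 2)) =
          1 + v * (ε * log 2) + 1 / (ε * log 2) + v := by
          field_simp
          ring
        rw [this]
        have h6 : 0 ≤ (v : ℝ) * (ε * log 2) := by positivity
        have h7 : 0 < 1 / (ε * log 2) := by positivity
        linarith
      calc (v : ℝ) + 1 ≤ K * (1 + (v : ℝ) * (ε * log 2)) := h5
        _ ≤ K * ((p : ℝ) ^ ε) ^ v := by
          apply mul_le_mul_of_nonneg_left (h3.trans h4) (by linarith)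
    · have hPp : (P : ℝ) ≤ p := by exact_mod_cast not_lt.mp hlt
      have h2 : (2 : ℝ) ≤ (p : ℝ) ^ ε := by
        have h3 : ((2 : ℝ) ^ (1 / ε)) ^ ε ≤ (p : ℝ) ^ ε :=
          Real.rpow_le_rpow (by positivity) (by linarith) hε.le
        rw [← Real.rpow_mul (by norm_num), one_div_mul_cancel hε.ne', Real.rpow_one] at h3
        exact h3
      rw [one_mul]
      have h4 : (2 : ℝ) ^ v ≤ ((p : ℝ) ^ ε) ^ v := by gcongr
      have h5 : (v : ℝ) + 1 ≤ (2 : ℝ) ^ v := by
        have : v + 1 ≤ 2 ^ v := Nat.succ_le_of_lt Nat.lt_two_pow_self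
        exact_mod_cast this
      linarith
  calc ∏ p ∈ n.primeFactors, ((n.factorization p : ℝ) + 1)
      ≤ ∏ p ∈ n.primeFactors,
          ((if p < P then K else 1) * ((p : ℝ) ^ (n.factorization p)) ^ ε) := by
        apply Finset.prod_le_prod
        · intro p _; positivity
        · exact hpoint
    _ = (∏ p ∈ n.primeFactors, (if p < P then K else 1)) *
          ∏ p ∈ n.primeFactors, ((p : ℝ) ^ (n.factorization p)) ^ ε := by
        rw [Finset.prod_mul_distrib]
    _ ≤ K ^ P * ∏ p ∈ n.primeFactors, ((p : ℝ) ^ (n.factorization p)) ^ ε := by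
        apply mul_le_mul_of_nonneg_right
        · rw [Finset.prod_ite, Finset.prod_const_one, mul_one, Finset.prod_const]
          apply pow_le_pow_right₀ hK1
          calc (n.primeFactors.filter (fun p => p < P)).card ≤ (Finset.range P).card := by
                apply Finset.card_le_card
                intro p hp
                rw [Finset.mem_filter] at hp
                exact Finset.mem_range.2 hp.2
            _ = P := Finset.card_range P
        · apply Finset.prod_nonneg; intro p _; positivity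

/-- `∑_{m ≤ 4N} 1 / rad m ≤ N^ε` for large `N`. -/
lemma sum_inv_rad_eventually {ε : ℝ} (hε : 0 < ε) :
    ∀ᶠ N : ℕ in Filter.atTop,
      ∑ m ∈ Finset.Icc 1 (4 * N), 1 / (rad m : ℝ) ≤ (N : ℝ) ^ ε := by
  -- `65 √(L / log L) ≤ ε L / 2` for large `L`
  have hN : Filter.Tendsto (fun N : ℕ => log ((4 * N : ℕ) : ℝ)) Filter.atTop Filter.atTop := by
    apply Real.tendsto_log_atTop.comp
    apply tendsto_natCast_atTop_atTop.comp
    exact Filter.tendsto_id.const_mul_atTop' (by norm_num)
  have h1 : ∀ᶠ N : ℕ in Filter.atTop, Real.exp 4 ≤ log ((4 * N : ℕ) : ℝ) :=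
    hN.eventually_ge_atTop _
  have h2 : ∀ᶠ N : ℕ in Filter.atTop, (130 / ε) ^ 2 ≤ log ((4 * N : ℕ) : ℝ) :=
    hN.eventually_ge_atTop _
  have hN' : Filter.Tendsto (fun N : ℕ => log (N : ℝ)) Filter.atTop Filter.atTop :=
    Real.tendsto_log_atTop.comp tendsto_natCast_atTop_atTop
  have h3 : ∀ᶠ N : ℕ in Filter.atTop, log 4 ≤ log (N : ℝ) :=
    hN'.eventually_ge_atTop _
  filter_upwards [h1, h2, h3, Filter.eventually_ge_atTop 1] with N e1 e2 e3 e4
  refine (Pool.Agent.Helper26.RadSum.sum_inv_rad_le e1).trans ?_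
  have hNpos : (0 : ℝ) < N := by exact_mod_cast e4
  set L := log ((4 * N : ℕ) : ℝ) with hL
  have hL' : L = log 4 + log N := by
    rw [hL]; push_cast; rw [Real.log_mul (by norm_num) hNpos.ne']
  rw [Real.rpow_def_of_pos hNpos]
  apply Real.exp_le_exp.2
  have hLpos : 0 < L := lt_of_lt_of_le (Real.exp_pos 4) e1
  have hlogL : 1 ≤ log L := by
    have : log (Real.exp 4) ≤ log L := Real.log_le_log (Real.exp_pos 4) e1
    rw [Real.log_exp] at this; linarith
  have h5 : √(L / log L) ≤ √L := by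
    apply Real.sqrt_le_sqrt
    exact div_le_self hLpos.le hlogL
  have h6 : √L * √L = L := Real.mul_self_sqrt hLpos.le
  have h7 : 130 / ε ≤ √L := Real.le_sqrt_of_sq_le e2
  have h8 : 65 * √L ≤ ε / 2 * L := by
    have : 130 ≤ √L * ε := by
      rw [div_le_iff₀ hε] at h7; exact h7
    nlinarith [Real.sqrt_nonneg L]
  calc 65 * √(L / log L) ≤ 65 * √L := by linarith
    _ ≤ ε / 2 * L := h8
    _ ≤ log N * ε := by rw [hL']; nlinarith

end Pool.Agent.Helper94.Abc
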