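import Mathlib

set_option autoImplicit false

/-!
The 4 × 4 determinant attached to four solutions of `B y w^3 - A x z^3 = a`.
-/

namespace Pool.Agent.Helper94.Abc

/-- `3 × 3` determinant. -/
def det3 {R : Type*} [CommRing R] (a1 a2 a3 b1 b2 b3 c1 c2 c3 : R) : R :=
  a1 * (b2 * c3 - b3 * c2) - a2 * (b1 * c3 - b3 * c1) + a3 * (b1 * c2 - b2 * c1)

/-- First minor of three points `(x, y, z, w)`, with vectors `(w x, z x, w y, z y)`. -/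
def mm1 {R : Type*} [CommRing R] (x1 y1 z1 w1 x2 y2 z2 w2 x3 y3 z3 w3 : R) : R :=
  det3 (z1 * x1) (w1 * y1) (z1 * y1) (z2 * x2) (w2 * y2) (z2 * y2) (z3 * x3) (w3 * y3) (z3 * y3)
def mm2 {R : Type*} [CommRing R] (x1 y1 z1 w1 x2 y2 z2 w2 x3 y3 z3 w3 : R) : R :=
  -det3 (w1 * x1) (w1 * y1) (z1 * y1) (w2 * x2) (w2 * y2) (z2 * y2) (w3 * x3) (w3 * y3) (z3 * y3)
def mm3 {R : Type*} [CommRing R] (x1 y1 z1 w1 x2 y2 z2 w2 x3 y3 z3 w3 : R) : R :=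
  det3 (w1 * x1) (z1 * x1) (z1 * y1) (w2 * x2) (z2 * x2) (z2 * y2) (w3 * x3) (z3 * x3) (z3 * y3)
def mm4 {R : Type*} [CommRing R] (x1 y1 z1 w1 x2 y2 z2 w2 x3 y3 z3 w3 : R) : R :=
  -det3 (w1 * x1) (z1 * x1) (w1 * y1) (w2 * x2) (z2 * x2) (w2 * y2) (w3 * x3) (z3 * x3) (w3 * y3)

/-- The determinant of four points. -/
def DD {R : Type*} [CommRing R]
    (x1 y1 z1 w1 x2 y2 z2 w2 x3 y3 z3 w3 x4 y4 z4 w4 : R) : R :=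
  mm1 x1 y1 z1 w1 x2 y2 z2 w2 x3 y3 z3 w3 * (w4 * x4) +
  mm2 x1 y1 z1 w1 x2 y2 z2 w2 x3 y3 z3 w3 * (z4 * x4) +
  mm3 x1 y1 z1 w1 x2 y2 z2 w2 x3 y3 z3 w3 * (w4 * y4) +
  mm4 x1 y1 z1 w1 x2 y2 z2 w2 x3 y3 z3 w3 * (z4 * y4)

/-- Normalised determinant with rows `(1, r, r^3 + f, r (r^3 + f))`, expanded. -/
def EE (r1 r2 r3 r4 f1 f2 f3 f4 : ℝ) : ℝ :=
  (r2 - r1) * (r3 - r1) * (r4 - r1) * (r3 - r2) * (r4 - r2) * (r4 - r3) *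
    (r1 * r2 + r1 * r3 + r1 * r4 + r2 * r3 + r2 * r4 + r3 * r4)
  + (-(r1 * f1) * ((r3 - r2) * (r4 - r2) * (r4 - r3) * (r2 + r3 + r4))
     + (r2 * f2) * ((r3 - r1) * (r4 - r1) * (r4 - r3) * (r1 + r3 + r4))
     - (r3 * f3) * ((r2 - r1) * (r4 - r1) * (r4 - r2) * (r1 + r2 + r4))
     + (r4 * f4) * ((r2 - r1) * (r3 - r1) * (r3 - r2) * (r1 + r2 + r3)))
  + (f1 * ((r3 - r2) * (r4 - r2) * (r4 - r3) *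
        (r2 ^ 2 + r3 ^ 2 + r4 ^ 2 + r2 * r3 + r2 * r4 + r3 * r4))
     - f2 * ((r3 - r1) * (r4 - r1) * (r4 - r3) *
        (r1 ^ 2 + r3 ^ 2 + r4 ^ 2 + r1 * r3 + r1 * r4 + r3 * r4))
     + f3 * ((r2 - r1) * (r4 - r1) * (r4 - r2) *
        (r1 ^ 2 + r2 ^ 2 + r4 ^ 2 + r1 * r2 + r1 * r4 + r2 * r4))
     - f4 * ((r2 - r1) * (r3 - r1) * (r3 - r2) *
        (r1 ^ 2 + r2 ^ 2 + r3 ^ 2 + r1 * r2 + r1 * r3 + r2 * r3)))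
  + ((r2 - r1) * (r4 - r3) * (f3 * f4 + f1 * f2)
     - (r3 - r1) * (r4 - r2) * (f2 * f4 + f1 * f3)
     + (r4 - r1) * (r3 - r2) * (f2 * f3 + f1 * f4))

/-- The scaling identity. -/
lemma DD_scaled (W1 W2 W3 W4 R c r1 r2 r3 r4 f1 f2 f3 f4 : ℝ) :
    det3 (W1 * (R * r1)) (W1 * (c * R ^ 3 * (r1 ^ 3 + f1))) (W1 * (R * r1) * (c * R ^ 3 * (r1 ^ 3 + f1)))
      (W2 * (R * r2)) (W2 * (c * R ^ 3 * (r2 ^ 3 + f2))) (W2 * (R * r2) * (c * R ^ 3 * (r2 ^ 3 + f2)))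
      (W3 * (R * r3)) (W3 * (c * R ^ 3 * (r3 ^ 3 + f3))) (W3 * (R * r3) * (c * R ^ 3 * (r3 ^ 3 + f3)))
      * W4
    - det3 W1 (W1 * (c * R ^ 3 * (r1 ^ 3 + f1))) (W1 * (R * r1) * (c * R ^ 3 * (r1 ^ 3 + f1)))
      W2 (W2 * (c * R ^ 3 * (r2 ^ 3 + f2))) (W2 * (R * r2) * (c * R ^ 3 * (r2 ^ 3 + f2)))
      W3 (W3 * (c * R ^ 3 * (r3 ^ 3 + f3))) (W3 * (R * r3) * (c * R ^ 3 * (r3 ^ 3 + f3)))
      * (W4 * (R * r4))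
    + det3 W1 (W1 * (R * r1)) (W1 * (R * r1) * (c * R ^ 3 * (r1 ^ 3 + f1)))
      W2 (W2 * (R * r2)) (W2 * (R * r2) * (c * R ^ 3 * (r2 ^ 3 + f2)))
      W3 (W3 * (R * r3)) (W3 * (R * r3) * (c * R ^ 3 * (r3 ^ 3 + f3)))
      * (W4 * (c * R ^ 3 * (r4 ^ 3 + f4)))
    - det3 W1 (W1 * (R * r1)) (W1 * (c * R ^ 3 * (r1 ^ 3 + f1)))
      W2 (W2 * (R * r2)) (W2 * (c * R ^ 3 * (r2 ^ 3 + f2)))
      W3 (W3 * (R * r3)) (W3 * (c * R ^ 3 * (r3 ^ 3 + f3)))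
      * (W4 * (R * r4) * (c * R ^ 3 * (r4 ^ 3 + f4)))
    = - (W1 * W2 * W3 * W4 * (c ^ 2 * R ^ 8)) * EE r1 r2 r3 r4 f1 f2 f3 f4 := by
  unfold det3 EE
  ring

end Pool.Agent.Helper94.Abc
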