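import Mathlib
import Pool.Agent.Helper94.Abc.Det

set_option autoImplicit false

/-!
Upper bound for the 4 × 4 determinant, and its vanishing for points of one cluster.
-/

namespace Pool.Agent.Helper94.Abc

lemma abs_mul_le_mul {a b u v : ℝ} (ha : |a| ≤ u) (hb : |b| ≤ v) : |a * b| ≤ u * v := by
  rw [abs_mul]
  exact mul_le_mul ha hb (abs_nonneg _) (le_trans (abs_nonneg _) ha)

lemma EE_bound {r1 r2 r3 r4 f1 f2 f3 f4 d F : ℝ} (hd1 : d ≤ 1)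
    (h1 : 1 ≤ r1 ∧ r1 ≤ 1 + d) (h2 : 1 ≤ r2 ∧ r2 ≤ 1 + d) (h3 : 1 ≤ r3 ∧ r3 ≤ 1 + d)
    (h4 : 1 ≤ r4 ∧ r4 ≤ 1 + d)
    (g1 : |f1| ≤ F) (g2 : |f2| ≤ F) (g3 : |f3| ≤ F) (g4 : |f4| ≤ F) :
    |EE r1 r2 r3 r4 f1 f2 f3 f4| ≤ 24 * d ^ 6 + 144 * F * d ^ 3 + 6 * F ^ 2 * d ^ 2 := by
  obtain ⟨l1, u1⟩ := h1
  obtain ⟨l2, u2⟩ := h2
  obtain ⟨l3, u3⟩ := h3
  obtain ⟨l4, u4⟩ := h4
  have hd0 : 0 ≤ d := by linarith
  have hF0 : 0 ≤ F := le_trans (abs_nonneg _) g1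
  have d21 : |r2 - r1| ≤ d := by rw [abs_le]; constructor <;> linarith
  have d31 : |r3 - r1| ≤ d := by rw [abs_le]; constructor <;> linarith
  have d41 : |r4 - r1| ≤ d := by rw [abs_le]; constructor <;> linarith
  have d32 : |r3 - r2| ≤ d := by rw [abs_le]; constructor <;> linarith
  have d42 : |r4 - r2| ≤ d := by rw [abs_le]; constructor <;> linarith
  have d43 : |r4 - r3| ≤ d := by rw [abs_le]; constructor <;> linarith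
  have a1 : |r1| ≤ 2 := by rw [abs_le]; constructor <;> linarith
  have a2 : |r2| ≤ 2 := by rw [abs_le]; constructor <;> linarith
  have a3 : |r3| ≤ 2 := by rw [abs_le]; constructor <;> linarith
  have a4 : |r4| ≤ 2 := by rw [abs_le]; constructor <;> linarith
  have V3 : ∀ {p q s : ℝ}, |p| ≤ d → |q| ≤ d → |s| ≤ d → |p * q * s| ≤ d ^ 3 := by
    intro p q s hp hq hs
    have := abs_mul_le_mul (abs_mul_le_mul hp hq) hs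
    calc _ ≤ d * d * d := this
      _ = d ^ 3 := by ring
  -- sums
  have s3 : ∀ {p q s : ℝ}, |p| ≤ 2 → |q| ≤ 2 → |s| ≤ 2 → |p + q + s| ≤ 6 := by
    intro p q s hp hq hs
    rw [abs_le] at *
    constructor <;> linarith [hp.1, hp.2, hq.1, hq.2, hs.1, hs.2]
  have pr4 : ∀ {p q : ℝ}, |p| ≤ 2 → |q| ≤ 2 → |p * q| ≤ 4 := by
    intro p q hp hq
    have := abs_mul_le_mul hp hq
    linarith
  have h2' : ∀ {p q s : ℝ}, |p| ≤ 2 → |q| ≤ 2 → |s| ≤ 2 →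
      |p ^ 2 + q ^ 2 + s ^ 2 + p * q + p * s + q * s| ≤ 24 := by
    intro p q s hp hq hs
    have e1 := pr4 hp hp
    have e2 := pr4 hq hq
    have e3 := pr4 hs hs
    have e4 := pr4 hp hq
    have e5 := pr4 hp hs
    have e6 := pr4 hq hs
    rw [abs_le] at *
    constructor <;> nlinarith only [e4, e5, e6, e1, e2, e3, e1.1, e1.2, e2.1, e2.2, e3.1, e3.2, e4.1, e4.2, e5.1, e5.2,
      e6.1, e6.2]
  -- first term
  have T1 : |(r2 - r1) * (r3 - r1) * (r4 - r1) * (r3 - r2) * (r4 - r2) * (r4 - r3) *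
    (r1 * r2 + r1 * r3 + r1 * r4 + r2 * r3 + r2 * r4 + r3 * r4)| ≤ 24 * d ^ 6 := by
    have e1 : |(r2 - r1) * (r3 - r1) * (r4 - r1) * (r3 - r2) * (r4 - r2) * (r4 - r3)| ≤
        d ^ 6 := by
      have := abs_mul_le_mul (abs_mul_le_mul (abs_mul_le_mul (abs_mul_le_mul
        (abs_mul_le_mul d21 d31) d41) d32) d42) d43
      calc _ ≤ d * d * d * d * d * d := this
        _ = d ^ 6 := by ring
    have e2 : |r1 * r2 + r1 * r3 + r1 * r4 + r2 * r3 + r2 * r4 + r3 * r4| ≤ 24 := by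
      have q1 := pr4 a1 a2
      have q2 := pr4 a1 a3
      have q3 := pr4 a1 a4
      have q4 := pr4 a2 a3
      have q5 := pr4 a2 a4
      have q6 := pr4 a3 a4
      rw [abs_le] at *
      constructor <;> linarith [q1.1, q1.2, q2.1, q2.2, q3.1, q3.2, q4.1, q4.2, q5.1, q5.2,
        q6.1, q6.2]
    have := abs_mul_le_mul e1 e2
    linarith
  -- second group
  have G2 : ∀ {r f p q s t : ℝ}, |r| ≤ 2 → |f| ≤ F → |p| ≤ d → |q| ≤ d → |s| ≤ d → |t| ≤ 6 →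
      |(r * f) * (p * q * s * t)| ≤ 12 * F * d ^ 3 := by
    intro r f p q s t hr hf hp hq hs ht
    have := abs_mul_le_mul (abs_mul_le_mul hr hf) (abs_mul_le_mul (V3 hp hq hs) ht)
    calc _ ≤ 2 * F * (d ^ 3 * 6) := this
      _ = _ := by ring
  have G3 : ∀ {f p q s t : ℝ}, |f| ≤ F → |p| ≤ d → |q| ≤ d → |s| ≤ d → |t| ≤ 24 →
      |f * (p * q * s * t)| ≤ 24 * F * d ^ 3 := by
    intro f p q s t hf hp hq hs ht
    have := abs_mul_le_mul hf (abs_mul_le_mul (V3 hp hq hs) ht)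
    calc _ ≤ F * (d ^ 3 * 24) := this
      _ = _ := by ring
  have G4 : ∀ {p q f g h k : ℝ}, |p| ≤ d → |q| ≤ d → |f| ≤ F → |g| ≤ F → |h| ≤ F → |k| ≤ F →
      |p * q * (f * g + h * k)| ≤ 2 * F ^ 2 * d ^ 2 := by
    intro p q f g h k hp hq hf hg hh hk
    have e1 := abs_mul_le_mul hf hg
    have e2 := abs_mul_le_mul hh hk
    have e3 : |f * g + h * k| ≤ 2 * (F * F) := by
      rw [abs_le] at *
      constructor <;> linarith [e1.1, e1.2, e2.1, e2.2]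
    have := abs_mul_le_mul (abs_mul_le_mul hp hq) e3
    calc _ ≤ d * d * (2 * (F * F)) := this
      _ = _ := by ring
  have B1 := G2 a1 g1 d32 d42 d43 (s3 a2 a3 a4)
  have B2 := G2 a2 g2 d31 d41 d43 (s3 a1 a3 a4)
  have B3 := G2 a3 g3 d21 d41 d42 (s3 a1 a2 a4)
  have B4 := G2 a4 g4 d21 d31 d32 (s3 a1 a2 a3)
  have C1 := G3 g1 d32 d42 d43 (h2' a2 a3 a4)
  have C2 := G3 g2 d31 d41 d43 (h2' a1 a3 a4)
  have C3 := G3 g3 d21 d41 d42 (h2' a1 a2 a4)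
  have C4 := G3 g4 d21 d31 d32 (h2' a1 a2 a3)
  have D1 := G4 d21 d43 g3 g4 g1 g2
  have D2 := G4 d31 d42 g2 g4 g1 g3
  have D3 := G4 d41 d32 g2 g3 g1 g4
  unfold EE
  rw [abs_le] at T1 B1 B2 B3 B4 C1 C2 C3 C4 D1 D2 D3 ⊢
  obtain ⟨T1l, T1u⟩ := T1
  obtain ⟨B1l, B1u⟩ := B1
  obtain ⟨B2l, B2u⟩ := B2
  obtain ⟨B3l, B3u⟩ := B3
  obtain ⟨B4l, B4u⟩ := B4
  obtain ⟨C1l, C1u⟩ := C1
  obtain ⟨C2l, C2u⟩ := C2
  obtain ⟨C3l, C3u⟩ := C3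
  obtain ⟨C4l, C4u⟩ := C4
  obtain ⟨D1l, D1u⟩ := D1
  obtain ⟨D2l, D2u⟩ := D2
  obtain ⟨D3l, D3u⟩ := D3
  constructor
  · linarith
  · linarith

lemma pt_norm {x y z w A B a N R d Q : ℝ} (hx : 0 < x) (hy : 0 < y) (hz : 0 < z) (hw : 0 < w)
    (hA : 0 < A) (hB : 0 < B) (ha : 0 ≤ a) (hN : 0 < N) (hR : 0 < R) (hd1 : d ≤ 1)
    (heq : B * y * w ^ 3 = A * x * z ^ 3 + a) (hlo : N / 2 ≤ A * x * z ^ 3)
    (hR1 : R ≤ z / w) (hR2 : z / w ≤ R * (1 + d)) (hQ : x * y * z * w ≤ Q) :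
    ∃ W r f : ℝ, 0 ≤ W ∧ W = w * x ∧ W * (R * r) = z * x ∧
      W * ((A / B) * R ^ 3 * (r ^ 3 + f)) = w * y ∧
      W * (R * r) * ((A / B) * R ^ 3 * (r ^ 3 + f)) = z * y ∧
      |f| ≤ 16 * a / N ∧ (1 ≤ r ∧ r ≤ 1 + d) ∧ W ^ 2 * ((A / B) * R ^ 4) ≤ Q := by
  have hr : w * x * (R * (z / (w * R))) = z * x := by field_simp
  have hk : (A / B) * R ^ 3 * ((z / (w * R)) ^ 3 + a / (A * x * w ^ 3 * R ^ 3)) = y / x := by
    field_simp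
    linarith
  refine ⟨w * x, z / (w * R), a / (A * x * w ^ 3 * R ^ 3), by positivity, rfl, hr, ?_, ?_, ?_,
    ⟨?_, ?_⟩, ?_⟩
  · rw [hk]; field_simp
  · rw [hr, hk]; field_simp
  · rw [abs_of_nonneg (by positivity)]
    rw [div_le_div_iff₀ (by positivity) hN]
    -- a * N ≤ 16 a * (A x w^3 R^3)
    have h1 : z ≤ 2 * (w * R) := by
      have h2 : z / w ≤ 2 * R := by
        have : R * (1 + d) ≤ 2 * R := by nlinarith only [hR, hd1]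
        linarith
      rw [div_le_iff₀ hw] at h2
      linarith
    have h3 : z ^ 3 ≤ (2 * (w * R)) ^ 3 := by gcongr
    have h4 : N ≤ 16 * (A * x * w ^ 3 * R ^ 3) := by
      have h5 : A * x * z ^ 3 ≤ A * x * (2 * (w * R)) ^ 3 := by gcongr
      have h6 : A * x * (2 * (w * R)) ^ 3 = 8 * (A * x * w ^ 3 * R ^ 3) := by ring
      linarith
    nlinarith only [ha, h4]
  · rw [le_div_iff₀ (by positivity)]
    rw [le_div_iff₀ hw] at hR1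
    linarith
  · rw [div_le_iff₀ (by positivity)]
    rw [div_le_iff₀ hw] at hR2
    linarith
  · -- W^2 c R^4 ≤ x y z w
    refine le_trans ?_ hQ
    have h1 : w * R ≤ z := by
      rw [le_div_iff₀ hw] at hR1; linarith
    have h2 : (w * R) ^ 4 ≤ z ^ 4 := by gcongr
    have h3 : (w * x) ^ 2 * (A / B * R ^ 4) = (x * (A * x * (w * R) ^ 4)) / (B * w ^ 2) := by
      field_simp
    rw [h3, div_le_iff₀ (by positivity)]
    have h4 : x * y * z * w * (B * w ^ 2) = x * z * (B * y * w ^ 3) := by ring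
    rw [h4, heq]
    have h5 : A * x * (w * R) ^ 4 ≤ A * x * z ^ 4 := by gcongr
    have h6 : x * (A * x * (w * R) ^ 4) ≤ x * (A * x * z ^ 4) := by gcongr
    have h7 : 0 ≤ x * z * a := by positivity
    nlinarith only [h6, h7]

lemma DD_eq_zero {x1 y1 z1 w1 x2 y2 z2 w2 x3 y3 z3 w3 x4 y4 z4 w4 A B a : ℤ} {N R d Q : ℝ}
    (hx1 : 0 < x1) (hy1 : 0 < y1) (hz1 : 0 < z1) (hw1 : 0 < w1)
    (hx2 : 0 < x2) (hy2 : 0 < y2) (hz2 : 0 < z2) (hw2 : 0 < w2)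
    (hx3 : 0 < x3) (hy3 : 0 < y3) (hz3 : 0 < z3) (hw3 : 0 < w3)
    (hx4 : 0 < x4) (hy4 : 0 < y4) (hz4 : 0 < z4) (hw4 : 0 < w4)
    (hA : 0 < A) (hB : 0 < B) (ha : 0 ≤ a) (hN : 0 < N) (hR : 0 < R) (hd1 : d ≤ 1) (hd0 : 0 ≤ d)
    (heq1 : B * y1 * w1 ^ 3 = A * x1 * z1 ^ 3 + a) (heq2 : B * y2 * w2 ^ 3 = A * x2 * z2 ^ 3 + a)
    (heq3 : B * y3 * w3 ^ 3 = A * x3 * z3 ^ 3 + a) (heq4 : B * y4 * w4 ^ 3 = A * x4 * z4 ^ 3 + a)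
    (hlo1 : N / 2 ≤ (A : ℝ) * x1 * z1 ^ 3) (hlo2 : N / 2 ≤ (A : ℝ) * x2 * z2 ^ 3)
    (hlo3 : N / 2 ≤ (A : ℝ) * x3 * z3 ^ 3) (hlo4 : N / 2 ≤ (A : ℝ) * x4 * z4 ^ 3)
    (hR1 : R ≤ (z1 : ℝ) / w1) (hR2 : R ≤ (z2 : ℝ) / w2) (hR3 : R ≤ (z3 : ℝ) / w3)
    (hR4 : R ≤ (z4 : ℝ) / w4)
    (hU1 : (z1 : ℝ) / w1 ≤ R * (1 + d)) (hU2 : (z2 : ℝ) / w2 ≤ R * (1 + d))
    (hU3 : (z3 : ℝ) / w3 ≤ R * (1 + d)) (hU4 : (z4 : ℝ) / w4 ≤ R * (1 + d))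
    (hQ1 : (x1 : ℝ) * y1 * z1 * w1 ≤ Q) (hQ2 : (x2 : ℝ) * y2 * z2 * w2 ≤ Q)
    (hQ3 : (x3 : ℝ) * y3 * z3 * w3 ≤ Q) (hQ4 : (x4 : ℝ) * y4 * z4 * w4 ≤ Q)
    (hsmall : Q ^ 2 * (24 * d ^ 6 + 144 * (16 * a / N) * d ^ 3 + 6 * (16 * a / N) ^ 2 * d ^ 2) < 1) :
    DD x1 y1 z1 w1 x2 y2 z2 w2 x3 y3 z3 w3 x4 y4 z4 w4 = 0 := by
  have cx1 : (0 : ℝ) < x1 := by exact_mod_cast hx1
  have cy1 : (0 : ℝ) < y1 := by exact_mod_cast hy1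
  have cz1 : (0 : ℝ) < z1 := by exact_mod_cast hz1
  have cw1 : (0 : ℝ) < w1 := by exact_mod_cast hw1
  have cx2 : (0 : ℝ) < x2 := by exact_mod_cast hx2
  have cy2 : (0 : ℝ) < y2 := by exact_mod_cast hy2
  have cz2 : (0 : ℝ) < z2 := by exact_mod_cast hz2
  have cw2 : (0 : ℝ) < w2 := by exact_mod_cast hw2
  have cx3 : (0 : ℝ) < x3 := by exact_mod_cast hx3
  have cy3 : (0 : ℝ) < y3 := by exact_mod_cast hy3
  have cz3 : (0 : ℝ) < z3 := by exact_mod_cast hz3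
  have cw3 : (0 : ℝ) < w3 := by exact_mod_cast hw3
  have cx4 : (0 : ℝ) < x4 := by exact_mod_cast hx4
  have cy4 : (0 : ℝ) < y4 := by exact_mod_cast hy4
  have cz4 : (0 : ℝ) < z4 := by exact_mod_cast hz4
  have cw4 : (0 : ℝ) < w4 := by exact_mod_cast hw4
  have cA : (0 : ℝ) < A := by exact_mod_cast hA
  have cB : (0 : ℝ) < B := by exact_mod_cast hB
  have ca : (0 : ℝ) ≤ a := by exact_mod_cast ha
  obtain ⟨W1, r1, f1, p1, i1, j1, k1, l1, m1, n1, o1⟩ := pt_norm cx1 cy1 cz1 cw1 cA cB ca hN hR hd1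
    (by exact_mod_cast heq1) hlo1 hR1 hU1 hQ1
  obtain ⟨W2, r2, f2, p2, i2, j2, k2, l2, m2, n2, o2⟩ := pt_norm cx2 cy2 cz2 cw2 cA cB ca hN hR hd1
    (by exact_mod_cast heq2) hlo2 hR2 hU2 hQ2
  obtain ⟨W3, r3, f3, p3, i3, j3, k3, l3, m3, n3, o3⟩ := pt_norm cx3 cy3 cz3 cw3 cA cB ca hN hR hd1
    (by exact_mod_cast heq3) hlo3 hR3 hU3 hQ3
  obtain ⟨W4, r4, f4, p4, i4, j4, k4, l4, m4, n4, o4⟩ := pt_norm cx4 cy4 cz4 cw4 cA cB ca hN hR hd1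
    (by exact_mod_cast heq4) hlo4 hR4 hU4 hQ4
  set c : ℝ := (A : ℝ) / B with hc
  have hc0 : 0 < c := by positivity
  have hscale := DD_scaled W1 W2 W3 W4 R c r1 r2 r3 r4 f1 f2 f3 f4
  rw [j1, j2, j3, j4, k1, k2, k3, k4] at hscale
  have l1' : z1 * (x1 : ℝ) * (c * R ^ 3 * (r1 ^ 3 + f1)) = z1 * y1 := by rw [← j1]; exact l1
  have l2' : z2 * (x2 : ℝ) * (c * R ^ 3 * (r2 ^ 3 + f2)) = z2 * y2 := by rw [← j2]; exact l2
  have l3' : z3 * (x3 : ℝ) * (c * R ^ 3 * (r3 ^ 3 + f3)) = z3 * y3 := by rw [← j3]; exact l3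
  have l4' : z4 * (x4 : ℝ) * (c * R ^ 3 * (r4 ^ 3 + f4)) = z4 * y4 := by rw [← j4]; exact l4
  rw [l1', l2', l3', l4'] at hscale
  have hE := EE_bound hd1 n1 n2 n3 n4 m1 m2 m3 m4
  set P : ℝ := W1 * W2 * W3 * W4 * (c ^ 2 * R ^ 8) with hP
  have hP0 : 0 ≤ P := by (clear * - p1 p2 p3 p4 hA hB hR; positivity)
  have hPQ : P ^ 2 ≤ (Q ^ 2) ^ 2 := by
    have e1 : P ^ 2 = (W1 ^ 2 * (c * R ^ 4)) * (W2 ^ 2 * (c * R ^ 4)) * (W3 ^ 2 * (c * R ^ 4)) *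
      (W4 ^ 2 * (c * R ^ 4)) := by rw [hP]; ring
    have q1 : 0 ≤ W1 ^ 2 * (c * R ^ 4) := by (clear * - hA hB hR; positivity)
    have q2 : 0 ≤ W2 ^ 2 * (c * R ^ 4) := by (clear * - hA hB hR; positivity)
    have q3 : 0 ≤ W3 ^ 2 * (c * R ^ 4) := by (clear * - hA hB hR; positivity)
    have q4 : 0 ≤ W4 ^ 2 * (c * R ^ 4) := by positivity
    have hQ0 : 0 ≤ Q := le_trans q1 o1
    rw [e1]
    calc _ ≤ Q * Q * Q * Q := by gcongr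
      _ = _ := by ring
  have hPQ' : P ≤ Q ^ 2 := by
    have := abs_le_of_sq_le_sq hPQ (sq_nonneg Q)
    exact (le_abs_self P).trans this
  have hlt : |((DD x1 y1 z1 w1 x2 y2 z2 w2 x3 y3 z3 w3 x4 y4 z4 w4 : ℤ) : ℝ)| < 1 := by
    have e1 : ((DD x1 y1 z1 w1 x2 y2 z2 w2 x3 y3 z3 w3 x4 y4 z4 w4 : ℤ) : ℝ) =
        -P * EE r1 r2 r3 r4 f1 f2 f3 f4 := by
      rw [← hscale, i1, i2, i3, i4]
      unfold DD mm1 mm2 mm3 mm4 det3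
      push_cast
      ring
    rw [e1, abs_mul, abs_neg, abs_of_nonneg hP0]
    refine lt_of_le_of_lt ?_ hsmall
    exact mul_le_mul hPQ' hE (abs_nonneg _) (sq_nonneg _)
  have hlt' : |DD x1 y1 z1 w1 x2 y2 z2 w2 x3 y3 z3 w3 x4 y4 z4 w4| < 1 := by
    have : ((|DD x1 y1 z1 w1 x2 y2 z2 w2 x3 y3 z3 w3 x4 y4 z4 w4| : ℤ) : ℝ) < ((1 : ℤ) : ℝ) := by
      push_cast; exact hlt
    exact_mod_cast this
  exact Int.abs_lt_one_iff.1 hlt'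

end Pool.Agent.Helper94.Abc
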