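import Mathlib
import Pool.Agent.Helper94.Abc.Det

set_option autoImplicit false

/-!
The integer matrix attached to a cluster of solutions.
-/

namespace Pool.Agent.Helper94.Abc

lemma bezout4 (m1 m2 m3 m4 : ℤ) (h : ¬ (m1 = 0 ∧ m2 = 0 ∧ m3 = 0 ∧ m4 = 0)) :
    ∃ c p q r s α β γ σ : ℤ, 0 < c ∧ m1 = c * p ∧ m2 = c * q ∧ m3 = c * r ∧ m4 = c * s ∧
      α * p + β * q + γ * r + σ * s = 1 := by
  set g1 : ℤ := (Int.gcd m1 m2 : ℤ) with hg1
  set g2 : ℤ := (Int.gcd m3 m4 : ℤ) with hg2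
  set c : ℤ := (Int.gcd g1 g2 : ℤ) with hc
  have d1 : g1 ∣ m1 := Int.gcd_dvd_left _ _
  have d2 : g1 ∣ m2 := Int.gcd_dvd_right _ _
  have d3 : g2 ∣ m3 := Int.gcd_dvd_left _ _
  have d4 : g2 ∣ m4 := Int.gcd_dvd_right _ _
  have c1 : c ∣ g1 := Int.gcd_dvd_left _ _
  have c2 : c ∣ g2 := Int.gcd_dvd_right _ _
  obtain ⟨p, hp⟩ := c1.trans d1
  obtain ⟨q, hq⟩ := c1.trans d2
  obtain ⟨r, hr⟩ := c2.trans d3
  obtain ⟨s, hs⟩ := c2.trans d4
  have b1 : g1 = m1 * Int.gcdA m1 m2 + m2 * Int.gcdB m1 m2 := Int.gcd_eq_gcd_ab _ _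
  have b2 : g2 = m3 * Int.gcdA m3 m4 + m4 * Int.gcdB m3 m4 := Int.gcd_eq_gcd_ab _ _
  have b3 : c = g1 * Int.gcdA g1 g2 + g2 * Int.gcdB g1 g2 := Int.gcd_eq_gcd_ab _ _
  have hc0 : 0 < c := by
    have : c ≠ 0 := by
      intro h0
      apply h
      rw [h0] at hp hq hr hs
      refine ⟨by rw [hp]; ring, by rw [hq]; ring, by rw [hr]; ring, by rw [hs]; ring⟩
    have h1 : 0 ≤ c := by rw [hc]; positivity
    omega
  refine ⟨c, p, q, r, s, Int.gcdA m1 m2 * Int.gcdA g1 g2, Int.gcdB m1 m2 * Int.gcdA g1 g2,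
    Int.gcdA m3 m4 * Int.gcdB g1 g2, Int.gcdB m3 m4 * Int.gcdB g1 g2, hc0, hp, hq, hr, hs, ?_⟩
  have : c * (Int.gcdA m1 m2 * Int.gcdA g1 g2 * p + Int.gcdB m1 m2 * Int.gcdA g1 g2 * q +
    Int.gcdA m3 m4 * Int.gcdB g1 g2 * r + Int.gcdB m3 m4 * Int.gcdB g1 g2 * s) = c * 1 := by
    have e1 : c * (Int.gcdA m1 m2 * Int.gcdA g1 g2 * p + Int.gcdB m1 m2 * Int.gcdA g1 g2 * q +
      Int.gcdA m3 m4 * Int.gcdB g1 g2 * r + Int.gcdB m3 m4 * Int.gcdB g1 g2 * s) =
      ((c * p) * Int.gcdA m1 m2 + (c * q) * Int.gcdB m1 m2) * Int.gcdA g1 g2 +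
      ((c * r) * Int.gcdA m3 m4 + (c * s) * Int.gcdB m3 m4) * Int.gcdB g1 g2 := by ring
    rw [e1, ← hp, ← hq, ← hr, ← hs, ← b1, ← b2, ← b3, mul_one]
  exact mul_left_cancel₀ hc0.ne' this

lemma det3_bound {K a1 a2 a3 b1 b2 b3 c1 c2 c3 : ℤ} 
    (h1 : |a1| ≤ K) (h2 : |a2| ≤ K) (h3 : |a3| ≤ K) (h4 : |b1| ≤ K) (h5 : |b2| ≤ K)
    (h6 : |b3| ≤ K) (h7 : |c1| ≤ K) (h8 : |c2| ≤ K) (h9 : |c3| ≤ K) :
    |det3 a1 a2 a3 b1 b2 b3 c1 c2 c3| ≤ 6 * K ^ 3 := by
  have hK : 0 ≤ K := le_trans (abs_nonneg _) h1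
  have P : ∀ {u v t : ℤ}, |u| ≤ K → |v| ≤ K → |t| ≤ K → |u * v * t| ≤ K ^ 3 := by
    intro u v t hu hv ht
    rw [abs_mul, abs_mul]
    calc |u| * |v| * |t| ≤ K * K * K := by gcongr
      _ = K ^ 3 := by ring
  have q1 := P h1 h5 h9
  have q2 := P h1 h6 h8
  have q3 := P h2 h4 h9
  have q4 := P h2 h6 h7
  have q5 := P h3 h4 h8
  have q6 := P h3 h5 h7
  unfold det3
  rw [abs_le] at *
  constructor <;> nlinarith [q1.1, q1.2, q2.1, q2.2, q3.1, q3.2, q4.1, q4.2, q5.1, q5.2,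
    q6.1, q6.2]

/-- The matrix of a cluster. -/
theorem cluster_matrix {ι : Type*} (C : Finset ι) (x y z w : ι → ℤ) (V : ℤ)
    (hx : ∀ i ∈ C, 0 < x i ∧ x i ≤ V) (hy : ∀ i ∈ C, 0 < y i ∧ y i ≤ V)
    (hz : ∀ i ∈ C, 0 < z i ∧ z i ≤ V) (hw : ∀ i ∈ C, 0 < w i ∧ w i ≤ V)
    (hxy : ∀ i ∈ C, IsCoprime (x i) (y i)) (hzw : ∀ i ∈ C, IsCoprime (z i) (w i))
    (hzw_ne : ∀ i ∈ C, ∀ j ∈ C, i ≠ j → z i * w j ≠ z j * w i)
    (hxy_ne : ∀ i ∈ C, ∀ j ∈ C, i ≠ j → x i * y j ≠ x j * y i)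
    (hDD : ∀ i ∈ C, ∀ j ∈ C, ∀ k ∈ C, ∀ l ∈ C,
      DD (x i) (y i) (z i) (w i) (x j) (y j) (z j) (w j) (x k) (y k) (z k) (w k)
        (x l) (y l) (z l) (w l) = 0)
    (hcard : 3 ≤ C.card) :
    ∃ p q r s : ℤ, ∃ g : ι → ℤ,
      (∀ i ∈ C, p * z i + q * w i = g i * x i ∧ r * z i + s * w i = g i * y i) ∧
      p * s - q * r ≠ 0 ∧ (∀ i ∈ C, g i ≠ 0 ∧ g i ∣ p * s - q * r) ∧
      (∀ i ∈ C, ∀ j ∈ C, ∀ d : ℤ, d ∣ g i → d ∣ g j → d ∣ z i * w j - z j * w i) ∧
      |p * s - q * r| ≤ 72 * V ^ 12 := by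
  classical
  -- three distinct points
  obtain ⟨T, hTC, hT3⟩ := Finset.exists_subset_card_eq hcard
  obtain ⟨i, j, k, hij, hik, hjk, rfl⟩ := Finset.card_eq_three.1 hT3
  have hi : i ∈ C := hTC (by simp)
  have hj : j ∈ C := hTC (by simp)
  have hk : k ∈ C := hTC (by simp)
  set M1 := mm1 (x i) (y i) (z i) (w i) (x j) (y j) (z j) (w j) (x k) (y k) (z k) (w k) with hM1
  set M2 := mm2 (x i) (y i) (z i) (w i) (x j) (y j) (z j) (w j) (x k) (y k) (z k) (w k) with hM2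
  set M3 := mm3 (x i) (y i) (z i) (w i) (x j) (y j) (z j) (w j) (x k) (y k) (z k) (w k) with hM3
  set M4 := mm4 (x i) (y i) (z i) (w i) (x j) (y j) (z j) (w j) (x k) (y k) (z k) (w k) with hM4
  have hrel : ∀ l ∈ C, M1 * (w l * x l) + M2 * (z l * x l) + M3 * (w l * y l) +
      M4 * (z l * y l) = 0 := by
    intro l hl
    exact hDD i hi j hj k hk l hl
  have hid : w k * M3 + z k * M4 =
      x k * (z i * w k - z k * w i) * (z k * w j - z j * w k) * (y i * x j - y j * x i) := by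
    rw [hM3, hM4]; unfold mm3 mm4 det3; ring
  have hne : ¬ (M1 = 0 ∧ M2 = 0 ∧ M3 = 0 ∧ M4 = 0) := by
    rintro ⟨-, -, h3, h4⟩
    rw [h3, h4] at hid
    have e1 : x k ≠ 0 := (hx k hk).1.ne'
    have e2 : z i * w k - z k * w i ≠ 0 := sub_ne_zero.2 (hzw_ne i hi k hk hik)
    have e3 : z k * w j - z j * w k ≠ 0 := sub_ne_zero.2 (hzw_ne k hk j hj hjk.symm)
    have e4 : y i * x j - y j * x i ≠ 0 := by
      have := hxy_ne i hi j hj hij
      intro h0; apply this; linarith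
    have : x k * (z i * w k - z k * w i) * (z k * w j - z j * w k) * (y i * x j - y j * x i) ≠ 0 :=
      mul_ne_zero (mul_ne_zero (mul_ne_zero e1 e2) e3) e4
    apply this
    rw [← hid]; ring
  obtain ⟨c, s, r, q', p', α, β, γ, σ, hc0, h1, h2, h3, h4, hbez⟩ := bezout4 M1 M2 M3 M4 hne
  -- `M = (p q; r s)` with `p = -p'`, `q = -q'`
  set p : ℤ := -p' with hp
  set q : ℤ := -q' with hq
  have hbez' : α * s + β * r + (-γ) * q + (-σ) * p = 1 := by
    rw [hp, hq]; linarith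
  have hrel' : ∀ l ∈ C, x l * (r * z l + s * w l) = y l * (p * z l + q * w l) := by
    intro l hl
    have h5 := hrel l hl
    rw [h1, h2, h3, h4] at h5
    have h6 : c * (x l * (r * z l + s * w l) - y l * (p * z l + q * w l)) = 0 := by
      rw [hp, hq]; linear_combination h5
    have h7 := (mul_eq_zero.1 h6).resolve_left hc0.ne'
    linarith
  have hg : ∀ l ∈ C, ∃ g : ℤ, p * z l + q * w l = g * x l ∧ r * z l + s * w l = g * y l := by
    intro l hl
    have h5 := hrel' l hl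
    have h6 : x l ∣ p * z l + q * w l := by
      have : x l ∣ y l * (p * z l + q * w l) := ⟨_, h5.symm⟩
      exact (hxy l hl).dvd_of_dvd_mul_left this
    obtain ⟨g, hg⟩ := h6
    refine ⟨g, by rw [hg]; ring, ?_⟩
    rw [hg] at h5
    have h7 : x l * (r * z l + s * w l) = x l * (g * y l) := by rw [h5]; ring
    exact mul_left_cancel₀ (hx l hl).1.ne' h7
  choose! g hg using hg
  have hkey : ∀ l ∈ C, ∀ m ∈ C, (p * s - q * r) * (z l * w m - z m * w l) =
      g l * g m * (x l * y m - x m * y l) := by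
    intro l hl m hm
    obtain ⟨a1, a2⟩ := hg l hl
    obtain ⟨b1, b2⟩ := hg m hm
    have e1 : g l * g m * (x l * y m - x m * y l) =
      (g l * x l) * (g m * y m) - (g m * x m) * (g l * y l) := by ring
    rw [e1, ← a1, ← a2, ← b1, ← b2]
    ring
  have hD : p * s - q * r ≠ 0 := by
    intro hD0
    have hzero : ∀ l ∈ C, ∀ m ∈ C, l ≠ m → g l = 0 ∨ g m = 0 := by
      intro l hl m hm hlm
      have h5 := hkey l hl m hm
      rw [hD0, zero_mul] at h5
      have h6 : x l * y m - x m * y l ≠ 0 := sub_ne_zero.2 (hxy_ne l hl m hm hlm)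
      have h7 := (mul_eq_zero.1 h5.symm).resolve_right h6
      exact mul_eq_zero.1 h7
    have htwo : ∀ l ∈ C, ∀ m ∈ C, l ≠ m → g l = 0 → g m = 0 → False := by
      intro l hl m hm hlm g1 g2
      obtain ⟨a1, a2⟩ := hg l hl
      obtain ⟨b1, b2⟩ := hg m hm
      rw [g1, zero_mul] at a1 a2
      rw [g2, zero_mul] at b1 b2
      have hΔ : z l * w m - z m * w l ≠ 0 := sub_ne_zero.2 (hzw_ne l hl m hm hlm)
      have k1 : p = 0 := by
        have : p * (z l * w m - z m * w l) = 0 := by linear_combination w m * a1 - w l * b1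
        exact (mul_eq_zero.1 this).resolve_right hΔ
      have k2 : q = 0 := by
        have : q * (z l * w m - z m * w l) = 0 := by linear_combination z l * b1 - z m * a1
        exact (mul_eq_zero.1 this).resolve_right hΔ
      have k3 : r = 0 := by
        have : r * (z l * w m - z m * w l) = 0 := by linear_combination w m * a2 - w l * b2
        exact (mul_eq_zero.1 this).resolve_right hΔ
      have k4 : s = 0 := by
        have : s * (z l * w m - z m * w l) = 0 := by linear_combination z l * b2 - z m * a2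
        exact (mul_eq_zero.1 this).resolve_right hΔ
      rw [k1, k2, k3, k4] at hbez'
      simp at hbez'
    rcases hzero i hi j hj hij with h5 | h5
    · rcases hzero j hj k hk hjk with h6 | h6
      · exact htwo i hi j hj hij h5 h6
      · exact htwo i hi k hk hik h5 h6
    · rcases hzero i hi k hk hik with h6 | h6
      · exact htwo i hi j hj hij h6 h5
      · exact htwo j hj k hk hjk h5 h6
  refine ⟨p, q, r, s, g, hg, hD, ?_, ?_, ?_⟩
  · intro l hl
    obtain ⟨a1, a2⟩ := hg l hl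
    have e1 : (p * s - q * r) * z l = g l * (s * x l - q * y l) := by
      linear_combination s * a1 - q * a2
    have e2 : (p * s - q * r) * w l = g l * (p * y l - r * x l) := by
      linear_combination p * a2 - r * a1
    constructor
    · intro h0
      rw [h0, zero_mul] at e1
      exact (mul_ne_zero hD (hz l hl).1.ne') e1
    · obtain ⟨u, v, huv⟩ := hzw l hl
      refine ⟨u * (s * x l - q * y l) + v * (p * y l - r * x l), ?_⟩
      calc p * s - q * r = (p * s - q * r) * (u * z l + v * w l) := by rw [huv, mul_one]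
        _ = u * ((p * s - q * r) * z l) + v * ((p * s - q * r) * w l) := by ring
        _ = _ := by rw [e1, e2]; ring
  · intro l hl m hm d hdl hdm
    obtain ⟨a1, a2⟩ := hg l hl
    obtain ⟨b1, b2⟩ := hg m hm
    obtain ⟨u, hu⟩ := hdl
    obtain ⟨v, hv⟩ := hdm
    have k1 : d ∣ p * (z l * w m - z m * w l) := by
      refine ⟨u * x l * w m - v * x m * w l, ?_⟩
      rw [hu] at a1; rw [hv] at b1
      linear_combination w m * a1 - w l * b1
    have k2 : d ∣ q * (z l * w m - z m * w l) := by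
      refine ⟨v * x m * z l - u * x l * z m, ?_⟩
      rw [hu] at a1; rw [hv] at b1
      linear_combination z l * b1 - z m * a1
    have k3 : d ∣ r * (z l * w m - z m * w l) := by
      refine ⟨u * y l * w m - v * y m * w l, ?_⟩
      rw [hu] at a2; rw [hv] at b2
      linear_combination w m * a2 - w l * b2
    have k4 : d ∣ s * (z l * w m - z m * w l) := by
      refine ⟨v * y m * z l - u * y l * z m, ?_⟩
      rw [hu] at a2; rw [hv] at b2
      linear_combination z l * b2 - z m * a2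
    have : z l * w m - z m * w l = α * (s * (z l * w m - z m * w l)) +
        β * (r * (z l * w m - z m * w l)) + (-γ) * (q * (z l * w m - z m * w l)) +
        (-σ) * (p * (z l * w m - z m * w l)) := by
      linear_combination -(z l * w m - z m * w l) * hbez'
    rw [this]
    exact dvd_add (dvd_add (dvd_add (k4.mul_left _) (k3.mul_left _)) (k2.mul_left _))
      (k1.mul_left _)
  · -- size
    have hV0 : 0 < V := lt_of_lt_of_le (hx i hi).1 (hx i hi).2
    have pr : ∀ {u v : ℤ}, (0 < u ∧ u ≤ V) → (0 < v ∧ v ≤ V) → |u * v| ≤ V ^ 2 := by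
      intro u v hu hv
      rw [abs_mul, abs_of_pos hu.1, abs_of_pos hv.1, sq]
      exact mul_le_mul hu.2 hv.2 hv.1.le hV0.le
    have bM1 : |M1| ≤ 6 * (V ^ 2) ^ 3 := by
      rw [hM1]; unfold mm1
      apply det3_bound <;> apply pr <;> simp [hx, hy, hz, hw, hi, hj, hk]
    have bM2 : |M2| ≤ 6 * (V ^ 2) ^ 3 := by
      rw [hM2]; unfold mm2; rw [abs_neg]
      apply det3_bound <;> apply pr <;> simp [hx, hy, hz, hw, hi, hj, hk]
    have bM3 : |M3| ≤ 6 * (V ^ 2) ^ 3 := by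
      rw [hM3]; unfold mm3
      apply det3_bound <;> apply pr <;> simp [hx, hy, hz, hw, hi, hj, hk]
    have bM4 : |M4| ≤ 6 * (V ^ 2) ^ 3 := by
      rw [hM4]; unfold mm4; rw [abs_neg]
      apply det3_bound <;> apply pr <;> simp [hx, hy, hz, hw, hi, hj, hk]
    have red : ∀ {M t : ℤ}, M = c * t → |M| ≤ 6 * (V ^ 2) ^ 3 → |t| ≤ 6 * (V ^ 2) ^ 3 := by
      intro M t hMt hM
      rw [hMt, abs_mul, abs_of_pos hc0] at hM
      have : 1 ≤ c := hc0
      nlinarith [abs_nonneg t]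
    have bs := red h1 bM1
    have br := red h2 bM2
    have bq := red h3 bM3
    have bp := red h4 bM4
    have e1 : |p * s| ≤ (6 * (V ^ 2) ^ 3) * (6 * (V ^ 2) ^ 3) := by
      rw [abs_mul, hp, abs_neg]
      exact mul_le_mul bp bs (abs_nonneg _) (by positivity)
    have e2 : |q * r| ≤ (6 * (V ^ 2) ^ 3) * (6 * (V ^ 2) ^ 3) := by
      rw [abs_mul, hq, abs_neg]
      exact mul_le_mul bq br (abs_nonneg _) (by positivity)
    have e3 := abs_sub (p * s) (q * r)
    calc |p * s - q * r| ≤ |p * s| + |q * r| := e3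
      _ ≤ (6 * (V ^ 2) ^ 3) * (6 * (V ^ 2) ^ 3) + (6 * (V ^ 2) ^ 3) * (6 * (V ^ 2) ^ 3) := by
        linarith
      _ = 72 * V ^ 12 := by ring

end Pool.Agent.Helper94.Abc
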