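import Mathlib
import Pool.Agent.Helper94.Abc.Basic

set_option autoImplicit false

/-!
The decomposition `m = e1 * e2^2 * e3^3 * e4` according to the exponents of the primes.
-/

namespace Pool.Agent.Helper94.Abc

open Finset Real
open Pool.Agent.Helper26.RadSum (rad rad_pos one_le_rad rad_mul_of_coprime)

/-- Product of the primes dividing `m` exactly once. -/
def e1 (m : ℕ) : ℕ := ∏ p ∈ m.primeFactors, if m.factorization p = 1 then p else 1
/-- Product of the primes dividing `m` exactly twice. -/
def e2 (m : ℕ) : ℕ := ∏ p ∈ m.primeFactors, if m.factorization p = 2 then p else 1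
/-- Product of the primes dividing `m` exactly three times. -/
def e3 (m : ℕ) : ℕ := ∏ p ∈ m.primeFactors, if m.factorization p = 3 then p else 1
/-- The part of `m` made of prime powers with exponent at least four. -/
def e4 (m : ℕ) : ℕ :=
  ∏ p ∈ m.primeFactors, if 4 ≤ m.factorization p then p ^ m.factorization p else 1
/-- The radical of `e4 m`. -/
def r4 (m : ℕ) : ℕ := ∏ p ∈ m.primeFactors, if 4 ≤ m.factorization p then p else 1
/-- The squarefree kernel of `m`. -/
def sk (m : ℕ) : ℕ := ∏ p ∈ m.primeFactors, if Odd (m.factorization p) then p else 1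
/-- `m = sk m * qk m ^ 2`. -/
def qk (m : ℕ) : ℕ := ∏ p ∈ m.primeFactors, p ^ (m.factorization p / 2)

lemma rad_prod_pow (T : Finset ℕ) (hT : ∀ p ∈ T, p.Prime) (f : ℕ → ℕ) :
    rad (∏ p ∈ T, p ^ f p) = ∏ p ∈ T, if f p = 0 then 1 else p := by
  classical
  induction T using Finset.induction_on with
  | empty => simp [rad]
  | insert q T hq ih =>
    rw [Finset.prod_insert hq, Finset.prod_insert hq]
    have hqp : q.Prime := hT q (Finset.mem_insert_self _ _)
    have hT' : ∀ p ∈ T, p.Prime := fun p hp => hT p (Finset.mem_insert_of_mem hp)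
    have hcop : Nat.Coprime (q ^ f q) (∏ p ∈ T, p ^ f p) := by
      apply Nat.Coprime.prod_right
      intro p hp
      apply Nat.Coprime.pow
      rw [Nat.coprime_primes hqp (hT' p hp)]
      intro h; subst h; exact hq hp
    rw [rad_mul_of_coprime hcop, ih hT']
    congr 1
    by_cases h0 : f q = 0
    · simp [h0, rad]
    · rw [if_neg h0]
      unfold rad
      rw [Nat.primeFactors_prime_pow h0 hqp]; simp

section
variable {m : ℕ}

lemma fac_pos {p : ℕ} (hp : p ∈ m.primeFactors) : 0 < m.factorization p := by
  have hpp := Nat.prime_of_mem_primeFactors hp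
  have hd := Nat.dvd_of_mem_primeFactors hp
  have hm : m ≠ 0 := (Nat.mem_primeFactors.1 hp).2.2
  exact hpp.factorization_pos_of_dvd hm hd

lemma self_eq_prod (hm : m ≠ 0) : m = ∏ p ∈ m.primeFactors, p ^ m.factorization p := by
  have h := Nat.prod_factorization_pow_eq_self hm
  conv_lhs => rw [← h]
  rw [Finsupp.prod]
  rfl

lemma decomp (hm : m ≠ 0) : m = e1 m * e2 m ^ 2 * e3 m ^ 3 * e4 m := by
  conv_lhs => rw [self_eq_prod hm]
  unfold e1 e2 e3 e4
  rw [← Finset.prod_pow, ← Finset.prod_pow, ← Finset.prod_mul_distrib, ← Finset.prod_mul_distrib,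
    ← Finset.prod_mul_distrib]
  apply Finset.prod_congr rfl
  intro p hp
  have hpos := fac_pos hp
  rcases lt_or_ge (m.factorization p) 4 with h | h
  · interval_cases (m.factorization p) <;> simp
  · have h1 : m.factorization p ≠ 1 := by omega
    have h2 : m.factorization p ≠ 2 := by omega
    have h3 : m.factorization p ≠ 3 := by omega
    simp [h1, h2, h3, h]

lemma rad_eq : rad m = e1 m * e2 m * e3 m * r4 m := by
  unfold e1 e2 e3 r4 rad
  rw [← Finset.prod_mul_distrib, ← Finset.prod_mul_distrib, ← Finset.prod_mul_distrib]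
  apply Finset.prod_congr rfl
  intro p hp
  have hpos := fac_pos hp
  rcases lt_or_ge (m.factorization p) 4 with h | h
  · interval_cases (m.factorization p) <;> simp
  · have h1 : m.factorization p ≠ 1 := by omega
    have h2 : m.factorization p ≠ 2 := by omega
    have h3 : m.factorization p ≠ 3 := by omega
    simp [h1, h2, h3, h]

lemma r4_pow_le : r4 m ^ 4 ≤ e4 m := by
  unfold e4 r4
  rw [← Finset.prod_pow]
  apply Finset.prod_le_prod'
  intro p hp
  have hpp := Nat.prime_of_mem_primeFactors hp
  split_ifs with h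
  · exact Nat.pow_le_pow_right hpp.pos h
  · simp

lemma rad_e3_e4 : rad (e3 m ^ 3 * e4 m) = e3 m * r4 m := by
  have h1 : e3 m ^ 3 * e4 m = ∏ p ∈ m.primeFactors,
      p ^ (if m.factorization p = 3 then 3 else if 4 ≤ m.factorization p then m.factorization p
        else 0) := by
    unfold e3 e4
    rw [← Finset.prod_pow, ← Finset.prod_mul_distrib]
    apply Finset.prod_congr rfl
    intro p hp
    rcases lt_or_ge (m.factorization p) 4 with h | h
    · interval_cases (m.factorization p) <;> simp
    · have h3 : m.factorization p ≠ 3 := by omega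
      simp [h3, h]
  rw [h1, rad_prod_pow _ (fun p hp => Nat.prime_of_mem_primeFactors hp)]
  unfold e3 r4
  rw [← Finset.prod_mul_distrib]
  apply Finset.prod_congr rfl
  intro p hp
  rcases lt_or_ge (m.factorization p) 4 with h | h
  · interval_cases (m.factorization p) <;> simp
  · have h3 : m.factorization p ≠ 3 := by omega
    have h4 : m.factorization p ≠ 0 := by omega
    simp [h3, h, h4]

lemma rad_e1_e3_e4 : rad (e1 m * e3 m ^ 3 * e4 m) = e1 m * e3 m * r4 m := by
  have h1 : e1 m * e3 m ^ 3 * e4 m = ∏ p ∈ m.primeFactors,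
      p ^ (if m.factorization p = 1 then 1 else if m.factorization p = 3 then 3 else
        if 4 ≤ m.factorization p then m.factorization p else 0) := by
    unfold e1 e3 e4
    rw [← Finset.prod_pow, ← Finset.prod_mul_distrib, ← Finset.prod_mul_distrib]
    apply Finset.prod_congr rfl
    intro p hp
    rcases lt_or_ge (m.factorization p) 4 with h | h
    · interval_cases (m.factorization p) <;> simp
    · have h3 : m.factorization p ≠ 3 := by omega
      have h2 : m.factorization p ≠ 1 := by omega
      simp [h3, h, h2]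
  rw [h1, rad_prod_pow _ (fun p hp => Nat.prime_of_mem_primeFactors hp)]
  unfold e1 e3 r4
  rw [← Finset.prod_mul_distrib, ← Finset.prod_mul_distrib]
  apply Finset.prod_congr rfl
  intro p hp
  rcases lt_or_ge (m.factorization p) 4 with h | h
  · interval_cases (m.factorization p) <;> simp
  · have h3 : m.factorization p ≠ 3 := by omega
    have h2 : m.factorization p ≠ 1 := by omega
    have h4 : m.factorization p ≠ 0 := by omega
    simp [h3, h, h4, h2]

lemma rad_e2_e4 : rad (e2 m ^ 2 * e4 m) = e2 m * r4 m := by
  have h1 : e2 m ^ 2 * e4 m = ∏ p ∈ m.primeFactors,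
      p ^ (if m.factorization p = 2 then 2 else if 4 ≤ m.factorization p then m.factorization p
        else 0) := by
    unfold e2 e4
    rw [← Finset.prod_pow, ← Finset.prod_mul_distrib]
    apply Finset.prod_congr rfl
    intro p hp
    rcases lt_or_ge (m.factorization p) 4 with h | h
    · interval_cases (m.factorization p) <;> simp
    · have h3 : m.factorization p ≠ 2 := by omega
      simp [h3, h]
  rw [h1, rad_prod_pow _ (fun p hp => Nat.prime_of_mem_primeFactors hp)]
  unfold e2 r4
  rw [← Finset.prod_mul_distrib]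
  apply Finset.prod_congr rfl
  intro p hp
  rcases lt_or_ge (m.factorization p) 4 with h | h
  · interval_cases (m.factorization p) <;> simp
  · have h3 : m.factorization p ≠ 2 := by omega
    have h4 : m.factorization p ≠ 0 := by omega
    simp [h3, h, h4]

lemma sk_qk (hm : m ≠ 0) : m = sk m * qk m ^ 2 := by
  conv_lhs => rw [self_eq_prod hm]
  unfold sk qk
  rw [← Finset.prod_pow, ← Finset.prod_mul_distrib]
  apply Finset.prod_congr rfl
  intro p hp
  rw [← pow_mul]
  split_ifs with h
  · rw [← pow_succ']
    congr 1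
    obtain ⟨k, hk⟩ := h
    omega
  · rw [one_mul]
    congr 1
    rw [Nat.not_odd_iff_even] at h
    obtain ⟨k, hk⟩ := h
    omega

lemma sk_le : sk m ≤ e1 m * e3 m * r4 m := by
  unfold sk e1 e3 r4
  rw [← Finset.prod_mul_distrib, ← Finset.prod_mul_distrib]
  apply Finset.prod_le_prod'
  intro p hp
  have hpp := Nat.prime_of_mem_primeFactors hp
  rcases lt_or_ge (m.factorization p) 4 with h | h
  · interval_cases (m.factorization p) <;> simp [Nat.odd_iff, hpp.one_le]
  · have h3 : m.factorization p ≠ 3 := by omega
    have h2 : m.factorization p ≠ 1 := by omega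
    simp only [h3, h, h2, if_false, if_true, one_mul]
    split_ifs
    · exact le_rfl
    · exact hpp.one_le

lemma rad_sk : rad (sk m) = sk m := by
  have h1 : sk m = ∏ p ∈ m.primeFactors, p ^ (if Odd (m.factorization p) then 1 else 0) := by
    unfold sk
    apply Finset.prod_congr rfl
    intro p _
    split_ifs <;> simp
  conv_lhs => rw [h1, rad_prod_pow _ (fun p hp => Nat.prime_of_mem_primeFactors hp)]
  unfold sk
  apply Finset.prod_congr rfl
  intro p _
  split_ifs <;> simp_all

lemma prod_ite_pos (f : ℕ → ℕ) (P : ℕ → Prop) [DecidablePred P]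
    (hf : ∀ p ∈ m.primeFactors, P p → 0 < f p) :
    0 < ∏ p ∈ m.primeFactors, if P p then f p else 1 := by
  apply Finset.prod_pos
  intro p hp
  split_ifs with h
  · exact hf p hp h
  · exact one_pos

lemma e1_pos : 0 < e1 m :=
  prod_ite_pos _ _ fun _ hp _ => (Nat.prime_of_mem_primeFactors hp).pos
lemma e2_pos : 0 < e2 m :=
  prod_ite_pos _ _ fun _ hp _ => (Nat.prime_of_mem_primeFactors hp).pos
lemma e3_pos : 0 < e3 m :=
  prod_ite_pos _ _ fun _ hp _ => (Nat.prime_of_mem_primeFactors hp).pos
lemma e4_pos : 0 < e4 m :=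
  prod_ite_pos _ _ fun _ hp _ => pow_pos (Nat.prime_of_mem_primeFactors hp).pos _
lemma r4_pos : 0 < r4 m :=
  prod_ite_pos _ _ fun _ hp _ => (Nat.prime_of_mem_primeFactors hp).pos
lemma sk_pos : 0 < sk m :=
  prod_ite_pos _ _ fun _ hp _ => (Nat.prime_of_mem_primeFactors hp).pos
lemma qk_pos : 0 < qk m := by
  apply Finset.prod_pos
  intro p hp
  exact pow_pos (Nat.prime_of_mem_primeFactors hp).pos _

end

end Pool.Agent.Helper94.Abc
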