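import Mathlib
import Pool.Agent.Helper94.Abc.Decomp

set_option autoImplicit false

/-!
Counting lemmas for the classes with a large linear or quadratic structure.
-/

namespace Pool.Agent.Helper94.Abc

open Finset Real
open Pool.Agent.Helper26.RadSum (rad rad_pos one_le_rad rad_mul_of_coprime)

/-- Abstract class bound: if the fibres of `f` over the pair `u` have at most
`T / (rad u.1 * rad u.2)` elements, then there are at most `T * E^2` elements. -/
lemma class_bound {ι : Type*} (S : Finset ι) (f : ι → ℕ × ℕ) (M : ℕ) {T : ℝ}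
    (hT : 0 ≤ T) (hf : ∀ i ∈ S, f i ∈ Finset.Icc 1 M ×ˢ Finset.Icc 1 M)
    (hfib : ∀ i ∈ S, ((S.filter (fun j => f j = f i)).card : ℝ) ≤
      T / ((rad (f i).1 : ℝ) * rad (f i).2)) :
    (S.card : ℝ) ≤ T * (∑ m ∈ Finset.Icc 1 M, 1 / (rad m : ℝ)) ^ 2 := by
  classical
  have h1 : (S.card : ℝ) = ∑ u ∈ S.image f, ((S.filter (fun j => f j = u)).card : ℝ) := by
    have := Finset.card_eq_sum_card_image f S
    rw [this]; push_cast; rfl
  rw [h1]
  calc ∑ u ∈ S.image f, ((S.filter (fun j => f j = u)).card : ℝ)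
      ≤ ∑ u ∈ S.image f, T * ((1 / (rad u.1 : ℝ)) * (1 / (rad u.2 : ℝ))) := by
        apply Finset.sum_le_sum
        intro u hu
        rw [Finset.mem_image] at hu
        obtain ⟨i, hi, rfl⟩ := hu
        refine (hfib i hi).trans (le_of_eq ?_)
        rw [one_div_mul_one_div, mul_one_div]
    _ ≤ ∑ u ∈ Finset.Icc 1 M ×ˢ Finset.Icc 1 M,
          T * ((1 / (rad u.1 : ℝ)) * (1 / (rad u.2 : ℝ))) := by
        apply Finset.sum_le_sum_of_subset_of_nonneg
        · intro u hu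
          rw [Finset.mem_image] at hu
          obtain ⟨i, hi, rfl⟩ := hu
          exact hf i hi
        · intro u _ _
          positivity
    _ = _ := by
        rw [← Finset.mul_sum, sq, Finset.sum_mul_sum, Finset.sum_product]

/-- Linear congruences. -/
lemma lin_fiber (s : Finset ℕ) (α β a M : ℕ) (hα : 0 < α) (hβ : 0 < β)
    (hco : Nat.Coprime α β) (h : ∀ n ∈ s, α ∣ n ∧ β ∣ n + a ∧ n ≤ M) :
    (s.card : ℝ) ≤ 1 + (M : ℝ) / ((α : ℝ) * β) := by
  have hα' : (0 : ℝ) < α := by exact_mod_cast hα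
  have hβ' : (0 : ℝ) < β := by exact_mod_cast hβ
  have := gap_card s (fun n : ℕ => (n : ℝ)) (u := 0) (v := M) (G := (α : ℝ) * β)
    (by positivity) (by positivity)
    (fun n hn => ⟨by positivity, by exact_mod_cast (h n hn).2.2⟩) ?_
  · simpa using this
  · intro n hn m hm hne
    obtain ⟨h1, h2, -⟩ := h n hn
    obtain ⟨h3, h4, -⟩ := h m hm
    have e1 : (α : ℤ) ∣ (n : ℤ) - m := by
      apply dvd_sub <;> exact_mod_cast ‹_›
    have e2 : (β : ℤ) ∣ (n : ℤ) - m := by
      have : ((n : ℤ) - m) = ((n + a : ℕ) : ℤ) - ((m + a : ℕ) : ℤ) := by push_cast; ring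
      rw [this]
      apply dvd_sub <;> exact_mod_cast ‹_›
    have hco' : IsCoprime (α : ℤ) (β : ℤ) := Nat.isCoprime_iff_coprime.2 hco
    have e3 : (α : ℤ) * β ∣ (n : ℤ) - m := hco'.mul_dvd e1 e2
    have e4 : (n : ℤ) - m ≠ 0 := by
      intro h0; apply hne; omega
    have e5 := Int.le_of_dvd (abs_pos.2 e4) ((dvd_abs _ _).2 e3)
    have : ((α : ℤ) * β : ℝ) ≤ ((|(n : ℤ) - m| : ℤ) : ℝ) := by exact_mod_cast e5
    push_cast at this
    exact this

/-- Solutions of `t l^2 ≡ a (mod α)`. -/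
lemma quad_fiber (s : Finset ℕ) (α t : ℕ) (a : ℤ) {Lm : ℝ} (hLm : 0 ≤ Lm) (hα : 0 < α)
    (hta : IsCoprime (α : ℤ) (t : ℤ)) (haa : IsCoprime (α : ℤ) a)
    (h : ∀ l ∈ s, (α : ℤ) ∣ (t : ℤ) * (l : ℤ) ^ 2 - a ∧ (l : ℝ) ≤ Lm) :
    (s.card : ℝ) ≤ (α.divisors.card : ℝ) * (1 + 2 * Lm / α) := by
  classical
  have hα' : (0 : ℝ) < α := by exact_mod_cast hα
  rcases s.eq_empty_or_nonempty with rfl | ⟨l0, hl0⟩
  · simp only [Finset.card_empty, Nat.cast_zero]
    positivity
  -- basic divisibility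
  have key : ∀ l ∈ s, (α : ℤ) ∣ ((l : ℤ) - l0) * ((l : ℤ) + l0) := by
    intro l hl
    have h1 := (h l hl).1
    have h2 := (h l0 hl0).1
    have h3 : (α : ℤ) ∣ (t : ℤ) * (((l : ℤ) - l0) * ((l : ℤ) + l0)) := by
      have : (t : ℤ) * (((l : ℤ) - l0) * ((l : ℤ) + l0)) =
        ((t : ℤ) * (l : ℤ) ^ 2 - a) - ((t : ℤ) * (l0 : ℤ) ^ 2 - a) := by ring
      rw [this]; exact dvd_sub h1 h2
    exact hta.dvd_of_dvd_mul_left h3
  have hl0α : IsCoprime (α : ℤ) (l0 : ℤ) := by
    -- `a = t l0^2 - α * k`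
    obtain ⟨k, hk⟩ := (h l0 hl0).1
    have h1 : a = (t : ℤ) * (l0 : ℤ) ^ 2 - α * k := by linarith
    rw [h1] at haa
    have h2 : IsCoprime (α : ℤ) ((t : ℤ) * (l0 : ℤ) ^ 2) := by
      have := IsCoprime.add_mul_left_right haa k
      have e : (t : ℤ) * (l0 : ℤ) ^ 2 - α * k + α * k = (t : ℤ) * (l0 : ℤ) ^ 2 := by ring
      rwa [e] at this
    have h3 : IsCoprime (α : ℤ) ((l0 : ℤ) ^ 2) := h2.of_mul_right_right
    exact (IsCoprime.pow_right_iff (by norm_num)).1 h3
  have hfib : (s.card : ℝ) = ∑ d ∈ α.divisors,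
      ((s.filter (fun l : ℕ => Int.gcd (α : ℤ) ((l : ℤ) - l0) = d)).card : ℝ) := by
    have := Finset.card_eq_sum_card_fiberwise (s := s) (t := α.divisors)
      (f := fun l : ℕ => Int.gcd (α : ℤ) ((l : ℤ) - l0)) (by
        intro l _
        simp only [Finset.mem_coe, Nat.mem_divisors]
        refine ⟨?_, hα.ne'⟩
        have := Int.gcd_dvd_left (α : ℤ) ((l : ℤ) - l0)
        exact_mod_cast this)
    rw [this]; push_cast; rfl
  rw [hfib]
  have hbd : ∀ d ∈ α.divisors,
      ((s.filter (fun l : ℕ => Int.gcd (α : ℤ) ((l : ℤ) - l0) = d)).card : ℝ) ≤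
        1 + 2 * Lm / α := by
    intro d hd
    have hdα : d ∣ α := Nat.dvd_of_mem_divisors hd
    obtain ⟨e, he⟩ := hdα
    have hd0 : d ≠ 0 := by rintro rfl; simp at he; omega
    have := gap_card (s.filter (fun l : ℕ => Int.gcd (α : ℤ) ((l : ℤ) - l0) = d))
      (fun n : ℕ => (n : ℝ)) (u := 0) (v := Lm) (G := (α : ℝ) / 2)
      (by positivity) hLm
      (fun n hn => ⟨by positivity, (h n (Finset.mem_filter.1 hn).1).2⟩) ?_
    · refine this.trans (le_of_eq ?_)
      field_simp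
      ring
    · intro l hl m hm hne
      rw [Finset.mem_filter] at hl hm
      have aux : ∀ l ∈ s, Int.gcd (α : ℤ) ((l : ℤ) - l0) = d →
          (d : ℤ) ∣ (l : ℤ) - l0 ∧ (e : ℤ) ∣ (l : ℤ) + l0 := by
        intro l hl hgl
        have h1 : (d : ℤ) ∣ (l : ℤ) - l0 := by
          rw [← hgl]; exact Int.gcd_dvd_right _ _
        refine ⟨h1, ?_⟩
        obtain ⟨k, hk⟩ := h1
        have h2 := key l hl
        rw [hk, he] at h2
        push_cast at h2
        have hd0' : (d : ℤ) ≠ 0 := by exact_mod_cast hd0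
        rw [mul_assoc] at h2
        have h3 : (e : ℤ) ∣ k * ((l : ℤ) + l0) := (mul_dvd_mul_iff_left hd0').1 h2
        have h4 : IsCoprime (e : ℤ) k := by
          rw [Int.isCoprime_iff_gcd_eq_one]
          have h5 : Int.gcd ((d : ℤ) * e) ((d : ℤ) * k) = d := by
            rw [← hk]
            have : ((d : ℤ) * e) = (α : ℤ) := by rw [he]; push_cast; ring
            rw [this]; exact hgl
          rw [Int.gcd_mul_left, Int.natAbs_natCast] at h5
          have h6 : d * Int.gcd (e : ℤ) k = d * 1 := by rw [h5, mul_one]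
          exact Nat.eq_of_mul_eq_mul_left (Nat.pos_of_ne_zero hd0) h6
        exact h4.dvd_of_dvd_mul_left h3
      obtain ⟨h1, h2⟩ := aux l hl.1 hl.2
      obtain ⟨h3, h4⟩ := aux m hm.1 hm.2
      have e1 : (d : ℤ) ∣ (l : ℤ) - m := by
        have : (l : ℤ) - m = ((l : ℤ) - l0) - ((m : ℤ) - l0) := by ring
        rw [this]; exact dvd_sub h1 h3
      have e2 : (e : ℤ) ∣ (l : ℤ) - m := by
        have : (l : ℤ) - m = ((l : ℤ) + l0) - ((m : ℤ) + l0) := by ring
        rw [this]; exact dvd_sub h2 h4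
      -- gcd(d, e) divides 2
      have hg : (Int.gcd (d : ℤ) (e : ℤ) : ℤ) ∣ 2 := by
        set g : ℤ := (Int.gcd (d : ℤ) (e : ℤ) : ℤ) with hgdef
        have g1 : g ∣ (d : ℤ) := Int.gcd_dvd_left _ _
        have g2 : g ∣ (e : ℤ) := Int.gcd_dvd_right _ _
        have g3 : g ∣ 2 * (l0 : ℤ) := by
          have : 2 * (l0 : ℤ) = ((l : ℤ) + l0) - ((l : ℤ) - l0) := by ring
          rw [this]
          exact dvd_sub (g2.trans h2) (g1.trans h1)
        have g4 : IsCoprime g (l0 : ℤ) := by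
          apply IsCoprime.of_isCoprime_of_dvd_left hl0α
          have : (α : ℤ) = d * e := by rw [he]; push_cast; ring
          rw [this]; exact Dvd.dvd.mul_right g1 _
        exact g4.dvd_of_dvd_mul_right g3
      have e3 : (α : ℤ) ∣ 2 * ((l : ℤ) - m) := by
        obtain ⟨j, hj⟩ := hg
        have e4 : (Int.lcm (d : ℤ) (e : ℤ) : ℤ) ∣ (l : ℤ) - m := by
          exact Int.coe_lcm_dvd e1 e2
        obtain ⟨i, hi⟩ := e4
        have e5 : (Int.gcd (d : ℤ) (e : ℤ) : ℤ) * (Int.lcm (d : ℤ) (e : ℤ) : ℤ) = d * e := by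
          have := Int.gcd_mul_lcm (d : ℤ) (e : ℤ)
          rw [Int.natAbs_natCast, Int.natAbs_natCast] at this
          exact_mod_cast this
        refine ⟨j * i, ?_⟩
        have : (α : ℤ) = d * e := by rw [he]; push_cast; ring
        rw [this, ← e5, hi, hj]
        ring
      have e4 : 2 * ((l : ℤ) - m) ≠ 0 := by
        intro h0; apply hne; omega
      have e5 := Int.le_of_dvd (abs_pos.2 e4) ((dvd_abs _ _).2 e3)
      have e6 : ((α : ℤ) : ℝ) ≤ ((|2 * ((l : ℤ) - m)| : ℤ) : ℝ) := by exact_mod_cast e5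
      push_cast at e6
      rw [abs_mul, abs_two] at e6
      linarith
  calc ∑ d ∈ α.divisors,
      ((s.filter (fun l : ℕ => Int.gcd (α : ℤ) ((l : ℤ) - l0) = d)).card : ℝ)
      ≤ ∑ d ∈ α.divisors, (1 + 2 * Lm / α) := Finset.sum_le_sum hbd
    _ = _ := by rw [Finset.sum_const, nsmul_eq_mul]

/-- Solutions of `t l^2 = σ k^2 + a` in a dyadic range. -/
lemma pell_fiber {ι : Type*} (s : Finset ι) (k l : ι → ℕ) (σ t a : ℕ) {N : ℝ} (hN : 0 < N)
    (ha : 0 < a) (hσ : 0 < σ) (ht : 0 < t)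
    (hinj : ∀ i ∈ s, ∀ j ∈ s, i ≠ j → k i ≠ k j)
    (h : ∀ i ∈ s, t * l i ^ 2 = σ * k i ^ 2 + a)
    (hlo : ∀ i ∈ s, N / 2 ≤ (σ * k i ^ 2 : ℕ)) (hhi : ∀ i ∈ s, ((σ * k i ^ 2 : ℕ) : ℝ) ≤ 2 * N) :
    (s.card : ℝ) ≤ 1 + 2 * a := by
  have ha' : (0 : ℝ) < a := by exact_mod_cast ha
  have hσ' : (1 : ℝ) ≤ σ := by exact_mod_cast hσ
  have ht' : (1 : ℝ) ≤ t := by exact_mod_cast ht
  have hsq : 0 < √(N / 2) := Real.sqrt_pos.2 (by positivity)
  have := gap_card s (fun i => (k i : ℝ)) (u := 0) (v := √(2 * N)) (G := √(N / 2) / a)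
    (by positivity) (by positivity) ?_ ?_
  · refine this.trans (le_of_eq ?_)
    have : √(2 * N) = 2 * √(N / 2) := by
      have : 2 * N = (2 ^ 2) * (N / 2) := by ring
      rw [this, Real.sqrt_mul (by positivity), Real.sqrt_sq (by norm_num)]
    rw [this]
    field_simp
    ring
  · intro i hi
    refine ⟨by positivity, ?_⟩
    apply Real.le_sqrt_of_sq_le
    have h1 := hhi i hi
    push_cast at h1
    nlinarith [sq_nonneg (k i : ℝ)]
  · -- the gap
    have main : ∀ i ∈ s, ∀ j ∈ s, k j < k i → √(N / 2) / a ≤ (k i : ℝ) - k j := by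
      intro i hi j hj hlt
      have hi1 := h i hi
      have hj1 := h j hj
      have hi1' : (t : ℝ) * (l i : ℝ) ^ 2 = σ * (k i : ℝ) ^ 2 + a := by exact_mod_cast hi1
      have hj1' : (t : ℝ) * (l j : ℝ) ^ 2 = σ * (k j : ℝ) ^ 2 + a := by exact_mod_cast hj1
      have hkr : (k j : ℝ) < k i := by exact_mod_cast hlt
      have hkj0 : (0 : ℝ) ≤ k j := by positivity
      have hlj0 : (0 : ℝ) ≤ l j := by positivity
      have hli0 : (0 : ℝ) ≤ l i := by positivity
      -- `l j ≤ l i`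
      have hl : (l j : ℝ) ≤ l i := by
        by_contra hcon
        push Not at hcon
        have q1 : (k j : ℝ) ^ 2 < (k i : ℝ) ^ 2 := by nlinarith
        have q2 : (l i : ℝ) ^ 2 ≤ (l j : ℝ) ^ 2 := by nlinarith
        have q3 : (t : ℝ) * (l i : ℝ) ^ 2 ≤ t * (l j : ℝ) ^ 2 := by gcongr
        have q4 : (σ : ℝ) * (k j : ℝ) ^ 2 < σ * (k i : ℝ) ^ 2 := by
          apply mul_lt_mul_of_pos_left q1 (by linarith)
        linarith
      -- integer `m = k i * l j - k j * l i`
      have hid : (t : ℝ) * ((k i : ℝ) * l j - k j * l i) * ((k i : ℝ) * l j + k j * l i) =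
          a * ((k i : ℝ) ^ 2 - (k j : ℝ) ^ 2) := by
        linear_combination (k i : ℝ) ^ 2 * hj1' - (k j : ℝ) ^ 2 * hi1'
      have hpos : (0 : ℝ) < a * ((k i : ℝ) ^ 2 - (k j : ℝ) ^ 2) := by
        apply mul_pos ha'; nlinarith
      have hm : (1 : ℝ) ≤ (k i : ℝ) * l j - k j * l i := by
        have h0 : (0 : ℝ) < (k i : ℝ) * l j - k j * l i := by
          by_contra hcon
          push Not at hcon
          have : (t : ℝ) * ((k i : ℝ) * l j - k j * l i) * ((k i : ℝ) * l j + k j * l i) ≤ 0 := by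
            apply mul_nonpos_of_nonpos_of_nonneg
            · apply mul_nonpos_of_nonneg_of_nonpos (by linarith) hcon
            · positivity
          linarith
        have h1 : (0 : ℤ) < (k i : ℤ) * l j - k j * l i := by exact_mod_cast h0
        have h2 : (1 : ℤ) ≤ (k i : ℤ) * l j - k j * l i := h1
        exact_mod_cast h2
      have hge : (t : ℝ) * (((k i : ℝ) + k j) * l j) ≤ a * ((k i : ℝ) ^ 2 - (k j : ℝ) ^ 2) := by
        rw [← hid]
        have e1 : ((k i : ℝ) + k j) * l j ≤ (k i : ℝ) * l j + k j * l i := by nlinarith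
        have e2 : (0 : ℝ) ≤ (k i : ℝ) * l j + k j * l i := by positivity
        calc (t : ℝ) * (((k i : ℝ) + k j) * l j) ≤ t * ((k i : ℝ) * l j + k j * l i) := by gcongr
          _ = t * 1 * ((k i : ℝ) * l j + k j * l i) := by ring
          _ ≤ (t : ℝ) * ((k i : ℝ) * l j - k j * l i) * ((k i : ℝ) * l j + k j * l i) := by
            gcongr
      have hsum : (0 : ℝ) < (k i : ℝ) + k j := by linarith
      have hge2 : (t : ℝ) * l j ≤ a * ((k i : ℝ) - k j) := by
        have : ((k i : ℝ) + k j) * (t * l j) ≤ ((k i : ℝ) + k j) * (a * ((k i : ℝ) - k j)) := by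
          nlinarith
        exact le_of_mul_le_mul_left this hsum
      have hsq2 : √(N / 2) ≤ t * l j := by
        apply Real.sqrt_le_iff.2
        refine ⟨by positivity, ?_⟩
        have h1 := hlo j hj
        push_cast at h1
        have h2 : N / 2 ≤ t * (l j : ℝ) ^ 2 := by linarith
        nlinarith [sq_nonneg (l j : ℝ)]
      rw [div_le_iff₀ ha']
      linarith
    intro i hi j hj hne
    rcases lt_trichotomy (k i) (k j) with h1 | h1 | h1
    · have := main j hj i hi h1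
      rw [abs_sub_comm]
      exact this.trans (le_abs_self _)
    · exact absurd h1 (hinj i hi j hj hne)
    · exact (main i hi j hj h1).trans (le_abs_self _)

end Pool.Agent.Helper94.Abc
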