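import Mathlib
import Pool.Agent.Helper94.Abc.Classes

set_option autoImplicit false

/-!
Cardinalities of the easy classes of a block.
-/

namespace Pool.Agent.Helper94.Abc

open Finset Real
open Pool.Agent.Helper26.RadSum (rad rad_pos one_le_rad rad_mul_of_coprime card_rad_le)

/-- The sum of reciprocals of radicals. -/
noncomputable def EN (M : ℕ) : ℝ := ∑ m ∈ Finset.Icc 1 M, 1 / (rad m : ℝ)

lemma EN_nonneg (M : ℕ) : 0 ≤ EN M := by unfold EN; positivity

lemma trivial_class (S : Finset ℕ) (M : ℕ) {T : ℝ} (hT : 0 ≤ T)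
    (h : ∀ n ∈ S, n ∈ Finset.Icc 1 M ∧ (rad n : ℝ) ≤ T) : (S.card : ℝ) ≤ T * EN M := by
  classical
  have h1 : S ⊆ (Finset.Icc 1 M).filter (fun n => (rad n : ℝ) ≤ T) := by
    intro n hn
    rw [Finset.mem_filter]
    exact h n hn
  have h2 : (S.card : ℝ) ≤ (((Finset.Icc 1 M).filter (fun n => (rad n : ℝ) ≤ T)).card : ℝ) := by
    exact_mod_cast Finset.card_le_card h1
  exact h2.trans (card_rad_le M hT)

lemma trivial_class' (S : Finset ℕ) (a M : ℕ) {T : ℝ} (hT : 0 ≤ T)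
    (h : ∀ n ∈ S, n + a ∈ Finset.Icc 1 M ∧ (rad (n + a) : ℝ) ≤ T) :
    (S.card : ℝ) ≤ T * EN M := by
  classical
  have h1 : (S.image (fun n => n + a)).card = S.card :=
    Finset.card_image_of_injective _ (fun x y hxy => by simpa using hxy)
  rw [← h1]
  apply trivial_class _ _ hT
  intro m hm
  rw [Finset.mem_image] at hm
  obtain ⟨n, hn, rfl⟩ := hm
  exact h n hn

lemma linear_class (S : Finset ℕ) (u v : ℕ → ℕ) (a N M : ℕ) {T : ℝ} (hT : 0 ≤ T)
    (hu : ∀ n ∈ S, u n ∈ Finset.Icc 1 M) (hv : ∀ n ∈ S, v n ∈ Finset.Icc 1 M)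
    (hco : ∀ n ∈ S, Nat.Coprime (u n) (v n))
    (hdvd : ∀ n ∈ S, u n ∣ n ∧ v n ∣ n + a ∧ n ≤ 2 * N)
    (h1 : ∀ n ∈ S, (rad (u n) : ℝ) * rad (v n) ≤ T)
    (h2 : ∀ n ∈ S, 2 * (N : ℝ) * ((rad (u n) : ℝ) * rad (v n)) ≤ T * ((u n : ℝ) * v n)) :
    (S.card : ℝ) ≤ (2 * T) * EN M ^ 2 := by
  classical
  refine class_bound S (fun n => (u n, v n)) M (by positivity) ?_ ?_
  · intro n hn
    rw [Finset.mem_product]
    exact ⟨hu n hn, hv n hn⟩
  · intro n hn
    have hu0 := (Finset.mem_Icc.1 (hu n hn)).1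
    have hv0 := (Finset.mem_Icc.1 (hv n hn)).1
    have hu0' : (0 : ℝ) < u n := by exact_mod_cast hu0
    have hv0' : (0 : ℝ) < v n := by exact_mod_cast hv0
    have hr1 : (0 : ℝ) < rad (u n) := by exact_mod_cast rad_pos _
    have hr2 : (0 : ℝ) < rad (v n) := by exact_mod_cast rad_pos _
    have := lin_fiber (S.filter (fun j => (u j, v j) = (u n, v n))) (u n) (v n) a (2 * N) hu0 hv0
      (hco n hn) (by
        intro j hj
        rw [Finset.mem_filter] at hj
        have e1 : u j = u n := by have := hj.2; simp at this; exact this.1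
        have e2 : v j = v n := by have := hj.2; simp at this; exact this.2
        have := hdvd j hj.1
        rw [e1, e2] at this
        exact this)
    refine this.trans ?_
    push_cast
    rw [le_div_iff₀ (by positivity)]
    have e1 := h1 n hn
    have e2 := h2 n hn
    have e3 : (2 * (N : ℝ)) / ((u n : ℝ) * v n) * ((rad (u n) : ℝ) * rad (v n)) ≤ T := by
      rw [div_mul_eq_mul_div, div_le_iff₀ (by positivity)]
      exact e2
    show (1 + 2 * (N : ℝ) / ((u n : ℝ) * v n)) * ((rad (u n) : ℝ) * rad (v n)) ≤ 2 * T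
    rw [add_mul]
    linarith

lemma pell_class (S : Finset ℕ) (a N M : ℕ) (ha : 0 < a) (hN : 0 < N) {T : ℝ} (hT : 0 ≤ T)
    (hblk : ∀ n ∈ S, N ≤ 2 * n ∧ n ≤ 2 * N ∧ 0 < n)
    (hu : ∀ n ∈ S, sk n ∈ Finset.Icc 1 M) (hv : ∀ n ∈ S, sk (n + a) ∈ Finset.Icc 1 M)
    (h1 : ∀ n ∈ S, (sk n : ℝ) * sk (n + a) ≤ T) :
    (S.card : ℝ) ≤ ((1 + 2 * a) * T) * EN M ^ 2 := by
  classical
  refine class_bound S (fun n => (sk n, sk (n + a))) M (by positivity) ?_ ?_
  · intro n hn
    rw [Finset.mem_product]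
    exact ⟨hu n hn, hv n hn⟩
  · intro n hn
    have hr1 : (0 : ℝ) < rad (sk n) := by exact_mod_cast rad_pos _
    have hr2 : (0 : ℝ) < rad (sk (n + a)) := by exact_mod_cast rad_pos _
    have hfil : ∀ j ∈ S.filter (fun j => (sk j, sk (j + a)) = (sk n, sk (n + a))),
        j ∈ S ∧ sk j = sk n ∧ sk (j + a) = sk (n + a) := by
      intro j hj
      rw [Finset.mem_filter] at hj
      have := hj.2
      simp at this
      exact ⟨hj.1, this.1, this.2⟩
    have := pell_fiber (S.filter (fun j => (sk j, sk (j + a)) = (sk n, sk (n + a))))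
      (fun j => qk j) (fun j => qk (j + a)) (sk n) (sk (n + a)) a (N := (N : ℝ))
      (by exact_mod_cast hN) ha sk_pos sk_pos ?_ ?_ ?_ ?_
    · refine this.trans ?_
      rw [le_div_iff₀ (by positivity)]
      show (1 + 2 * (a : ℝ)) * ((rad (sk n) : ℝ) * rad (sk (n + a))) ≤ (1 + 2 * a) * T
      rw [rad_sk, rad_sk]
      apply mul_le_mul_of_nonneg_left (h1 n hn) (by positivity)
    · intro i hi j hj hij h0
      obtain ⟨hi1, hi2, hi3⟩ := hfil i hi
      obtain ⟨hj1, hj2, hj3⟩ := hfil j hj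
      apply hij
      have e1 := sk_qk (m := i) (by have := (hblk i hi1).2.2; omega)
      have e2 := sk_qk (m := j) (by have := (hblk j hj1).2.2; omega)
      rw [e1, e2, hi2, hj2, h0]
    · intro i hi
      obtain ⟨hi1, hi2, hi3⟩ := hfil i hi
      have e1 := sk_qk (m := i) (by have := (hblk i hi1).2.2; omega)
      have e2 := sk_qk (m := i + a) (by omega)
      rw [hi2] at e1
      rw [hi3] at e2
      rw [← e1, ← e2]
    · intro i hi
      obtain ⟨hi1, hi2, hi3⟩ := hfil i hi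
      have e1 := sk_qk (m := i) (by have := (hblk i hi1).2.2; omega)
      rw [hi2] at e1
      rw [← e1]
      have := (hblk i hi1).1
      have h2 : (N : ℝ) ≤ 2 * i := by exact_mod_cast this
      linarith
    · intro i hi
      obtain ⟨hi1, hi2, hi3⟩ := hfil i hi
      have e1 := sk_qk (m := i) (by have := (hblk i hi1).2.2; omega)
      rw [hi2] at e1
      rw [← e1]
      exact_mod_cast (hblk i hi1).2.1

lemma quad_class (S : Finset ℕ) (u v l : ℕ → ℕ) (c : ℤ) (N M : ℕ) (hN : 0 < N)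
    {T dmax : ℝ} (hT : 0 ≤ T) (hdmax : 0 ≤ dmax)
    (hu : ∀ n ∈ S, u n ∈ Finset.Icc 1 M) (hv : ∀ n ∈ S, v n ∈ Finset.Icc 1 M)
    (huv : ∀ n ∈ S, IsCoprime (u n : ℤ) (v n : ℤ)) (huc : ∀ n ∈ S, IsCoprime (u n : ℤ) c)
    (hdvd : ∀ n ∈ S, (u n : ℤ) ∣ (v n : ℤ) * (l n : ℤ) ^ 2 - c)
    (hlo : ∀ n ∈ S, N ≤ 2 * (v n * l n ^ 2)) (hhi : ∀ n ∈ S, v n * l n ^ 2 ≤ 2 * N)
    (hinj : ∀ n ∈ S, ∀ m ∈ S, v n = v m → l n = l m → n = m)
    (h1 : ∀ n ∈ S, (rad (u n) : ℝ) * rad (v n) ≤ T)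
    (h2 : ∀ n ∈ S, ((rad (u n) : ℝ) * rad (v n)) * l n ≤ T * u n)
    (hdiv : ∀ n ∈ S, ((u n).divisors.card : ℝ) ≤ dmax) :
    (S.card : ℝ) ≤ (5 * dmax * T) * EN M ^ 2 := by
  classical
  refine class_bound S (fun n => (u n, v n)) M (by positivity) ?_ ?_
  · intro n hn
    rw [Finset.mem_product]
    exact ⟨hu n hn, hv n hn⟩
  · intro n hn
    have hu0 := (Finset.mem_Icc.1 (hu n hn)).1
    have hv0 := (Finset.mem_Icc.1 (hv n hn)).1
    have hu0' : (0 : ℝ) < u n := by exact_mod_cast hu0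
    have hv0' : (0 : ℝ) < v n := by exact_mod_cast hv0
    have hr1 : (0 : ℝ) < rad (u n) := by exact_mod_cast rad_pos _
    have hr2 : (0 : ℝ) < rad (v n) := by exact_mod_cast rad_pos _
    set F := S.filter (fun j => (u j, v j) = (u n, v n)) with hF
    have hfil : ∀ j ∈ F, j ∈ S ∧ u j = u n ∧ v j = v n := by
      intro j hj
      rw [hF, Finset.mem_filter] at hj
      have := hj.2
      simp at this
      exact ⟨hj.1, this.1, this.2⟩
    have hcard : (F.image l).card = F.card := by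
      apply Finset.card_image_of_injOn
      intro i hi j hj hij
      obtain ⟨hi1, hi2, hi3⟩ := hfil i hi
      obtain ⟨hj1, hj2, hj3⟩ := hfil j hj
      exact hinj i hi1 j hj1 (by rw [hi3, hj3]) hij
    have := quad_fiber (F.image l) (u n) (v n) c (Lm := 2 * (l n : ℝ)) (by positivity) hu0
      (huv n hn) (huc n hn) (by
        intro k hk
        rw [Finset.mem_image] at hk
        obtain ⟨j, hj, rfl⟩ := hk
        obtain ⟨hj1, hj2, hj3⟩ := hfil j hj
        constructor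
        · have := hdvd j hj1
          rwa [hj2, hj3] at this
        · -- l j ≤ 2 l n
          have e1 := hhi j hj1
          have e2 := hlo n hn
          rw [hj3] at e1
          have e3 : v n * l j ^ 2 ≤ v n * (2 * l n) ^ 2 := by
            calc v n * l j ^ 2 ≤ 2 * N := e1
              _ ≤ 2 * (2 * (v n * l n ^ 2)) := by omega
              _ = v n * (2 * l n) ^ 2 := by ring
          have e4 : l j ^ 2 ≤ (2 * l n) ^ 2 := Nat.le_of_mul_le_mul_left e3 hv0
          have e5 : l j ≤ 2 * l n := (Nat.pow_le_pow_iff_left (by norm_num)).1 e4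
          exact_mod_cast e5)
    rw [hcard] at this
    refine this.trans ?_
    rw [le_div_iff₀ (by positivity)]
    show ((u n).divisors.card : ℝ) * (1 + 2 * (2 * (l n : ℝ)) / u n) *
      ((rad (u n) : ℝ) * rad (v n)) ≤ 5 * dmax * T
    have e1 := h1 n hn
    have e2 := h2 n hn
    have e3 : (l n : ℝ) / u n * ((rad (u n) : ℝ) * rad (v n)) ≤ T := by
      rw [div_mul_eq_mul_div, div_le_iff₀ hu0']
      linarith
    have e4 : (1 + 2 * (2 * (l n : ℝ)) / u n) * ((rad (u n) : ℝ) * rad (v n)) ≤ 5 * T := by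
      have : (1 + 2 * (2 * (l n : ℝ)) / u n) * ((rad (u n) : ℝ) * rad (v n)) =
        ((rad (u n) : ℝ) * rad (v n)) + 4 * ((l n : ℝ) / u n * ((rad (u n) : ℝ) * rad (v n))) := by
        ring
      rw [this]; linarith
    have e5 : 0 ≤ (1 + 2 * (2 * (l n : ℝ)) / u n) * ((rad (u n) : ℝ) * rad (v n)) := by
      positivity
    calc ((u n).divisors.card : ℝ) * (1 + 2 * (2 * (l n : ℝ)) / u n) *
        ((rad (u n) : ℝ) * rad (v n))
        = ((u n).divisors.card : ℝ) * ((1 + 2 * (2 * (l n : ℝ)) / u n) *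
          ((rad (u n) : ℝ) * rad (v n))) := by ring
      _ ≤ dmax * (5 * T) := mul_le_mul (hdiv n hn) e4 e5 hdmax
      _ = _ := by ring

end Pool.Agent.Helper94.Abc
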