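import Mathlib
import Pool.Agent.Helper94.Abc.Decomp
import Pool.Agent.Helper94.Abc.Classes2

set_option autoImplicit false

/-!
Facts valid for large `N`.
-/

namespace Pool.Agent.Helper94.Abc

open Finset Real
open Pool.Agent.Helper26.RadSum (rad rad_pos one_le_rad rad_mul_of_coprime)

lemma log_tendsto : Filter.Tendsto (fun N : ℕ => log (N : ℝ)) Filter.atTop Filter.atTop :=
  Real.tendsto_log_atTop.comp tendsto_natCast_atTop_atTop

lemma ev_big : ∀ᶠ N : ℕ in Filter.atTop,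
    10 ^ 12 * (log (N : ℝ) + 10) ^ 4 ≤ Real.exp (0.00001 * log (N : ℝ)) := by
  have h1 : (fun x : ℝ => x ^ 4) =o[Filter.atTop] fun x => Real.exp (0.00001 * x) :=
    isLittleO_pow_exp_pos_mul_atTop (k := 4) (b := 0.00001) (by norm_num)
  have h2 := h1.bound (c := 1 / (16 * 10 ^ 12)) (by norm_num)
  have h3 : ∀ᶠ x : ℝ in Filter.atTop, 10 ^ 12 * (x + 10) ^ 4 ≤ Real.exp (0.00001 * x) := by
    filter_upwards [h2, Filter.eventually_ge_atTop (10 : ℝ)] with x hx hx10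
    rw [Real.norm_of_nonneg (by positivity), Real.norm_of_nonneg (by positivity)] at hx
    have h4 : (x + 10) ^ 4 ≤ (2 * x) ^ 4 := by gcongr; linarith
    have h5 : (2 * x) ^ 4 = 16 * x ^ 4 := by ring
    rw [h5] at h4
    have h6 : 16 * 10 ^ 12 * x ^ 4 ≤ Real.exp (0.00001 * x) := by
      have : x ^ 4 ≤ 1 / (16 * 10 ^ 12) * Real.exp (0.00001 * x) := hx
      calc 16 * 10 ^ 12 * x ^ 4 ≤ 16 * 10 ^ 12 * (1 / (16 * 10 ^ 12) * Real.exp (0.00001 * x)) := by
            gcongr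
        _ = _ := by ring
    linarith
  exact log_tendsto.eventually h3

lemma ev_EN : ∀ᶠ N : ℕ in Filter.atTop, EN (4 * N) ≤ Real.exp (0.00001 * log (N : ℝ)) := by
  filter_upwards [sum_inv_rad_eventually (ε := 0.00001) (by norm_num),
    Filter.eventually_ge_atTop 1] with N h1 h2
  have hN : (0 : ℝ) < N := by exact_mod_cast h2
  unfold EN
  rw [Real.rpow_def_of_pos hN] at h1
  rw [mul_comm (0.00001 : ℝ)]
  exact h1

lemma ev_div : ∀ᶠ N : ℕ in Filter.atTop, ∀ D : ℕ, D ≠ 0 → (D : ℝ) ≤ 72 * (2 * (N : ℝ)) ^ 12 →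
    (D.divisors.card : ℝ) ≤ Real.exp (0.00001 * log (N : ℝ)) := by
  obtain ⟨C, hC1, hC⟩ := divisor_bound (ε := 0.0000005) (by norm_num)
  have h1 : ∀ᶠ N : ℕ in Filter.atTop, log C / 0.0000035 ≤ log (N : ℝ) :=
    log_tendsto.eventually_ge_atTop _
  filter_upwards [h1, Filter.eventually_ge_atTop (72 * 2 ^ 12)] with N h1 h2 D hD hDN
  have hN' : (72 * 2 ^ 12 : ℝ) ≤ N := by exact_mod_cast h2
  have hN : (0 : ℝ) < N := by linarith
  have hDpos : (0 : ℝ) < D := by exact_mod_cast Nat.pos_of_ne_zero hD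
  have h3 : (D : ℝ) ≤ (N : ℝ) ^ (13 : ℕ) := by
    calc (D : ℝ) ≤ 72 * (2 * (N : ℝ)) ^ 12 := hDN
      _ = (72 * 2 ^ 12) * (N : ℝ) ^ 12 := by ring
      _ ≤ N * (N : ℝ) ^ 12 := by gcongr
      _ = (N : ℝ) ^ (13 : ℕ) := by ring
  have h4 : log (D : ℝ) ≤ 13 * log (N : ℝ) := by
    have := Real.log_le_log hDpos h3
    rwa [Real.log_pow] at this
  refine (hC D hD).trans ?_
  rw [Real.rpow_def_of_pos hDpos]
  have hCpos : 0 < C := by linarith
  have h5 : C = Real.exp (log C) := (Real.exp_log hCpos).symm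
  rw [h5, ← Real.exp_add]
  apply Real.exp_le_exp.2
  rw [div_le_iff₀ (by norm_num)] at h1
  have h6 : log C ≤ 0.0000035 * log (N : ℝ) := by
    rw [mul_comm]; convert h1 using 1
  nlinarith

lemma ev_L : ∀ᶠ N : ℕ in Filter.atTop, (10 : ℝ) ^ 7 ≤ log (N : ℝ) :=
  log_tendsto.eventually_ge_atTop _

/-- Logarithmic data of an integer. -/
lemma log_data {m : ℕ} (hm : m ≠ 0) :
    0 ≤ log (e1 m : ℝ) ∧ 0 ≤ log (e2 m : ℝ) ∧ 0 ≤ log (e3 m : ℝ) ∧ 0 ≤ log (r4 m : ℝ) ∧
    4 * log (r4 m : ℝ) ≤ log (e4 m : ℝ) ∧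
    log (m : ℝ) = log (e1 m : ℝ) + 2 * log (e2 m : ℝ) + 3 * log (e3 m : ℝ) + log (e4 m : ℝ) ∧
    log (rad m : ℝ) = log (e1 m : ℝ) + log (e2 m : ℝ) + log (e3 m : ℝ) + log (r4 m : ℝ) ∧
    log (sk m : ℝ) ≤ log (e1 m : ℝ) + log (e3 m : ℝ) + log (r4 m : ℝ) := by
  have c1 : (0 : ℝ) < e1 m := by exact_mod_cast e1_pos
  have c2 : (0 : ℝ) < e2 m := by exact_mod_cast e2_pos
  have c3 : (0 : ℝ) < e3 m := by exact_mod_cast e3_pos
  have c4 : (0 : ℝ) < e4 m := by exact_mod_cast e4_pos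
  have c5 : (0 : ℝ) < r4 m := by exact_mod_cast r4_pos
  have c6 : (0 : ℝ) < sk m := by exact_mod_cast sk_pos
  refine ⟨Real.log_natCast_nonneg _, Real.log_natCast_nonneg _, Real.log_natCast_nonneg _,
    Real.log_natCast_nonneg _, ?_, ?_, ?_, ?_⟩
  · have h1 : ((r4 m : ℝ)) ^ 4 ≤ e4 m := by exact_mod_cast r4_pow_le
    have h2 := Real.log_le_log (by positivity) h1
    rw [Real.log_pow] at h2
    push_cast at h2
    linarith
  · have h1 := decomp hm
    have h2 : (m : ℝ) = e1 m * (e2 m : ℝ) ^ 2 * (e3 m : ℝ) ^ 3 * e4 m := by exact_mod_cast h1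
    conv_lhs => rw [h2]
    rw [Real.log_mul (by positivity) (by positivity), Real.log_mul (by positivity) (by positivity),
      Real.log_mul (by positivity) (by positivity), Real.log_pow, Real.log_pow]
    push_cast
    ring
  · have h2 : (rad m : ℝ) = e1 m * (e2 m : ℝ) * (e3 m : ℝ) * r4 m := by exact_mod_cast rad_eq
    rw [h2]
    rw [Real.log_mul (by positivity) (by positivity), Real.log_mul (by positivity) (by positivity),
      Real.log_mul (by positivity) (by positivity)]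
  · have h1 : (sk m : ℝ) ≤ e1 m * e3 m * r4 m := by exact_mod_cast sk_le
    have h2 := Real.log_le_log c6 h1
    rwa [Real.log_mul (by positivity) (by positivity), Real.log_mul (by positivity)
      (by positivity)] at h2

end Pool.Agent.Helper94.Abc
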