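import Mathlib
import Pool.Agent.Helper94.Abc.Basic
import Pool.Agent.Helper94.Abc.Det2
import Pool.Agent.Helper94.Abc.Cluster
import Pool.Agent.Helper51.PowSave

set_option autoImplicit false

/-!
The critical case: solutions of `B y w^3 - A x z^3 = a` with `x, y, z, w` of comparable size.
-/

namespace Pool.Agent.Helper94.Abc

open Finset Real

/-- Number of points of one cluster none of which lies on a small matrix. -/
theorem cluster_count (C : Finset ℕ) (x y z w : ℕ → ℤ) (A B a V : ℤ) {N Q d Y Λ R dmax : ℝ}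
    (H G : ℕ) (hG : 1 ≤ G) (hA : 0 < A) (hB : 0 < B) (ha : 0 < a) (hN : 0 < N) (hR : 0 < R)
    (hd1 : d ≤ 1) (hd0 : 0 < d) (hdmax : 0 ≤ dmax) (hY : 0 < Y)
    (hx : ∀ i ∈ C, 0 < x i ∧ x i ≤ V) (hy : ∀ i ∈ C, 0 < y i ∧ y i ≤ V)
    (hz : ∀ i ∈ C, 0 < z i ∧ z i ≤ V) (hw : ∀ i ∈ C, 0 < w i ∧ w i ≤ V)
    (heq : ∀ i ∈ C, B * y i * w i ^ 3 = A * x i * z i ^ 3 + a)
    (hxy : ∀ i ∈ C, IsCoprime (x i) (y i)) (hzw : ∀ i ∈ C, IsCoprime (z i) (w i))
    (hzw_ne : ∀ i ∈ C, ∀ j ∈ C, i ≠ j → z i * w j ≠ z j * w i)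
    (hlo : ∀ i ∈ C, N / 2 ≤ (A : ℝ) * x i * (z i : ℝ) ^ 3)
    (hQ : ∀ i ∈ C, (x i : ℝ) * y i * z i * w i ≤ Q)
    (hYb : ∀ i ∈ C, (z i : ℝ) * w i ≤ Y)
    (hR1 : ∀ i ∈ C, R ≤ (z i : ℝ) / w i) (hR2 : ∀ i ∈ C, (z i : ℝ) / w i ≤ R * (1 + d))
    (hww : ∀ i ∈ C, ∀ j ∈ C, w i ≤ 2 * w j)
    (hΛ : ∀ i ∈ C, (x i : ℝ) ≤ Λ * z i ∧ (x i : ℝ) ≤ Λ * w i ∧ (y i : ℝ) ≤ Λ * z i ∧
      (y i : ℝ) ≤ Λ * w i ∧ (w i : ℝ) ≤ Λ * A * z i ∧ (w i : ℝ) ^ 2 ≤ Λ * A * (z i : ℝ) ^ 2 ∧
      (z i : ℝ) ≤ Λ * B * w i ∧ (z i : ℝ) ^ 2 ≤ Λ * B * (w i : ℝ) ^ 2)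
    (hyw : ∀ i ∈ C, 64 * a * z i < y i * w i ^ 2)
    (hsmall : Q ^ 2 * (24 * d ^ 6 + 144 * (16 * a / N) * d ^ 3 +
      6 * (16 * a / N) ^ 2 * d ^ 2) < 1)
    (hdiv : ∀ D : ℤ, D ≠ 0 → |D| ≤ 72 * V ^ 12 → (D.natAbs.divisors.card : ℝ) ≤ dmax)
    (hH : 200 * (G : ℝ) * (1 + a) * Λ ≤ H)
    (hgood : ∀ i ∈ C, ¬ ∃ p q r s g : ℤ, |p| ≤ H ∧ |q| ≤ H ∧ |r| ≤ H ∧ |s| ≤ H ∧ |g| ≤ G ∧
      g ≠ 0 ∧ p * s - q * r ≠ 0 ∧ p * z i + q * w i = g * x i ∧ r * z i + s * w i = g * y i) :
    (C.card : ℝ) ≤ 2 + dmax * (1 + 2 * d * Y / G) := by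
  classical
  have hG' : (1 : ℝ) ≤ G := by exact_mod_cast hG
  by_cases hcard : C.card < 3
  · have h1 : (C.card : ℝ) ≤ 2 := by exact_mod_cast (show C.card ≤ 2 by omega)
    have : 0 ≤ dmax * (1 + 2 * d * Y / G) := by positivity
    linarith
  push Not at hcard
  -- comparability
  have hρρ : ∀ i ∈ C, ∀ j ∈ C, (z i : ℝ) * w j ≤ 2 * ((z j : ℝ) * w i) := by
    intro i hi j hj
    have hwi : (0 : ℝ) < w i := by exact_mod_cast (hw i hi).1
    have hwj : (0 : ℝ) < w j := by exact_mod_cast (hw j hj).1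
    have h1 := hR2 i hi
    have h2 := hR1 j hj
    have h3 : (z i : ℝ) / w i ≤ 2 * ((z j : ℝ) / w j) := by
      have : R * (1 + d) ≤ R * 2 := by gcongr; linarith
      linarith
    rw [div_le_iff₀ hwi] at h3
    have h4 : 2 * ((z j : ℝ) / w j) * w i = 2 * (z j * w i) / w j := by ring
    rw [h4, le_div_iff₀ hwj] at h3
    linarith
  have hzz : ∀ i ∈ C, ∀ j ∈ C, (z i : ℝ) ≤ 4 * z j := by
    intro i hi j hj
    have hwi : (0 : ℝ) < w i := by exact_mod_cast (hw i hi).1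
    have hwj : (0 : ℝ) < w j := by exact_mod_cast (hw j hj).1
    have hzj : (0 : ℝ) < z j := by exact_mod_cast (hz j hj).1
    have h1 := hρρ i hi j hj
    have h2 : (w i : ℝ) ≤ 2 * w j := by exact_mod_cast hww i hi j hj
    have h3 : (z i : ℝ) * w j ≤ (4 * z j) * w j := by nlinarith
    exact le_of_mul_le_mul_right h3 hwj
  -- the values y / x are distinct
  have hxy_ne : ∀ i ∈ C, ∀ j ∈ C, i ≠ j → x i * y j ≠ x j * y i := by
    have main : ∀ i ∈ C, ∀ j ∈ C, x i = x j → y i = y j → z i * w j < z j * w i → False := by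
      intro i hi j hj hxx hyy hlt
      have hwi := (hw i hi).1
      have hwj := (hw j hj).1
      have hzi := (hz i hi).1
      have hzj := (hz j hj).1
      have hyi := (hy i hi).1
      have h1 := heq i hi
      have h2 := heq j hj
      rw [← hxx, ← hyy] at h2
      set u := z j * w i with hu
      set v := z i * w j with hv
      have hv0 : 0 < v := by positivity
      have h3 : B * y i * (u ^ 3 - v ^ 3) = a * (z j ^ 3 - z i ^ 3) := by
        rw [hu, hv]; linear_combination z j ^ 3 * h1 - z i ^ 3 * h2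
      have h4 : u ^ 2 ≤ u ^ 3 - v ^ 3 := by
        have e : u ^ 3 - v ^ 3 = (u - v) * (u ^ 2 + u * v + v ^ 2) := by ring
        rw [e]
        have : 1 ≤ u - v := by omega
        nlinarith [mul_pos (lt_trans hv0 hlt) hv0, sq_nonneg v]
      have h5 : y i * u ^ 2 ≤ B * y i * (u ^ 3 - v ^ 3) := by
        have h6 : 0 ≤ u ^ 3 - v ^ 3 := le_trans (sq_nonneg _) h4
        calc y i * u ^ 2 ≤ y i * (u ^ 3 - v ^ 3) := by gcongr
          _ = 1 * (y i * (u ^ 3 - v ^ 3)) := by ring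
          _ ≤ B * (y i * (u ^ 3 - v ^ 3)) := by
            apply mul_le_mul_of_nonneg_right hB (by positivity)
          _ = _ := by ring
      have h6 : a * (z j ^ 3 - z i ^ 3) ≤ a * z j ^ 3 := by
        have : 0 < z i ^ 3 := by positivity
        nlinarith
      have h7 : y i * (z j * w i) ^ 2 ≤ a * z j ^ 3 := by linarith
      have h8 : y i * w i ^ 2 ≤ a * z j := by
        have : (z j) ^ 2 * (y i * w i ^ 2) ≤ z j ^ 2 * (a * z j) := by nlinarith
        exact le_of_mul_le_mul_left this (by positivity)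
      have h9 := hyw i hi
      have h10 : z j ≤ 4 * z i := by
        have := hzz j hj i hi
        exact_mod_cast this
      nlinarith
    intro i hi j hj hij h0
    -- equal coprime ratios
    have hxi := (hx i hi).1
    have hxj := (hx j hj).1
    have hyi := (hy i hi).1
    have hyj := (hy j hj).1
    have d1 : x i ∣ x j := by
      have : x i ∣ x j * y i := ⟨y j, h0.symm⟩
      exact (hxy i hi).dvd_of_dvd_mul_right this
    have d2 : x j ∣ x i := by
      have : x j ∣ x i * y j := ⟨y i, h0⟩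
      exact (hxy j hj).dvd_of_dvd_mul_right this
    have hxx : x i = x j :=
      le_antisymm (Int.le_of_dvd hxj d1) (Int.le_of_dvd hxi d2)
    have hyy : y i = y j := by
      rw [hxx] at h0
      exact (mul_left_cancel₀ hxj.ne' h0).symm
    rcases lt_trichotomy (z i * w j) (z j * w i) with h | h | h
    · exact main i hi j hj hxx hyy h
    · exact hzw_ne i hi j hj hij h
    · exact main j hj i hi hxx.symm hyy.symm h
  -- determinants vanish
  have hDD : ∀ i ∈ C, ∀ j ∈ C, ∀ k ∈ C, ∀ l ∈ C,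
      DD (x i) (y i) (z i) (w i) (x j) (y j) (z j) (w j) (x k) (y k) (z k) (w k)
        (x l) (y l) (z l) (w l) = 0 := by
    intro i hi j hj k hk l hl
    exact DD_eq_zero (hx i hi).1 (hy i hi).1 (hz i hi).1 (hw i hi).1
      (hx j hj).1 (hy j hj).1 (hz j hj).1 (hw j hj).1
      (hx k hk).1 (hy k hk).1 (hz k hk).1 (hw k hk).1
      (hx l hl).1 (hy l hl).1 (hz l hl).1 (hw l hl).1 hA hB ha.le hN hR hd1 hd0.le
      (heq i hi) (heq j hj) (heq k hk) (heq l hl) (hlo i hi) (hlo j hj) (hlo k hk) (hlo l hl)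
      (hR1 i hi) (hR1 j hj) (hR1 k hk) (hR1 l hl) (hR2 i hi) (hR2 j hj) (hR2 k hk) (hR2 l hl)
      (hQ i hi) (hQ j hj) (hQ k hk) (hQ l hl) hsmall
  obtain ⟨p, q, r, s, g, hg, hD, hgD, hprim, hDV⟩ :=
    cluster_matrix C x y z w V hx hy hz hw hxy hzw hzw_ne hxy_ne hDD hcard
  have hsplit : C.card = (C.filter (fun n => |g n| ≤ G)).card +
      (C.filter (fun n => ¬ |g n| ≤ G)).card := (Finset.card_filter_add_card_filter_not _).symm
  -- few points with small g
  have hsmallg : (C.filter (fun n => |g n| ≤ G)).card ≤ 2 := by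
    by_contra hcon
    push Not at hcon
    obtain ⟨T, hTC, hT3⟩ := Finset.exists_subset_card_eq (show 3 ≤ _ from hcon)
    obtain ⟨i, j, k, hij, hik, hjk, rfl⟩ := Finset.card_eq_three.1 hT3
    have hi' := Finset.mem_filter.1 (hTC (show i ∈ ({i, j, k} : Finset ℕ) by simp))
    have hj' := Finset.mem_filter.1 (hTC (show j ∈ ({i, j, k} : Finset ℕ) by simp))
    have hk' := Finset.mem_filter.1 (hTC (show k ∈ ({i, j, k} : Finset ℕ) by simp))
    obtain ⟨hi, hgi⟩ := hi'
    obtain ⟨hj, hgj⟩ := hj'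
    obtain ⟨hk, hgk⟩ := hk'
    have cx : ∀ n ∈ C, (0 : ℝ) < x n := fun n hn => by exact_mod_cast (hx n hn).1
    have cy : ∀ n ∈ C, (0 : ℝ) < y n := fun n hn => by exact_mod_cast (hy n hn).1
    have cz : ∀ n ∈ C, (0 : ℝ) < z n := fun n hn => by exact_mod_cast (hz n hn).1
    have cw : ∀ n ∈ C, (0 : ℝ) < w n := fun n hn => by exact_mod_cast (hw n hn).1
    have cA : (1 : ℝ) ≤ A := by exact_mod_cast hA
    have cB : (1 : ℝ) ≤ B := by exact_mod_cast hB
    have ceq : ∀ n ∈ C, (B : ℝ) * y n * (w n : ℝ) ^ 3 = A * x n * (z n : ℝ) ^ 3 + a :=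
      fun n hn => by exact_mod_cast heq n hn
    have ceq' : ∀ n ∈ C, (A : ℝ) * x n * (z n : ℝ) ^ 3 = B * y n * (w n : ℝ) ^ 3 + (-a) :=
      fun n hn => by have := ceq n hn; linarith
    have cp : ∀ n ∈ C, (p : ℝ) * z n + q * w n = g n * x n :=
      fun n hn => by exact_mod_cast (hg n hn).1
    have cr : ∀ n ∈ C, (r : ℝ) * z n + s * w n = g n * y n :=
      fun n hn => by exact_mod_cast (hg n hn).2
    have cp' : ∀ n ∈ C, (q : ℝ) * w n + p * z n = g n * x n :=
      fun n hn => by have := cp n hn; linarith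
    have cr' : ∀ n ∈ C, (s : ℝ) * w n + r * z n = g n * y n :=
      fun n hn => by have := cr n hn; linarith
    have cg : ∀ n ∈ C, |g n| ≤ G → |(g n : ℝ)| ≤ G := by
      intro n _ h
      have : ((|g n| : ℤ) : ℝ) ≤ ((G : ℤ) : ℝ) := by exact_mod_cast h
      push_cast at this; exact this
    have cd : ∀ m ∈ C, ∀ n ∈ C, m ≠ n → (1 : ℝ) ≤ |(z m : ℝ) * w n - z n * w m| := by
      intro m hm n hn hmn
      have h1 : z m * w n - z n * w m ≠ 0 := sub_ne_zero.2 (hzw_ne m hm n hn hmn)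
      have h2 : (1 : ℤ) ≤ |z m * w n - z n * w m| := Int.one_le_abs h1
      exact_mod_cast h2
    have cd' : ∀ m ∈ C, ∀ n ∈ C, m ≠ n → (1 : ℝ) ≤ |(w m : ℝ) * z n - w n * z m| := by
      intro m hm n hn hmn
      have h1 := cd m hm n hn hmn
      rw [abs_sub_comm] at h1
      convert h1 using 2
      ring
    have cww : ∀ m ∈ C, ∀ n ∈ C, (w m : ℝ) ≤ 4 * w n := by
      intro m hm n hn
      have h1 : (w m : ℝ) ≤ 2 * w n := by exact_mod_cast hww m hm n hn
      have := cw n hn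
      linarith
    have cρ' : ∀ i ∈ C, ∀ j ∈ C, (w i : ℝ) * z j ≤ 2 * ((w j : ℝ) * z i) := by
      intro i hi j hj
      have := hρρ j hj i hi
      linarith
    have S1 := matrix_bound_row (Λ := Λ) (cx i hi) (cy i hi) (cz i hi) (cw i hi)
      (cx j hj) (cy j hj) (cz j hj) (cw j hj) (cx k hk) (cy k hk) (cz k hk) (cw k hk) cA cB
      (ceq i hi) (ceq j hj) (ceq k hk) (cp i hi) (cp j hj) (cp k hk) (cr i hi) (cr j hj)
      (cr k hk) (cg i hi hgi) (cg j hj hgj) (cg k hk hgk) (cd i hi j hj hij) (cd i hi k hk hik)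
      (cd j hj k hk hjk)
      ⟨cww i hi j hj, cww j hj i hi, cww i hi k hk, cww k hk i hi, cww j hj k hk, cww k hk j hj⟩
      ⟨hzz i hi j hj, hzz j hj i hi, hzz i hi k hk, hzz k hk i hi, hzz j hj k hk, hzz k hk j hj⟩
      ⟨hρρ i hi j hj, hρρ j hj i hi, hρρ i hi k hk, hρρ k hk i hi, hρρ j hj k hk,
        hρρ k hk j hj⟩
      (hΛ k hk).1 (hΛ k hk).2.1 (hΛ i hi).2.2.2.2.1 (hΛ i hi).2.2.2.2.2.1
    have S2 := matrix_bound_row (Λ := Λ) (cy i hi) (cx i hi) (cw i hi) (cz i hi)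
      (cy j hj) (cx j hj) (cw j hj) (cz j hj) (cy k hk) (cx k hk) (cw k hk) (cz k hk) cB cA
      (ceq' i hi) (ceq' j hj) (ceq' k hk) (cr' i hi) (cr' j hj) (cr' k hk) (cp' i hi) (cp' j hj)
      (cp' k hk) (cg i hi hgi) (cg j hj hgj) (cg k hk hgk) (cd' i hi j hj hij)
      (cd' i hi k hk hik) (cd' j hj k hk hjk)
      ⟨hzz i hi j hj, hzz j hj i hi, hzz i hi k hk, hzz k hk i hi, hzz j hj k hk, hzz k hk j hj⟩
      ⟨cww i hi j hj, cww j hj i hi, cww i hi k hk, cww k hk i hi, cww j hj k hk, cww k hk j hj⟩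
      ⟨cρ' i hi j hj, cρ' j hj i hi, cρ' i hi k hk, cρ' k hk i hi, cρ' j hj k hk,
        cρ' k hk j hj⟩
      (hΛ k hk).2.2.2.1 (hΛ k hk).2.2.1 (hΛ i hi).2.2.2.2.2.2.1 (hΛ i hi).2.2.2.2.2.2.2
    have ca : |(a : ℝ)| = a := abs_of_pos (by exact_mod_cast ha)
    rw [abs_neg] at S2
    rw [ca] at S1 S2
    have toInt : ∀ t : ℤ, |(t : ℝ)| ≤ 200 * G * (1 + a) * Λ → |t| ≤ (H : ℤ) := by
      intro t ht
      have h1 : |(t : ℝ)| ≤ H := ht.trans hH
      have h2 : ((|t| : ℤ) : ℝ) ≤ ((H : ℤ) : ℝ) := by push_cast; exact h1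
      exact_mod_cast h2
    exact hgood i hi ⟨p, q, r, s, g i, toInt p S1.1, toInt q S1.2, toInt r S2.2, toInt s S2.1,
      hgi, (hgD i hi).1, hD, (hg i hi).1, (hg i hi).2⟩
  -- points with large g
  have hlargeg : ((C.filter (fun n => ¬ |g n| ≤ G)).card : ℝ) ≤ dmax * (1 + 2 * d * Y / G) := by
    set C2 := C.filter (fun n => ¬ |g n| ≤ G) with hC2
    have hfib : (C2.card : ℝ) = ∑ b ∈ (p * s - q * r).natAbs.divisors,
        ((C2.filter (fun n => (g n).natAbs = b)).card : ℝ) := by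
      have := Finset.card_eq_sum_card_fiberwise (s := C2) (t := (p * s - q * r).natAbs.divisors)
        (f := fun n => (g n).natAbs) (by
          intro n hn
          have hnC : n ∈ C := (Finset.mem_filter.1 hn).1
          simp only [Finset.mem_coe, Nat.mem_divisors]
          refine ⟨Int.natAbs_dvd_natAbs.2 (hgD n hnC).2, ?_⟩
          exact Int.natAbs_ne_zero.2 hD)
      rw [this]; push_cast; rfl
    have hbd : ∀ b ∈ (p * s - q * r).natAbs.divisors,
        ((C2.filter (fun n => (g n).natAbs = b)).card : ℝ) ≤ 1 + 2 * d * Y / G := by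
      intro b _
      have := gap_card (C2.filter (fun n => (g n).natAbs = b))
        (fun n : ℕ => (z n : ℝ) / (w n * R)) (u := 1) (v := 1 + d) (G := (G : ℝ) / (2 * Y))
        (by positivity) (by linarith) ?_ ?_
      · refine this.trans (le_of_eq ?_)
        field_simp
        ring
      · intro n hn
        have hnC : n ∈ C := (Finset.mem_filter.1 (Finset.mem_filter.1 hn).1).1
        have cw : (0 : ℝ) < w n := by exact_mod_cast (hw n hnC).1
        have e : (z n : ℝ) / (w n * R) = (z n : ℝ) / w n / R := by rw [div_div]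
        rw [e]
        constructor
        · rw [le_div_iff₀ hR]; linarith [hR1 n hnC]
        · rw [div_le_iff₀ hR]; linarith [hR2 n hnC]
      · intro n hn m hm hnm
        have hn1 := Finset.mem_filter.1 hn
        have hm1 := Finset.mem_filter.1 hm
        have hn2 := Finset.mem_filter.1 hn1.1
        have hm2 := Finset.mem_filter.1 hm1.1
        have cwn : (0 : ℝ) < w n := by exact_mod_cast (hw n hn2.1).1
        have cwm : (0 : ℝ) < w m := by exact_mod_cast (hw m hm2.1).1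
        have hdv : g n ∣ g m := by
          rw [← Int.natAbs_dvd_natAbs, hn1.2, hm1.2]
        have hdiv2 := hprim n hn2.1 m hm2.1 (g n) dvd_rfl hdv
        have hne : z n * w m - z m * w n ≠ 0 := sub_ne_zero.2 (hzw_ne n hn2.1 m hm2.1 hnm)
        have h1 : |g n| ≤ |z n * w m - z m * w n| :=
          Int.le_of_dvd (abs_pos.2 hne) ((abs_dvd_abs _ _).2 hdiv2)
        have h2 : (G : ℤ) ≤ |z n * w m - z m * w n| := by
          have := hn2.2
          omega
        have h3 : (G : ℝ) ≤ |(z n : ℝ) * w m - z m * w n| := by exact_mod_cast h2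
        have e : (z n : ℝ) / (w n * R) - (z m : ℝ) / (w m * R) =
          ((z n : ℝ) * w m - z m * w n) / (w n * w m * R) := by
          field_simp
        rw [e, abs_div, abs_of_pos (show (0 : ℝ) < w n * w m * R by positivity)]
        rw [div_le_div_iff₀ (by positivity) (by positivity)]
        have h4 : (w n : ℝ) * w m * R ≤ 2 * Y := by
          have h5 := hR1 n hn2.1
          rw [le_div_iff₀ cwn] at h5
          have h6 : (w m : ℝ) ≤ 2 * w n := by exact_mod_cast hww m hm2.1 n hn2.1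
          have h7 := hYb n hn2.1
          have h8 : (w n : ℝ) * w m * R = w m * (R * w n) := by ring
          have cz : (0 : ℝ) < z n := by exact_mod_cast (hz n hn2.1).1
          rw [h8]
          calc (w m : ℝ) * (R * w n) ≤ w m * z n := by gcongr
            _ ≤ (2 * w n) * z n := by gcongr
            _ = 2 * (z n * w n) := by ring
            _ ≤ 2 * Y := by linarith
        have h9 : (0 : ℝ) ≤ G := by positivity
        calc (G : ℝ) * (w n * w m * R) ≤ G * (2 * Y) := by gcongr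
          _ ≤ |(z n : ℝ) * w m - z m * w n| * (2 * Y) := by gcongr
    rw [hfib]
    calc ∑ b ∈ (p * s - q * r).natAbs.divisors,
        ((C2.filter (fun n => (g n).natAbs = b)).card : ℝ)
        ≤ ∑ b ∈ (p * s - q * r).natAbs.divisors, (1 + 2 * d * Y / G) := Finset.sum_le_sum hbd
      _ = ((p * s - q * r).natAbs.divisors.card : ℝ) * (1 + 2 * d * Y / G) := by
        rw [Finset.sum_const, nsmul_eq_mul]
      _ ≤ dmax * (1 + 2 * d * Y / G) := by
        apply mul_le_mul_of_nonneg_right (hdiv _ hD hDV) (by positivity)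
  rw [hsplit]
  push_cast
  have : ((C.filter (fun n => |g n| ≤ G)).card : ℝ) ≤ 2 := by exact_mod_cast hsmallg
  linarith

end Pool.Agent.Helper94.Abc
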