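import Mathlib
import Pool.Agent.Helper94.Abc.Crit

set_option autoImplicit false

/-!
The critical case: total count for fixed `A`, `B`.
-/

namespace Pool.Agent.Helper94.Abc

open Finset Real

/-- Count for fixed `A`, `B`, `a`. -/
theorem crit_fixed (S : Finset ℕ) (x y z w : ℕ → ℤ) (A B a V : ℤ)
    {N Q Δ Y Λ Lρ dmax : ℝ} (H G W J : ℕ) (hG : 1 ≤ G) (hA : 0 < A) (hB : 0 < B) (ha : 0 < a)
    (hN : 0 < N) (hΔ0 : 0 < Δ) (hΔ1 : Δ ≤ 1 / 2) (hdmax : 0 ≤ dmax) (hY : 0 < Y)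
    (hx : ∀ i ∈ S, 0 < x i ∧ x i ≤ V) (hy : ∀ i ∈ S, 0 < y i ∧ y i ≤ V)
    (hz : ∀ i ∈ S, 0 < z i ∧ z i ≤ V) (hw : ∀ i ∈ S, 0 < w i ∧ w i ≤ V)
    (hwW : ∀ i ∈ S, w i ≤ W)
    (hn : ∀ i ∈ S, (i : ℤ) = A * x i * z i ^ 3)
    (heq : ∀ i ∈ S, B * y i * w i ^ 3 = A * x i * z i ^ 3 + a)
    (hxy : ∀ i ∈ S, IsCoprime (x i) (y i)) (hzw : ∀ i ∈ S, IsCoprime (z i) (w i))
    (hAB : ∀ i ∈ S, IsCoprime (A * z i ^ 3) (B * w i ^ 3))
    (hxw : ∀ i ∈ S, x i < w i ^ 3)
    (hlo : ∀ i ∈ S, N / 2 ≤ (A : ℝ) * x i * (z i : ℝ) ^ 3)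
    (hQ : ∀ i ∈ S, (x i : ℝ) * y i * z i * w i ≤ Q)
    (hYb : ∀ i ∈ S, (z i : ℝ) * w i ≤ Y)
    (hρ : ∀ i ∈ S, |log ((z i : ℝ) / w i)| ≤ Lρ) (hJ : Lρ / Δ + 1 ≤ J)
    (hΛ : ∀ i ∈ S, (x i : ℝ) ≤ Λ * z i ∧ (x i : ℝ) ≤ Λ * w i ∧ (y i : ℝ) ≤ Λ * z i ∧
      (y i : ℝ) ≤ Λ * w i ∧ (w i : ℝ) ≤ Λ * A * z i ∧ (w i : ℝ) ^ 2 ≤ Λ * A * (z i : ℝ) ^ 2 ∧
      (z i : ℝ) ≤ Λ * B * w i ∧ (z i : ℝ) ^ 2 ≤ Λ * B * (w i : ℝ) ^ 2)
    (hyw : ∀ i ∈ S, 64 * a * z i < y i * w i ^ 2)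
    (hsmall : Q ^ 2 * (24 * (2 * Δ) ^ 6 + 144 * (16 * a / N) * (2 * Δ) ^ 3 +
      6 * (16 * a / N) ^ 2 * (2 * Δ) ^ 2) < 1)
    (hdiv : ∀ D : ℤ, D ≠ 0 → |D| ≤ 72 * V ^ 12 → (D.natAbs.divisors.card : ℝ) ≤ dmax)
    (hH : 200 * (G : ℝ) * (1 + a) * Λ ≤ H) :
    (S.card : ℝ) ≤ 4 * ((2 * H + 1) ^ 4 * (2 * G + 1) * W) +
      (2 * J + 1) * (Nat.log 2 W + 1) * (2 + dmax * (1 + 2 * (2 * Δ) * Y / G)) := by
  classical
  have cwp : ∀ i ∈ S, (0 : ℝ) < w i := fun i hi => by exact_mod_cast (hw i hi).1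
  have czp : ∀ i ∈ S, (0 : ℝ) < z i := fun i hi => by exact_mod_cast (hz i hi).1
  -- distinct slopes
  have hzw_ne : ∀ i ∈ S, ∀ j ∈ S, i ≠ j → z i * w j ≠ z j * w i := by
    intro i hi j hj hij h0
    have hzi := (hz i hi).1
    have hzj := (hz j hj).1
    have hwi := (hw i hi).1
    have hwj := (hw j hj).1
    have d1 : z i ∣ z j := by
      have : z i ∣ z j * w i := ⟨w j, h0.symm⟩
      exact (hzw i hi).dvd_of_dvd_mul_right this
    have d2 : z j ∣ z i := by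
      have : z j ∣ z i * w j := ⟨w i, h0⟩
      exact (hzw j hj).dvd_of_dvd_mul_right this
    have hzz : z i = z j := le_antisymm (Int.le_of_dvd hzj d1) (Int.le_of_dvd hzi d2)
    have hww : w i = w j := by
      rw [hzz] at h0
      exact (mul_left_cancel₀ hzj.ne' h0).symm
    have h1 := heq i hi
    have h2 := heq j hj
    rw [← hzz, ← hww] at h2
    have h3 : (B * w i ^ 3) * (y i - y j) = (A * z i ^ 3) * (x i - x j) := by
      linear_combination h1 - h2
    have h4 : B * w i ^ 3 ∣ x i - x j := by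
      have : B * w i ^ 3 ∣ (A * z i ^ 3) * (x i - x j) := ⟨_, h3.symm⟩
      exact (hAB i hi).symm.dvd_of_dvd_mul_left this
    have h5 : x i - x j = 0 := by
      by_contra hne
      have h6 := Int.le_of_dvd (abs_pos.2 hne) ((dvd_abs _ _).2 h4)
      have h7 := hxw i hi
      have h8 := hxw j hj
      rw [← hww] at h8
      have h9 : |x i - x j| < w i ^ 3 := by
        rw [abs_lt]; constructor <;> linarith [(hx i hi).1, (hx j hj).1]
      have h10 : w i ^ 3 ≤ B * w i ^ 3 := by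
        have : 0 < w i ^ 3 := by positivity
        nlinarith
      linarith
    apply hij
    have h6 : x i = x j := by linarith
    have h7 := hn i hi
    have h8 := hn j hj
    rw [← hzz, ← h6, ← h7] at h8
    exact_mod_cast h8.symm
  set Bad : ℕ → Prop := fun i => ∃ p q r s g : ℤ, |p| ≤ H ∧ |q| ≤ H ∧ |r| ≤ H ∧ |s| ≤ H ∧
    |g| ≤ G ∧ g ≠ 0 ∧ p * s - q * r ≠ 0 ∧ p * z i + q * w i = g * x i ∧
      r * z i + s * w i = g * y i with hBad
  have hbadcount : ((S.filter Bad).card : ℝ) ≤ 4 * ((2 * H + 1) ^ 4 * (2 * G + 1) * W) := by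
    have := bad_count (S.filter Bad) x y z w A B a H G W hA.ne' hB.ne'
      (fun n hn' => ⟨(hw n (Finset.mem_filter.1 hn').1).1, hwW n (Finset.mem_filter.1 hn').1⟩)
      (fun n hn' => heq n (Finset.mem_filter.1 hn').1)
      (fun n hn' => hn n (Finset.mem_filter.1 hn').1)
      (fun n hn' => (Finset.mem_filter.1 hn').2)
    have h2 : ((S.filter Bad).card : ℝ) ≤
      ((4 * ((2 * H + 1) ^ 4 * (2 * G + 1) * W) : ℕ) : ℝ) := by exact_mod_cast this
    push_cast at h2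
    exact h2
  -- clusters
  set cl : ℕ → ℤ × ℕ := fun i => (⌊log ((z i : ℝ) / w i) / Δ⌋, Nat.log 2 (w i).toNat) with hcl
  set S' := S.filter (fun i => ¬ Bad i) with hS'
  have hS'S : ∀ i ∈ S', i ∈ S := fun i hi => (Finset.mem_filter.1 hi).1
  have himg : (S'.image cl).card ≤ (2 * J + 1) * (Nat.log 2 W + 1) := by
    have hsub : S'.image cl ⊆ (Finset.Icc (-(J : ℤ)) J) ×ˢ (Finset.range (Nat.log 2 W + 1)) := by
      intro u hu
      rw [Finset.mem_image] at hu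
      obtain ⟨i, hi, rfl⟩ := hu
      have hiS := hS'S i hi
      rw [Finset.mem_product, Finset.mem_Icc, Finset.mem_range]
      have h1 := hρ i hiS
      rw [abs_le] at h1
      have h2 : log ((z i : ℝ) / w i) / Δ ≤ Lρ / Δ := by
        apply div_le_div_of_nonneg_right h1.2 hΔ0.le
      have h3 : -(Lρ / Δ) ≤ log ((z i : ℝ) / w i) / Δ := by
        rw [← neg_div]; apply div_le_div_of_nonneg_right h1.1 hΔ0.le
      refine ⟨⟨?_, ?_⟩, ?_⟩
      · apply Int.le_floor.2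
        push_cast; linarith
      · have h4 : ((⌊log ((z i : ℝ) / w i) / Δ⌋ : ℤ) : ℝ) ≤ ((J : ℤ) : ℝ) := by
          have := Int.floor_le (log ((z i : ℝ) / w i) / Δ)
          rw [Int.cast_natCast]; linarith
        exact Int.cast_le.1 h4
      · have h5 : (w i).toNat ≤ W := by
          have := hwW i hiS; omega
        have := Nat.log_mono_right (b := 2) h5
        show Nat.log 2 (w i).toNat < Nat.log 2 W + 1
        omega
    calc (S'.image cl).card ≤ _ := Finset.card_le_card hsub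
      _ = (2 * J + 1) * (Nat.log 2 W + 1) := by
        rw [Finset.card_product, Int.card_Icc, Finset.card_range]
        congr 1
        omega
  have hclust : ∀ u ∈ S'.image cl, ((S'.filter (fun i => cl i = u)).card : ℝ) ≤
      2 + dmax * (1 + 2 * (2 * Δ) * Y / G) := by
    intro u hu
    set C := S'.filter (fun i => cl i = u) with hC
    have hCS' : ∀ i ∈ C, i ∈ S' := fun i hi => (Finset.mem_filter.1 hi).1
    have hCS : ∀ i ∈ C, i ∈ S := fun i hi => hS'S i (hCS' i hi)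
    set R : ℝ := Real.exp (u.1 * Δ) with hRdef
    have hR : 0 < R := Real.exp_pos _
    have hcl1 : ∀ i ∈ C, ⌊log ((z i : ℝ) / w i) / Δ⌋ = u.1 := by
      intro i hi
      have := (Finset.mem_filter.1 hi).2
      rw [← this]
    have hcl2 : ∀ i ∈ C, Nat.log 2 (w i).toNat = u.2 := by
      intro i hi
      have := (Finset.mem_filter.1 hi).2
      rw [← this]
    have hρpos : ∀ i ∈ C, 0 < (z i : ℝ) / w i := fun i hi =>
      div_pos (czp i (hCS i hi)) (cwp i (hCS i hi))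
    refine cluster_count C x y z w A B a V (N := N) (Q := Q) (d := 2 * Δ) (Y := Y) (Λ := Λ)
      (R := R) H G hG hA hB ha hN hR (by linarith) (by linarith) hdmax hY
      (fun i hi => hx i (hCS i hi)) (fun i hi => hy i (hCS i hi)) (fun i hi => hz i (hCS i hi))
      (fun i hi => hw i (hCS i hi)) (fun i hi => heq i (hCS i hi))
      (fun i hi => hxy i (hCS i hi)) (fun i hi => hzw i (hCS i hi))
      (fun i hi j hj => hzw_ne i (hCS i hi) j (hCS j hj))
      (fun i hi => hlo i (hCS i hi)) (fun i hi => hQ i (hCS i hi)) (fun i hi => hYb i (hCS i hi))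
      ?_ ?_ ?_ (fun i hi => hΛ i (hCS i hi)) (fun i hi => hyw i (hCS i hi)) hsmall hdiv hH
      (fun i hi => (Finset.mem_filter.1 (hCS' i hi)).2)
    · -- R ≤ z / w
      intro i hi
      have h1 := Int.floor_le (log ((z i : ℝ) / w i) / Δ)
      rw [hcl1 i hi, le_div_iff₀ hΔ0] at h1
      rw [hRdef, ← Real.exp_log (hρpos i hi)]
      exact Real.exp_le_exp.2 h1
    · -- z / w ≤ R (1 + 2Δ)
      intro i hi
      have h1 := Int.lt_floor_add_one (log ((z i : ℝ) / w i) / Δ)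
      rw [hcl1 i hi, div_lt_iff₀ hΔ0] at h1
      have h2 : (z i : ℝ) / w i ≤ R * Real.exp Δ := by
        rw [hRdef, ← Real.exp_add, ← Real.exp_log (hρpos i hi)]
        apply Real.exp_le_exp.2
        linarith
      have h3 : Real.exp Δ ≤ 1 + 2 * Δ := by
        have h4 := Real.abs_exp_sub_one_le (x := Δ) (by rw [abs_of_pos hΔ0]; linarith)
        rw [abs_of_pos hΔ0] at h4
        have := le_abs_self (Real.exp Δ - 1)
        linarith
      calc (z i : ℝ) / w i ≤ R * Real.exp Δ := h2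
        _ ≤ R * (1 + 2 * Δ) := by gcongr
    · -- w i ≤ 2 w j
      intro i hi j hj
      have hwi := (hw i (hCS i hi)).1
      have hwj := (hw j (hCS j hj)).1
      have e1 : (w i).toNat ≠ 0 := by omega
      have e2 : (w j).toNat ≠ 0 := by omega
      have h1 : (w i).toNat < 2 ^ (Nat.log 2 (w i).toNat + 1) :=
        Nat.lt_pow_succ_log_self (by norm_num) _
      have h2 : 2 ^ (Nat.log 2 (w j).toNat) ≤ (w j).toNat := Nat.pow_log_le_self 2 e2
      rw [hcl2 i hi] at h1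
      rw [hcl2 j hj] at h2
      have h3 : (w i).toNat < 2 * (w j).toNat := by
        calc (w i).toNat < 2 ^ (u.2 + 1) := h1
          _ = 2 * 2 ^ u.2 := by rw [pow_succ]; ring
          _ ≤ 2 * (w j).toNat := by omega
      omega
  have hgoodcount : (S'.card : ℝ) ≤
      (2 * J + 1) * (Nat.log 2 W + 1) * (2 + dmax * (1 + 2 * (2 * Δ) * Y / G)) := by
    have h1 : (S'.card : ℝ) = ∑ u ∈ S'.image cl, ((S'.filter (fun i => cl i = u)).card : ℝ) := by
      have := Finset.card_eq_sum_card_image cl S'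
      rw [this]; push_cast; rfl
    rw [h1]
    have hG' : (1 : ℝ) ≤ G := by exact_mod_cast hG
    calc ∑ u ∈ S'.image cl, ((S'.filter (fun i => cl i = u)).card : ℝ)
        ≤ ∑ u ∈ S'.image cl, (2 + dmax * (1 + 2 * (2 * Δ) * Y / G)) := Finset.sum_le_sum hclust
      _ = ((S'.image cl).card : ℝ) * (2 + dmax * (1 + 2 * (2 * Δ) * Y / G)) := by
        rw [Finset.sum_const, nsmul_eq_mul]
      _ ≤ (((2 * J + 1) * (Nat.log 2 W + 1) : ℕ) : ℝ) *
          (2 + dmax * (1 + 2 * (2 * Δ) * Y / G)) := by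
        apply mul_le_mul_of_nonneg_right (by exact_mod_cast himg) (by positivity)
      _ = _ := by push_cast; ring
  have hsplit : S.card = (S.filter Bad).card + S'.card :=
    (Finset.card_filter_add_card_filter_not _).symm
  rw [hsplit]
  push_cast
  linarith

end Pool.Agent.Helper94.Abc
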