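import Mathlib
import Pool.Agent.Helper94.Abc.Asym
import Pool.Agent.Helper94.Abc.Crit2

set_option autoImplicit false

/-!
The class of critical shape.
-/

namespace Pool.Agent.Helper94.Abc

open Finset Real
open Pool.Agent.Helper26.RadSum (rad rad_pos one_le_rad rad_mul_of_coprime)

lemma le_of_log {u v : ℝ} (hu : 0 < u) (hv : 0 < v) (h : log u ≤ log v) : u ≤ v :=
  (Real.log_le_log_iff hu hv).1 h

lemma lt_of_log {u v : ℝ} (hu : 0 < u) (hv : 0 < v) (h : log u < log v) : u < v :=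
  (Real.log_lt_log_iff hu hv).1 h

/-- numerical part of the critical count -/
lemma crit_numeric {L r a' Δ Y Λ dmax Q Nr : ℝ} {G H W J : ℕ} (hL : 10 ^ 7 ≤ L)
    (hbig : 10 ^ 12 * (L + 10) ^ 4 ≤ Real.exp (0.00001 * L)) (hr0 : 0 < r)
    (hr : r ≤ Real.exp (0.0165 * L)) (ha0 : 0 ≤ a') (ha : a' ≤ 2 * Real.exp (0.002 * L))
    (hN : Nr = Real.exp L)
    (hΔ : Δ = Real.exp (-(0.336 * L))) (hY : Y = Real.exp (0.5124 * L) / r)
    (hΛ : Λ = Real.exp (0.0247 * L)) (hd : dmax = Real.exp (0.00001 * L))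
    (hQ : Q = Real.exp (1.002 * (L + 1)))
    (hG : G = ⌈Real.exp (0.017 * L)⌉₊) (hW : W = ⌊Real.exp (0.2522 * L)⌋₊)
    (hH : H = ⌈200 * (G : ℝ) * (1 + a') * Λ⌉₊) (hJ : J = ⌈L / Δ + 1⌉₊) :
    (4 * ((2 * (H : ℝ) + 1) ^ 4 * (2 * G + 1) * W) +
      (2 * J + 1) * (Nat.log 2 W + 1) * (2 + dmax * (1 + 2 * (2 * Δ) * Y / G))) * r ≤
        Real.exp (0.4957 * L) ∧
    Q ^ 2 * (24 * (2 * Δ) ^ 6 + 144 * (16 * a' / Nr) * (2 * Δ) ^ 3 +
      6 * (16 * a' / Nr) ^ 2 * (2 * Δ) ^ 2) < 1 := by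
  set t := Real.exp (0.00001 * L) with ht
  have hL0 : 0 < L := by linarith
  have hL10 : (10 : ℝ) ^ 4 ≤ (L + 10) ^ 4 := by gcongr; linarith
  have ht16 : (10 : ℝ) ^ 16 ≤ t := by linarith
  have ht0 : 0 < t := Real.exp_pos _
  have htc : ∀ c : ℝ, 0.00001 ≤ c → t ≤ Real.exp (c * L) := by
    intro c hc
    apply Real.exp_le_exp.2
    exact mul_le_mul_of_nonneg_right hc hL0.le
  have hone : ∀ c : ℝ, 0 ≤ c → 1 ≤ Real.exp (c * L) := by
    intro c hc
    apply Real.one_le_exp (by positivity)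
  -- bounds for G
  have hG1 : Real.exp (0.017 * L) ≤ G := by rw [hG]; exact Nat.le_ceil _
  have hG2 : (G : ℝ) ≤ 2 * Real.exp (0.017 * L) := by
    have h1 : (G : ℝ) < Real.exp (0.017 * L) + 1 := by
      rw [hG]; exact Nat.ceil_lt_add_one (Real.exp_pos _).le
    have := hone 0.017 (by norm_num)
    linarith
  have hGpos : (0 : ℝ) < G := lt_of_lt_of_le (Real.exp_pos _) hG1
  have hW1 : (W : ℝ) ≤ Real.exp (0.2522 * L) := by
    rw [hW]; exact Nat.floor_le (Real.exp_pos _).le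
  have hW0 : 0 ≤ (W : ℝ) := Nat.cast_nonneg _
  -- bound for H
  have ha3 : 1 + a' ≤ 3 * Real.exp (0.002 * L) := by
    have := hone 0.002 (by norm_num)
    linarith
  have hH1 : (H : ℝ) ≤ 1201 * Real.exp (0.0437 * L) := by
    have h1 : (H : ℝ) < 200 * (G : ℝ) * (1 + a') * Λ + 1 := by
      rw [hH]; exact Nat.ceil_lt_add_one (by rw [hΛ]; positivity)
    have h2 : 200 * (G : ℝ) * (1 + a') * Λ ≤ 1200 * Real.exp (0.0437 * L) := by
      have e1 : Real.exp (0.0437 * L) =
        Real.exp (0.017 * L) * Real.exp (0.002 * L) * Real.exp (0.0247 * L) := by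
        rw [← Real.exp_add, ← Real.exp_add]; congr 1; ring
      rw [e1, hΛ]
      calc 200 * (G : ℝ) * (1 + a') * Real.exp (0.0247 * L)
          ≤ 200 * (2 * Real.exp (0.017 * L)) * (3 * Real.exp (0.002 * L)) *
            Real.exp (0.0247 * L) := by gcongr
        _ = _ := by ring
    have := hone 0.0437 (by norm_num)
    linarith
  have hH2 : 2 * (H : ℝ) + 1 ≤ 2403 * Real.exp (0.0437 * L) := by
    have := hone 0.0437 (by norm_num)
    linarith
  have hH4 : (2 * (H : ℝ) + 1) ^ 4 ≤ 2403 ^ 4 * Real.exp (0.1748 * L) := by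
    calc (2 * (H : ℝ) + 1) ^ 4 ≤ (2403 * Real.exp (0.0437 * L)) ^ 4 := by gcongr
      _ = 2403 ^ 4 * Real.exp (0.1748 * L) := by
        rw [mul_pow, ← Real.exp_nat_mul]; congr 2; push_cast; ring
  have hG3 : 2 * (G : ℝ) + 1 ≤ 5 * Real.exp (0.017 * L) := by
    have := hone 0.017 (by norm_num)
    linarith
  -- first part
  have P1 : 4 * ((2 * (H : ℝ) + 1) ^ 4 * (2 * G + 1) * W) * r ≤
      1 / 4 * Real.exp (0.4957 * L) := by
    have e1 : Real.exp (0.1748 * L) * Real.exp (0.017 * L) * Real.exp (0.2522 * L) *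
        Real.exp (0.0165 * L) = Real.exp (0.4605 * L) := by
      rw [← Real.exp_add, ← Real.exp_add, ← Real.exp_add]; congr 1; ring
    have e2 : Real.exp (0.4957 * L) = Real.exp (0.0352 * L) * Real.exp (0.4605 * L) := by
      rw [← Real.exp_add]; congr 1; ring
    calc 4 * ((2 * (H : ℝ) + 1) ^ 4 * (2 * G + 1) * W) * r
        ≤ 4 * ((2403 ^ 4 * Real.exp (0.1748 * L)) * (5 * Real.exp (0.017 * L)) *
          Real.exp (0.2522 * L)) * Real.exp (0.0165 * L) := by gcongr
      _ = (20 * 2403 ^ 4) * (Real.exp (0.1748 * L) * Real.exp (0.017 * L) *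
          Real.exp (0.2522 * L) * Real.exp (0.0165 * L)) := by ring
      _ = (20 * 2403 ^ 4) * Real.exp (0.4605 * L) := by rw [e1]
      _ ≤ (1 / 4 * Real.exp (0.0352 * L)) * Real.exp (0.4605 * L) := by
        apply mul_le_mul_of_nonneg_right _ (Real.exp_pos _).le
        have := htc 0.0352 (by norm_num)
        norm_num at *
        linarith
      _ = _ := by rw [e2]; ring
  -- second part
  have hΔ0 : 0 < Δ := by rw [hΔ]; exact Real.exp_pos _
  have hJ1 : (J : ℝ) ≤ L * Real.exp (0.336 * L) + 2 := by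
    have h1 : (J : ℝ) < L / Δ + 1 + 1 := by
      rw [hJ]; exact Nat.ceil_lt_add_one (by positivity)
    have h2 : L / Δ = L * Real.exp (0.336 * L) := by
      rw [hΔ, Real.exp_neg, div_inv_eq_mul]
    rw [h2] at h1
    linarith
  have hJ2 : 2 * (J : ℝ) + 1 ≤ (2 * L + 5) * Real.exp (0.336 * L) := by
    have := hone 0.336 (by norm_num)
    have e : (2 * L + 5) * Real.exp (0.336 * L) =
        2 * (L * Real.exp (0.336 * L)) + 5 * Real.exp (0.336 * L) := by ring
    rw [e]
    linarith only [this, hJ1]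
  have hlogW : (Nat.log 2 W : ℝ) + 1 ≤ L + 1 := by
    have : (Nat.log 2 W : ℝ) ≤ L := by
      rcases Nat.eq_zero_or_pos W with h0 | hpos
      · rw [h0]; simp; linarith
      · have h1 : 2 ^ (Nat.log 2 W) ≤ W := Nat.pow_log_le_self 2 hpos.ne'
        have h2 : ((2 : ℝ) ^ (Nat.log 2 W)) ≤ Real.exp (0.2522 * L) := by
          have : ((2 ^ (Nat.log 2 W) : ℕ) : ℝ) ≤ (W : ℝ) := by exact_mod_cast h1
          push_cast at this
          linarith
        have h3 := Real.log_le_log (by positivity) h2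
        rw [Real.log_pow, Real.log_exp] at h3
        have h4 := Real.log_two_gt_d9
        have h5 : (Nat.log 2 W : ℝ) * 0.69 ≤ (Nat.log 2 W : ℝ) * log 2 := by
          gcongr; linarith
        linarith
    linarith
  have hprod : (2 * (J : ℝ) + 1) * ((Nat.log 2 W : ℝ) + 1) ≤
      2 * (L + 10) ^ 2 * Real.exp (0.336 * L) := by
    calc (2 * (J : ℝ) + 1) * ((Nat.log 2 W : ℝ) + 1)
        ≤ ((2 * L + 5) * Real.exp (0.336 * L)) * (L + 1) := by gcongr
      _ = ((2 * L + 5) * (L + 1)) * Real.exp (0.336 * L) := by ring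
      _ ≤ (2 * (L + 10) ^ 2) * Real.exp (0.336 * L) := by
        apply mul_le_mul_of_nonneg_right _ (Real.exp_pos _).le
        have e : 2 * (L + 10) ^ 2 = (2 * L + 5) * (L + 1) + (33 * L + 195) := by ring
        rw [e]
        linarith only [hL0]
  have hL24 : (L + 10) ^ 2 ≤ (L + 10) ^ 4 := by
    apply pow_le_pow_right₀ (by linarith) (by norm_num)
  have ht2 : 10 ^ 12 * (L + 10) ^ 2 ≤ t := by linarith
  have P2 : (2 * (J : ℝ) + 1) * ((Nat.log 2 W : ℝ) + 1) * (2 + dmax) * r ≤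
      1 / 4 * Real.exp (0.4957 * L) := by
    have e1 : Real.exp (0.336 * L) * Real.exp (0.0165 * L) = Real.exp (0.3525 * L) := by
      rw [← Real.exp_add]; congr 1; ring
    have e3 : Real.exp (0.4957 * L) = Real.exp (0.1432 * L) * Real.exp (0.3525 * L) := by
      rw [← Real.exp_add]; congr 1; ring
    have e4 : t * t ≤ Real.exp (0.1432 * L) := by
      rw [ht, ← Real.exp_add]
      apply Real.exp_le_exp.2
      linarith
    calc (2 * (J : ℝ) + 1) * ((Nat.log 2 W : ℝ) + 1) * (2 + dmax) * r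
        ≤ (2 * (L + 10) ^ 2 * Real.exp (0.336 * L)) * (2 + dmax) * Real.exp (0.0165 * L) := by
          rw [hd]; gcongr
      _ = (2 * (L + 10) ^ 2 * (2 + dmax)) * (Real.exp (0.336 * L) * Real.exp (0.0165 * L)) := by
          ring
      _ ≤ (1 / 4 * (t * t)) * (Real.exp (0.336 * L) * Real.exp (0.0165 * L)) := by
          apply mul_le_mul_of_nonneg_right _ (by positivity)
          have h1 : 2 + dmax ≤ 2 * t := by rw [hd]; linarith
          calc 2 * (L + 10) ^ 2 * (2 + dmax) ≤ 2 * (L + 10) ^ 2 * (2 * t) := by gcongr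
            _ = (4 * (L + 10) ^ 2) * t := by ring
            _ ≤ (1 / 4 * t) * t := by
              apply mul_le_mul_of_nonneg_right _ ht0.le
              linarith only [ht2, sq_nonneg (L + 10)]
            _ = _ := by ring
      _ ≤ (1 / 4 * Real.exp (0.1432 * L)) * (Real.exp (0.336 * L) * Real.exp (0.0165 * L)) := by
          apply mul_le_mul_of_nonneg_right _ (by positivity)
          linarith
      _ = _ := by rw [e1, e3]; ring
  have P3 : (2 * (J : ℝ) + 1) * ((Nat.log 2 W : ℝ) + 1) * (dmax * (2 * (2 * Δ) * Y / G)) * r ≤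
      1 / 4 * Real.exp (0.4957 * L) := by
    have hYr : Y * r = Real.exp (0.5124 * L) := by
      rw [hY]; field_simp
    have hYG : Y * r / G ≤ Real.exp (0.4954 * L) := by
      rw [hYr, div_le_iff₀ hGpos]
      have : Real.exp (0.5124 * L) = Real.exp (0.4954 * L) * Real.exp (0.017 * L) := by
        rw [← Real.exp_add]; congr 1; ring
      rw [this]
      gcongr
    have hYG0 : 0 ≤ Y * r / G := by
      rw [hYr]; positivity
    have e0 : Real.exp (0.336 * L) * Δ = 1 := by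
      rw [hΔ, ← Real.exp_add]; simp
    have e3 : Real.exp (0.4957 * L) = Real.exp (0.0003 * L) * Real.exp (0.4954 * L) := by
      rw [← Real.exp_add]; congr 1; ring
    have e4 : t * t ≤ Real.exp (0.0003 * L) := by
      rw [ht, ← Real.exp_add]
      apply Real.exp_le_exp.2
      linarith
    calc (2 * (J : ℝ) + 1) * ((Nat.log 2 W : ℝ) + 1) * (dmax * (2 * (2 * Δ) * Y / G)) * r
        = ((2 * (J : ℝ) + 1) * ((Nat.log 2 W : ℝ) + 1)) * (4 * Δ * t * (Y * r / G)) := by
          rw [hd]; ring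
      _ ≤ (2 * (L + 10) ^ 2 * Real.exp (0.336 * L)) * (4 * Δ * t * (Y * r / G)) := by
          apply mul_le_mul_of_nonneg_right hprod
          positivity
      _ = (8 * (L + 10) ^ 2 * t) * (Real.exp (0.336 * L) * Δ) * (Y * r / G) := by ring
      _ = (8 * (L + 10) ^ 2 * t) * (Y * r / G) := by rw [e0, mul_one]
      _ ≤ (1 / 4 * (t * t)) * (Y * r / G) := by
          apply mul_le_mul_of_nonneg_right _ hYG0
          have : 8 * (L + 10) ^ 2 ≤ 1 / 4 * t := by linarith only [ht2, sq_nonneg (L + 10)]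
          have h2 := mul_le_mul_of_nonneg_right this ht0.le
          linarith only [h2]
      _ ≤ (1 / 4 * Real.exp (0.0003 * L)) * Real.exp (0.4954 * L) := by
          apply mul_le_mul _ hYG hYG0 (by positivity)
          linarith
      _ = _ := by rw [e3]; ring
  constructor
  · have hexp := Real.exp_pos (0.4957 * L)
    have e : (4 * ((2 * (H : ℝ) + 1) ^ 4 * (2 * G + 1) * W) +
      (2 * J + 1) * (Nat.log 2 W + 1) * (2 + dmax * (1 + 2 * (2 * Δ) * Y / G))) * r =
      4 * ((2 * (H : ℝ) + 1) ^ 4 * (2 * G + 1) * W) * r +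
      (2 * (J : ℝ) + 1) * ((Nat.log 2 W : ℝ) + 1) * (2 + dmax) * r +
      (2 * (J : ℝ) + 1) * ((Nat.log 2 W : ℝ) + 1) * (dmax * (2 * (2 * Δ) * Y / G)) * r := by
      ring
    rw [e]
    linarith
  · -- smallness of the determinant
    have hinv : Real.exp (-(0.00001 * L)) ≤ 1 / 10 ^ 16 := by
      rw [Real.exp_neg, ← ht, inv_eq_one_div]
      exact one_div_le_one_div_of_le (by norm_num) ht16
    have hsm : ∀ c : ℝ, 0.00001 ≤ c → Real.exp (-(c * L)) ≤ 1 / 10 ^ 16 := by
      intro c hc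
      refine le_trans (Real.exp_le_exp.2 ?_) hinv
      exact neg_le_neg (mul_le_mul_of_nonneg_right hc hL0.le)
    have he1 : Real.exp 1 ≤ 3 := by
      have := Real.exp_one_lt_d9; linarith
    have he2 : Real.exp 2.004 ≤ 27 := by
      calc Real.exp 2.004 ≤ Real.exp (1 + 1 + 1) := by
            apply Real.exp_le_exp.2; norm_num
        _ = Real.exp 1 * Real.exp 1 * Real.exp 1 := by rw [Real.exp_add, Real.exp_add]
        _ ≤ 3 * 3 * 3 := by gcongr
        _ = 27 := by norm_num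
    have hQ2 : Q ^ 2 = Real.exp 2.004 * Real.exp (2.004 * L) := by
      rw [hQ, ← Real.exp_nat_mul, ← Real.exp_add]; congr 1; push_cast; ring
    have hq : 0 ≤ Q ^ 2 := sq_nonneg _
    have T1 : Q ^ 2 * (24 * (2 * Δ) ^ 6) ≤ 1 / 4 := by
      have e1 : Q ^ 2 * (24 * (2 * Δ) ^ 6) =
          (1536 * Real.exp 2.004) * Real.exp (-(0.012 * L)) := by
        rw [hQ2, hΔ, mul_pow, ← Real.exp_nat_mul]
        have : Real.exp (-(0.012 * L)) = Real.exp (2.004 * L) *
          Real.exp ((6 : ℕ) * -(0.336 * L)) := by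
          rw [← Real.exp_add]; congr 1; push_cast; ring
        rw [this]; ring
      rw [e1]
      have := hsm 0.012 (by norm_num)
      have h0 := Real.exp_pos (2.004 : ℝ)
      have h1 := Real.exp_pos (-(0.012 * L))
      calc (1536 * Real.exp 2.004) * Real.exp (-(0.012 * L))
          ≤ (1536 * 27) * (1 / 10 ^ 16) := by gcongr
        _ ≤ 1 / 4 := by norm_num
    have haN : a' / Nr ≤ 2 * Real.exp (-(0.998 * L)) := by
      rw [hN, div_le_iff₀ (Real.exp_pos _)]
      have : Real.exp (0.002 * L) = Real.exp (-(0.998 * L)) * Real.exp L := by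
        rw [← Real.exp_add]; congr 1; ring
      rw [this] at ha
      linarith
    have haN0 : 0 ≤ a' / Nr := by rw [hN]; positivity
    have T2 : Q ^ 2 * (144 * (16 * a' / Nr) * (2 * Δ) ^ 3) ≤ 1 / 4 := by
      have e1 : Real.exp (2.004 * L) * Real.exp (-(0.998 * L)) * Real.exp (-(0.336 * L)) ^ 3 =
          Real.exp (-(0.002 * L)) := by
        rw [← Real.exp_nat_mul, ← Real.exp_add, ← Real.exp_add]; congr 1; push_cast; ring
      calc Q ^ 2 * (144 * (16 * a' / Nr) * (2 * Δ) ^ 3)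
          = (144 * 16 * 8) * Q ^ 2 * (a' / Nr) * Δ ^ 3 := by ring
        _ ≤ (144 * 16 * 8) * Q ^ 2 * (2 * Real.exp (-(0.998 * L))) * Δ ^ 3 := by gcongr
        _ = (144 * 16 * 8 * 2) * Real.exp 2.004 * (Real.exp (2.004 * L) *
            Real.exp (-(0.998 * L)) * Real.exp (-(0.336 * L)) ^ 3) := by
            rw [hQ2, hΔ]; ring
        _ = (144 * 16 * 8 * 2) * Real.exp 2.004 * Real.exp (-(0.002 * L)) := by rw [e1]
        _ ≤ (144 * 16 * 8 * 2) * 27 * (1 / 10 ^ 16) := by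
            have := hsm 0.002 (by norm_num)
            gcongr
        _ ≤ 1 / 4 := by norm_num
    have T3 : Q ^ 2 * (6 * (16 * a' / Nr) ^ 2 * (2 * Δ) ^ 2) ≤ 1 / 4 := by
      have e1 : Real.exp (2.004 * L) * Real.exp (-(0.998 * L)) ^ 2 *
          Real.exp (-(0.336 * L)) ^ 2 = Real.exp (-(0.664 * L)) := by
        rw [← Real.exp_nat_mul, ← Real.exp_nat_mul, ← Real.exp_add, ← Real.exp_add]
        congr 1; push_cast; ring
      calc Q ^ 2 * (6 * (16 * a' / Nr) ^ 2 * (2 * Δ) ^ 2)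
          = (6 * 256 * 4) * Q ^ 2 * (a' / Nr) ^ 2 * Δ ^ 2 := by ring
        _ ≤ (6 * 256 * 4) * Q ^ 2 * (2 * Real.exp (-(0.998 * L))) ^ 2 * Δ ^ 2 := by gcongr
        _ = (6 * 256 * 4 * 4) * Real.exp 2.004 * (Real.exp (2.004 * L) *
            Real.exp (-(0.998 * L)) ^ 2 * Real.exp (-(0.336 * L)) ^ 2) := by
            rw [hQ2, hΔ]; ring
        _ = (6 * 256 * 4 * 4) * Real.exp 2.004 * Real.exp (-(0.664 * L)) := by rw [e1]
        _ ≤ (6 * 256 * 4 * 4) * 27 * (1 / 10 ^ 16) := by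
            have := hsm 0.664 (by norm_num)
            gcongr
        _ ≤ 1 / 4 := by norm_num
    have : Q ^ 2 * (24 * (2 * Δ) ^ 6 + 144 * (16 * a' / Nr) * (2 * Δ) ^ 3 +
      6 * (16 * a' / Nr) ^ 2 * (2 * Δ) ^ 2) = Q ^ 2 * (24 * (2 * Δ) ^ 6) +
      Q ^ 2 * (144 * (16 * a' / Nr) * (2 * Δ) ^ 3) +
      Q ^ 2 * (6 * (16 * a' / Nr) ^ 2 * (2 * Δ) ^ 2) := by ring
    rw [this]
    linarith

end Pool.Agent.Helper94.Abc
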