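import Mathlib
import Pool.Agent.Helper94.Abc.CritClass

set_option autoImplicit false

/-!
The class of critical shape: the count.
-/

namespace Pool.Agent.Helper94.Abc

open Finset Real
open Pool.Agent.Helper26.RadSum (rad rad_pos one_le_rad rad_mul_of_coprime)

/-- The part with exponents `2` or at least `4`. -/
def Am (m : ℕ) : ℕ := e2 m ^ 2 * e4 m

lemma Am_pos (m : ℕ) : 0 < Am m := Nat.mul_pos (pow_pos e2_pos _) e4_pos

lemma decompA {m : ℕ} (hm : m ≠ 0) : m = Am m * e1 m * e3 m ^ 3 := by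
  have := decomp hm
  unfold Am
  conv_lhs => rw [this]
  ring

lemma Am_dvd {m : ℕ} (hm : m ≠ 0) : Am m ∣ m := ⟨e1 m * e3 m ^ 3, by
  conv_lhs => rw [decompA hm]
  ring⟩

lemma e1_dvd {m : ℕ} (hm : m ≠ 0) : e1 m ∣ m := ⟨Am m * e3 m ^ 3, by
  conv_lhs => rw [decompA hm]
  ring⟩

lemma e3_dvd {m : ℕ} (hm : m ≠ 0) : e3 m ∣ m := ⟨Am m * e1 m * e3 m ^ 2, by
  conv_lhs => rw [decompA hm]
  ring⟩

lemma Ae3_dvd {m : ℕ} (hm : m ≠ 0) : Am m * e3 m ^ 3 ∣ m := ⟨e1 m, by
  conv_lhs => rw [decompA hm]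
  ring⟩

/-- The critical shape conditions, in logarithmic form. -/
def CritCond (L : ℝ) (n m : ℕ) : Prop :=
  (log (e1 n) ≤ 0.0247 * L + log (e3 n) ∧ log (e1 n) ≤ 0.0247 * L + log (e3 m) ∧
      log (e1 m) ≤ 0.0247 * L + log (e3 n) ∧ log (e1 m) ≤ 0.0247 * L + log (e3 m)) ∧
    (log (e3 m) ≤ 0.0247 * L + (2 * log (e2 n) + log (e4 n)) + log (e3 n) ∧
      2 * log (e3 m) ≤ 0.0247 * L + (2 * log (e2 n) + log (e4 n)) + 2 * log (e3 n) ∧
      log (e3 n) ≤ 0.0247 * L + (2 * log (e2 m) + log (e4 m)) + log (e3 m) ∧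
      2 * log (e3 n) ≤ 0.0247 * L + (2 * log (e2 m) + log (e4 m)) + 2 * log (e3 m)) ∧
    (log (e3 n) - log (e3 m) ≤ L ∧ log (e3 m) - log (e3 n) ≤ L ∧ log (e3 m) ≤ 0.2522 * L) ∧
    (log (e1 n) + 0.3 * L ≤ 3 * log (e3 m) ∧
      log (e3 n) + 0.4 * L ≤ log (e1 m) + 2 * log (e3 m)) ∧
    log (e1 n) + log (e1 m) + log (e3 n) + log (e3 m) ≤ 1.002 * (L + 1) ∧
    log (e3 n) + log (e3 m) + (log (e2 n) + log (r4 n) + (log (e2 m) + log (r4 m))) ≤
      0.5124 * L ∧
    log (e2 n) + log (r4 n) + (log (e2 m) + log (r4 m)) ≤ 0.0165 * L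

theorem crit_class (N a : ℕ) (S : Finset ℕ) (ha : 0 < a)
    (hL : (10 : ℝ) ^ 7 ≤ log (N : ℝ))
    (hbig : 10 ^ 12 * (log (N : ℝ) + 10) ^ 4 ≤ Real.exp (0.00001 * log (N : ℝ)))
    (hdiv : ∀ D : ℕ, D ≠ 0 → (D : ℝ) ≤ 72 * (2 * (N : ℝ)) ^ 12 →
      (D.divisors.card : ℝ) ≤ Real.exp (0.00001 * log (N : ℝ)))
    (haN : (a : ℝ) ≤ 2 * Real.exp (0.002 * log (N : ℝ)))
    (hS : ∀ n ∈ S, 0 < n ∧ n + a ≤ 2 * N ∧ N ≤ 2 * n ∧ Nat.Coprime n a)
    (hK : ∀ n ∈ S, CritCond (log (N : ℝ)) n (n + a)) :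
    (S.card : ℝ) ≤ Real.exp (0.4957 * log (N : ℝ)) * EN (4 * N) ^ 2 := by
  classical
  set L := log (N : ℝ) with hLdef
  have hL0 : 0 < L := by linarith
  have hNpos : (0 : ℝ) < N := by
    rcases Nat.eq_zero_or_pos N with h | h
    · rw [h] at hLdef; simp at hLdef; linarith
    · exact_mod_cast h
  have hNexp : (N : ℝ) = Real.exp L := by rw [hLdef, Real.exp_log hNpos]
  refine class_bound S (fun n => (Am n, Am (n + a))) (4 * N) (Real.exp_pos _).le ?_ ?_
  · intro n hn
    obtain ⟨h1, h2, h3, h4⟩ := hS n hn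
    rw [Finset.mem_product, Finset.mem_Icc, Finset.mem_Icc]
    have e1 := Nat.le_of_dvd h1 (Am_dvd (m := n) h1.ne')
    have e2 := Nat.le_of_dvd (show 0 < n + a by omega) (Am_dvd (m := n + a) (by omega))
    exact ⟨⟨Am_pos n, by simp only; omega⟩, ⟨Am_pos _, by simp only; omega⟩⟩
  · intro i hi
    set A := Am i with hA
    set B := Am (i + a) with hB
    set F := S.filter (fun j => (Am j, Am (j + a)) = (A, B)) with hF
    have hFS : ∀ j ∈ F, j ∈ S ∧ Am j = A ∧ Am (j + a) = B := by
      intro j hj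
      rw [hF, Finset.mem_filter] at hj
      have := hj.2
      simp only [Prod.mk.injEq] at this
      exact ⟨hj.1, this.1, this.2⟩
    have hr1 : (0 : ℝ) < rad A := by exact_mod_cast rad_pos _
    have hr2 : (0 : ℝ) < rad B := by exact_mod_cast rad_pos _
    set r : ℝ := (rad A : ℝ) * rad B with hr
    have hr0 : 0 < r := by positivity
    -- log of r
    have hlogrA : ∀ j : ℕ, log ((rad (Am j) : ℕ) : ℝ) = log (e2 j) + log (r4 j) := by
      intro j
      unfold Am
      rw [rad_e2_e4]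
      push_cast
      have c2 : (0 : ℝ) < e2 j := by exact_mod_cast e2_pos
      have c5 : (0 : ℝ) < r4 j := by exact_mod_cast r4_pos
      rw [Real.log_mul c2.ne' c5.ne']
    have hlogr : ∀ j ∈ F, log r = log (e2 j) + log (r4 j) +
        (log (e2 (j + a)) + log (r4 (j + a))) := by
      intro j hj
      obtain ⟨h1, h2, h3⟩ := hFS j hj
      rw [hr, Real.log_mul hr1.ne' hr2.ne', ← h2, ← h3, hlogrA, hlogrA]
    have hiF : i ∈ F := by rw [hF, Finset.mem_filter]; exact ⟨hi, rfl⟩
    have hrle : r ≤ Real.exp (0.0165 * L) := by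
      apply le_of_log hr0 (Real.exp_pos _)
      rw [Real.log_exp, hlogr i hiF]
      exact (hK i hi).2.2.2.2.2.2
    -- parameters
    set Δ : ℝ := Real.exp (-(0.336 * L)) with hΔ
    set Y : ℝ := Real.exp (0.5124 * L) / r with hY
    set Λ : ℝ := Real.exp (0.0247 * L) with hΛ
    set dmax : ℝ := Real.exp (0.00001 * L) with hd
    set Q : ℝ := Real.exp (1.002 * (L + 1)) with hQ
    set G : ℕ := ⌈Real.exp (0.017 * L)⌉₊ with hG
    set W : ℕ := ⌊Real.exp (0.2522 * L)⌋₊ with hW
    set H : ℕ := ⌈200 * (G : ℝ) * (1 + (a : ℝ)) * Λ⌉₊ with hH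
    set J : ℕ := ⌈L / Δ + 1⌉₊ with hJ
    obtain ⟨num1, num2⟩ := crit_numeric (L := L) (r := r) (a' := (a : ℝ)) (Δ := Δ) (Y := Y)
      (Λ := Λ) (dmax := dmax) (Q := Q) (Nr := (N : ℝ)) (G := G) (H := H) (W := W) (J := J) hL hbig
      hr0 hrle (by positivity) haN hNexp hΔ hY hΛ hd hQ hG hW hH hJ
    have hΔ0 : 0 < Δ := Real.exp_pos _
    have hΔ1 : Δ ≤ 1 / 2 := by
      have h1 : Δ ≤ Real.exp (-1) := by
        rw [hΔ]; apply Real.exp_le_exp.2; linarith
      have h2 : Real.exp (-1) ≤ 1 / 2 := by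
        rw [Real.exp_neg, inv_eq_one_div]
        apply one_div_le_one_div_of_le (by norm_num)
        have := Real.add_one_le_exp (1 : ℝ)
        linarith
      linarith
    -- positivity of the data, logs and so on
    have c1 : ∀ j : ℕ, (0 : ℝ) < e1 j := fun j => by exact_mod_cast e1_pos
    have c2 : ∀ j : ℕ, (0 : ℝ) < e2 j := fun j => by exact_mod_cast e2_pos
    have c3 : ∀ j : ℕ, (0 : ℝ) < e3 j := fun j => by exact_mod_cast e3_pos
    have c4 : ∀ j : ℕ, (0 : ℝ) < e4 j := fun j => by exact_mod_cast e4_pos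
    have hcA : (0 : ℝ) < A := by exact_mod_cast Am_pos i
    have hcB : (0 : ℝ) < B := by exact_mod_cast Am_pos (i + a)
    have hlogA : ∀ j ∈ F, log (A : ℝ) = 2 * log (e2 j) + log (e4 j) := by
      intro j hj
      obtain ⟨h1, h2, h3⟩ := hFS j hj
      rw [← h2]
      unfold Am
      push_cast
      rw [Real.log_mul (pow_pos (c2 j) 2).ne' (c4 j).ne', Real.log_pow]
      push_cast; ring
    have hlogB : ∀ j ∈ F, log (B : ℝ) = 2 * log (e2 (j + a)) + log (e4 (j + a)) := by
      intro j hj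
      obtain ⟨h1, h2, h3⟩ := hFS j hj
      rw [← h3]
      unfold Am
      push_cast
      rw [Real.log_mul (pow_pos (c2 _) 2).ne' (c4 _).ne', Real.log_pow]
      push_cast; ring
    have hle : ∀ m : ℕ, 0 < m → m ≤ 2 * N → ∀ d : ℕ, d ∣ m → (d : ℤ) ≤ ((2 * N : ℕ) : ℤ) := by
      intro m hm0 hm d hd
      have := Nat.le_of_dvd hm0 hd
      exact_mod_cast this.trans hm
    have hmain := crit_fixed F (fun n => ((e1 n : ℕ) : ℤ)) (fun n => ((e1 (n + a) : ℕ) : ℤ))
      (fun n => ((e3 n : ℕ) : ℤ)) (fun n => ((e3 (n + a) : ℕ) : ℤ)) (A : ℤ) (B : ℤ) (a : ℤ)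
      ((2 * N : ℕ) : ℤ) (N := (N : ℝ)) (Q := Q) (Δ := Δ) (Y := Y) (Λ := Λ) (Lρ := L)
      (dmax := dmax) H G W J ?_ ?_ ?_ ?_ hNpos hΔ0 hΔ1 (Real.exp_pos _).le (by positivity)
      ?_ ?_ ?_ ?_ ?_ ?_ ?_ ?_ ?_ ?_ ?_ ?_ ?_ ?_ ?_ ?_ ?_ ?_ ?_ ?_ ?_
    · rw [le_div_iff₀ hr0]
      exact le_trans (mul_le_mul_of_nonneg_right hmain hr0.le) num1
    · -- 1 ≤ G
      rw [hG]
      exact Nat.one_le_ceil_iff.2 (Real.exp_pos _)
    · exact_mod_cast Am_pos i
    · exact_mod_cast Am_pos (i + a)
    · exact_mod_cast ha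
    · -- x bounds
      intro j hj
      obtain ⟨h1, h2, h3⟩ := hFS j hj
      obtain ⟨k1, k2, k3, k4⟩ := hS j h1
      exact ⟨by exact_mod_cast e1_pos, hle j k1 (by omega) _ (e1_dvd k1.ne')⟩
    · intro j hj
      obtain ⟨h1, h2, h3⟩ := hFS j hj
      obtain ⟨k1, k2, k3, k4⟩ := hS j h1
      exact ⟨by exact_mod_cast e1_pos, hle (j + a) (by omega) (by omega) _ (e1_dvd (by omega))⟩
    · intro j hj
      obtain ⟨h1, h2, h3⟩ := hFS j hj
      obtain ⟨k1, k2, k3, k4⟩ := hS j h1
      exact ⟨by exact_mod_cast e3_pos, hle j k1 (by omega) _ (e3_dvd k1.ne')⟩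
    · intro j hj
      obtain ⟨h1, h2, h3⟩ := hFS j hj
      obtain ⟨k1, k2, k3, k4⟩ := hS j h1
      exact ⟨by exact_mod_cast e3_pos, hle (j + a) (by omega) (by omega) _ (e3_dvd (by omega))⟩
    · -- w ≤ W
      intro j hj
      obtain ⟨h1, h2, h3⟩ := hFS j hj
      have h4 := (hK j h1).2.2.1.2.2
      have h5 : e3 (j + a) ≤ W := by
        rw [hW]
        apply Nat.le_floor
        apply le_of_log (c3 _) (Real.exp_pos _)
        rw [Real.log_exp]; exact h4
      exact_mod_cast h5
    · -- n = A x z^3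
      intro j hj
      obtain ⟨h1, h2, h3⟩ := hFS j hj
      obtain ⟨k1, k2, k3, k4⟩ := hS j h1
      have := decompA (m := j) k1.ne'
      rw [h2] at this
      exact_mod_cast this
    · -- equation
      intro j hj
      obtain ⟨h1, h2, h3⟩ := hFS j hj
      obtain ⟨k1, k2, k3, k4⟩ := hS j h1
      have e1' := decompA (m := j) k1.ne'
      have e2' := decompA (m := j + a) (by omega)
      rw [h2] at e1'
      rw [h3] at e2'
      have e3' : B * e1 (j + a) * e3 (j + a) ^ 3 = A * e1 j * e3 j ^ 3 + a := by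
        rw [← e1', ← e2']
      exact_mod_cast e3'
    · -- coprime x y
      intro j hj
      obtain ⟨h1, h2, h3⟩ := hFS j hj
      obtain ⟨k1, k2, k3, k4⟩ := hS j h1
      have hco : Nat.Coprime j (j + a) := by
        rw [Nat.coprime_self_add_right]; exact k4
      exact Nat.isCoprime_iff_coprime.2
        ((hco.coprime_dvd_left (e1_dvd k1.ne')).coprime_dvd_right (e1_dvd (by omega)))
    · intro j hj
      obtain ⟨h1, h2, h3⟩ := hFS j hj
      obtain ⟨k1, k2, k3, k4⟩ := hS j h1
      have hco : Nat.Coprime j (j + a) := by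
        rw [Nat.coprime_self_add_right]; exact k4
      exact Nat.isCoprime_iff_coprime.2
        ((hco.coprime_dvd_left (e3_dvd k1.ne')).coprime_dvd_right (e3_dvd (by omega)))
    · intro j hj
      obtain ⟨h1, h2, h3⟩ := hFS j hj
      obtain ⟨k1, k2, k3, k4⟩ := hS j h1
      have hco : Nat.Coprime j (j + a) := by
        rw [Nat.coprime_self_add_right]; exact k4
      have hco2 := ((hco.coprime_dvd_left (Ae3_dvd k1.ne')).coprime_dvd_right
        (Ae3_dvd (m := j + a) (by omega)))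
      rw [h2, h3] at hco2
      have := Nat.isCoprime_iff_coprime.2 hco2
      push_cast at this
      exact this
    · -- x < w^3
      intro j hj
      obtain ⟨h1, h2, h3⟩ := hFS j hj
      have h4 := (hK j h1).2.2.2.1.1
      have h5 : (e1 j : ℝ) < (e3 (j + a) : ℝ) ^ 3 := by
        apply lt_of_log (c1 _) (pow_pos (c3 _) 3)
        rw [Real.log_pow]
        push_cast
        linarith
      exact_mod_cast h5
    · -- N / 2 ≤ n
      intro j hj
      obtain ⟨h1, h2, h3⟩ := hFS j hj
      obtain ⟨k1, k2, k3, k4⟩ := hS j h1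
      have e1' := decompA (m := j) k1.ne'
      rw [h2] at e1'
      have e2' : (j : ℝ) = A * e1 j * (e3 j : ℝ) ^ 3 := by exact_mod_cast e1'
      have e3' : (N : ℝ) ≤ 2 * j := by exact_mod_cast k3
      rw [e2'] at e3'
      push_cast
      linarith
    · -- Q
      intro j hj
      obtain ⟨h1, h2, h3⟩ := hFS j hj
      have h4 := (hK j h1).2.2.2.2.1
      push_cast
      have p1 := c1 j
      have p2 := c1 (j + a)
      have p3 := c3 j
      have p4 := c3 (j + a)
      apply le_of_log (by positivity) (Real.exp_pos _)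
      rw [Real.log_exp, Real.log_mul (by positivity) (by positivity),
        Real.log_mul (by positivity) (by positivity), Real.log_mul (by positivity) (by positivity)]
      linarith
    · -- Y
      intro j hj
      obtain ⟨h1, h2, h3⟩ := hFS j hj
      have h4 := (hK j h1).2.2.2.2.2.1
      push_cast
      have p3 := c3 j
      have p4 := c3 (j + a)
      rw [hY, le_div_iff₀ hr0]
      apply le_of_log (by positivity) (Real.exp_pos _)
      rw [Real.log_exp, Real.log_mul (by positivity) (by positivity),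
        Real.log_mul (by positivity) (by positivity), hlogr j hj]
      linarith
    · -- log ρ
      intro j hj
      obtain ⟨h1, h2, h3⟩ := hFS j hj
      have h4 := (hK j h1).2.2.1
      push_cast
      rw [Real.log_div (c3 _).ne' (c3 _).ne', abs_le]
      constructor
      · linarith [h4.2.1]
      · linarith [h4.1]
    · -- J
      rw [hJ]; exact Nat.le_ceil _
    · -- Λ
      intro j hj
      obtain ⟨h1, h2, h3⟩ := hFS j hj
      obtain ⟨⟨q1, q2, q3, q4⟩, ⟨q5, q6, q7, q8⟩, -⟩ := hK j h1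
      have p1 := c1 j
      have p2 := c1 (j + a)
      have p3 := c3 j
      have p4 := c3 (j + a)
      have lA := hlogA j hj
      have lB := hlogB j hj
      push_cast
      have hΛ0 : 0 < Λ := Real.exp_pos _
      have lΛ : log Λ = 0.0247 * L := by rw [hΛ, Real.log_exp]
      refine ⟨?_, ?_, ?_, ?_, ?_, ?_, ?_, ?_⟩
      · apply le_of_log p1 (by positivity)
        rw [Real.log_mul hΛ0.ne' p3.ne', lΛ]; exact q1
      · apply le_of_log p1 (by positivity)
        rw [Real.log_mul hΛ0.ne' p4.ne', lΛ]; exact q2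
      · apply le_of_log p2 (by positivity)
        rw [Real.log_mul hΛ0.ne' p3.ne', lΛ]; exact q3
      · apply le_of_log p2 (by positivity)
        rw [Real.log_mul hΛ0.ne' p4.ne', lΛ]; exact q4
      · apply le_of_log p4 (by positivity)
        rw [Real.log_mul (by positivity) p3.ne', Real.log_mul hΛ0.ne' hcA.ne', lΛ, lA]
        exact q5
      · apply le_of_log (by positivity) (by positivity)
        rw [Real.log_mul (by positivity) (by positivity), Real.log_mul hΛ0.ne' hcA.ne', lΛ, lA,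
          Real.log_pow, Real.log_pow]
        push_cast
        exact q6
      · apply le_of_log p3 (by positivity)
        rw [Real.log_mul (by positivity) p4.ne', Real.log_mul hΛ0.ne' hcB.ne', lΛ, lB]
        exact q7
      · apply le_of_log (by positivity) (by positivity)
        rw [Real.log_mul (by positivity) (by positivity), Real.log_mul hΛ0.ne' hcB.ne', lΛ, lB,
          Real.log_pow, Real.log_pow]
        push_cast
        exact q8
    · -- 64 a z < y w^2
      intro j hj
      obtain ⟨h1, h2, h3⟩ := hFS j hj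
      have h4 := (hK j h1).2.2.2.1.2
      have p2 := c1 (j + a)
      have p3 := c3 j
      have p4 := c3 (j + a)
      have hapos : (0 : ℝ) < a := by exact_mod_cast ha
      have hloga : log (a : ℝ) ≤ 1 + 0.002 * L := by
        have h5 := Real.log_le_log hapos haN
        rw [Real.log_mul (by norm_num) (Real.exp_pos _).ne', Real.log_exp] at h5
        have h6 : log (2 : ℝ) ≤ 1 := by
          have := Real.log_two_lt_d9; linarith
        linarith
      have hlog64 : log (64 : ℝ) ≤ 6 := by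
        have : (64 : ℝ) = 2 ^ 6 := by norm_num
        rw [this, Real.log_pow]
        have := Real.log_two_lt_d9
        push_cast
        linarith
      have h5 : 64 * (a : ℝ) * e3 j < e1 (j + a) * (e3 (j + a) : ℝ) ^ 2 := by
        apply lt_of_log (by positivity) (by positivity)
        rw [Real.log_mul (by positivity) p3.ne', Real.log_mul (by norm_num) hapos.ne',
          Real.log_mul p2.ne' (by positivity), Real.log_pow]
        push_cast
        linarith
      exact_mod_cast h5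
    · -- small
      push_cast
      exact num2
    · -- divisors
      intro D hD hDV
      have h1 := hdiv D.natAbs (Int.natAbs_ne_zero.2 hD) (by
        have h2 : ((|D| : ℤ) : ℝ) ≤ ((72 * ((2 * N : ℕ) : ℤ) ^ 12 : ℤ) : ℝ) := by
          exact_mod_cast hDV
        rw [Nat.cast_natAbs]
        refine h2.trans (le_of_eq ?_)
        push_cast
        ring)
      exact h1
    · -- H
      push_cast
      rw [hH]
      exact Nat.le_ceil _

end Pool.Agent.Helper94.Abc
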