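import Mathlib

set_option autoImplicit false

/-!
The linear programme: outside the easy classes the shape of `n` and `n + a` is critical.
-/

namespace Pool.Agent.Helper94.Abc

/-- Outside the easy classes the cubefull parts have radicals of size about `N^(1/2)`. -/
lemma lp_one {L a1 a2 a3 a4 ar b1 b2 b3 b4 br : ℝ} (hL : 10 ^ 7 ≤ L)
    (ha1 : 0 ≤ a1) (ha2 : 0 ≤ a2) (ha3 : 0 ≤ a3) (har : 0 ≤ ar) (ha4 : 4 * ar ≤ a4)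
    (hb1 : 0 ≤ b1) (hb2 : 0 ≤ b2) (hb3 : 0 ≤ b3) (hbr : 0 ≤ br) (hb4 : 4 * br ≤ b4)
    (hna : L - 1 ≤ a1 + 2 * a2 + 3 * a3 + a4) (hna' : a1 + 2 * a2 + 3 * a3 + a4 ≤ L + 1)
    (hnb : L - 1 ≤ b1 + 2 * b2 + 3 * b3 + b4) (hnb' : b1 + 2 * b2 + 3 * b3 + b4 ≤ L + 1)
    (hW : a1 + a2 + a3 + ar + (b1 + b2 + b3 + br) ≤ 1.002 * (L + 1))
    (nT1 : 0.4959 * L < a1 + a2 + a3 + ar) (nT2 : 0.4959 * L < b1 + b2 + b3 + br)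
    (nP : 0.4939 * L < a1 + a3 + ar + (b1 + b3 + br))
    (nL : ¬ (a3 + ar + (b3 + br) ≤ 0.4959 * L ∧
      1 + L + (a3 + ar + (b3 + br)) ≤ 0.4959 * L + (3 * a3 + a4 + (3 * b3 + b4))))
    (nQb : ¬ (a3 + ar + (b1 + b3 + br) ≤ 0.4959 * L ∧
      a3 + ar + (b1 + b3 + br) + b2 ≤ 0.4959 * L + (3 * a3 + a4)))
    (nQa : ¬ (b3 + br + (a1 + a3 + ar) ≤ 0.4959 * L ∧
      b3 + br + (a1 + a3 + ar) + a2 ≤ 0.4959 * L + (3 * b3 + b4))) :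
    0.4959 * L < a3 + ar + (b3 + br) := by
  by_contra hcon
  push Not at hcon
  have h1 : 0.4959 * L + (3 * a3 + a4 + (3 * b3 + b4)) < 1 + L + (a3 + ar + (b3 + br)) := by
    by_contra h
    push Not at h
    exact nL ⟨hcon, h⟩
  -- w2 is about 1/2
  have hw2 : 0.49385 * L ≤ a2 + b2 := by linarith
  have hh : a3 + ar + (b3 + br) ≤ 0.2573 * L := by linarith
  rcases not_and_or.1 nQb with h2 | h2
  · rcases not_and_or.1 nQa with h3 | h3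
    · push Not at h2 h3
      linarith
    · push Not at h2 h3
      -- b2 large
      have hb2 : 0.49385 * L ≤ b2 := by linarith
      have ha2' : a2 ≤ 0.02 * L := by linarith
      apply nQb
      constructor
      · linarith
      · linarith
  · push Not at h2
    have ha2' : 0.49385 * L ≤ a2 := by linarith
    have hb2' : b2 ≤ 0.02 * L := by linarith
    apply nQa
    constructor
    · linarith
    · linarith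

/-- Consequences of the critical shape. -/
lemma lp_two {L a1 a2 a3 a4 ar b1 b2 b3 b4 br : ℝ} (hL : 10 ^ 7 ≤ L)
    (ha1 : 0 ≤ a1) (ha2 : 0 ≤ a2) (ha3 : 0 ≤ a3) (har : 0 ≤ ar) (ha4 : 4 * ar ≤ a4)
    (hb1 : 0 ≤ b1) (hb2 : 0 ≤ b2) (hb3 : 0 ≤ b3) (hbr : 0 ≤ br) (hb4 : 4 * br ≤ b4)
    (hna : L - 1 ≤ a1 + 2 * a2 + 3 * a3 + a4) (hna' : a1 + 2 * a2 + 3 * a3 + a4 ≤ L + 1)
    (hnb : L - 1 ≤ b1 + 2 * b2 + 3 * b3 + b4) (hnb' : b1 + 2 * b2 + 3 * b3 + b4 ≤ L + 1)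
    (hW : a1 + a2 + a3 + ar + (b1 + b2 + b3 + br) ≤ 1.002 * (L + 1))
    (nT1 : 0.4959 * L < a1 + a2 + a3 + ar) (nT2 : 0.4959 * L < b1 + b2 + b3 + br)
    (hh : 0.4959 * L < a3 + ar + (b3 + br)) :
    (a1 ≤ 0.0247 * L + a3 ∧ a1 ≤ 0.0247 * L + b3 ∧ b1 ≤ 0.0247 * L + a3 ∧
      b1 ≤ 0.0247 * L + b3) ∧
    (b3 ≤ 0.0247 * L + (2 * a2 + a4) + a3 ∧ 2 * b3 ≤ 0.0247 * L + (2 * a2 + a4) + 2 * a3 ∧
      a3 ≤ 0.0247 * L + (2 * b2 + b4) + b3 ∧ 2 * a3 ≤ 0.0247 * L + (2 * b2 + b4) + 2 * b3) ∧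
    (a3 - b3 ≤ L ∧ b3 - a3 ≤ L ∧ b3 ≤ 0.2522 * L) ∧
    (a1 + 0.3 * L ≤ 3 * b3 ∧ a3 + 0.4 * L ≤ b1 + 2 * b3) ∧
    a1 + b1 + a3 + b3 ≤ 1.002 * (L + 1) ∧
    a3 + b3 + (a2 + ar + (b2 + br)) ≤ 0.5124 * L ∧
    a2 + ar + (b2 + br) ≤ 0.0165 * L := by
  refine ⟨⟨?_, ?_, ?_, ?_⟩, ⟨?_, ?_, ?_, ?_⟩, ⟨?_, ?_, ?_⟩, ⟨?_, ?_⟩, ?_, ?_, ?_⟩ <;> linarith

end Pool.Agent.Helper94.Abc
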