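import Mathlib
import Pool.Agent.Helper94.Abc.CritClass2
import Pool.Agent.Helper94.Abc.LP

set_option autoImplicit false

/-!
The bound for a dyadic block and a fixed small entry.
-/

namespace Pool.Agent.Helper94.Abc

open Finset Real
open Pool.Agent.Helper26.RadSum (rad rad_pos one_le_rad rad_mul_of_coprime)

/-- cubefull part -/
def cf (m : ℕ) : ℕ := e3 m ^ 3 * e4 m
/-- `m` divided by the square of `e2 m` -/
def tf (m : ℕ) : ℕ := e1 m * e3 m ^ 3 * e4 m

lemma cf_pos (m : ℕ) : 0 < cf m := Nat.mul_pos (pow_pos e3_pos _) e4_pos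
lemma tf_pos (m : ℕ) : 0 < tf m := Nat.mul_pos (Nat.mul_pos e1_pos (pow_pos e3_pos _)) e4_pos

lemma tf_mul {m : ℕ} (hm : m ≠ 0) : tf m * e2 m ^ 2 = m := by
  conv_rhs => rw [decomp hm]
  unfold tf; ring

lemma cf_dvd {m : ℕ} (hm : m ≠ 0) : cf m ∣ m := ⟨e1 m * e2 m ^ 2, by
  conv_lhs => rw [decomp hm]
  unfold cf; ring⟩

lemma tf_dvd {m : ℕ} (hm : m ≠ 0) : tf m ∣ m := ⟨e2 m ^ 2, (tf_mul hm).symm⟩

lemma sk_dvd {m : ℕ} (hm : m ≠ 0) : sk m ∣ m := ⟨qk m ^ 2, sk_qk hm⟩

lemma log_rad_cf (m : ℕ) : log (rad (cf m) : ℝ) = log (e3 m) + log (r4 m) := by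
  unfold cf
  rw [rad_e3_e4]
  push_cast
  have c3 : (0 : ℝ) < e3 m := by exact_mod_cast e3_pos
  have c5 : (0 : ℝ) < r4 m := by exact_mod_cast r4_pos
  rw [Real.log_mul c3.ne' c5.ne']

lemma log_cf (m : ℕ) : log (cf m : ℝ) = 3 * log (e3 m) + log (e4 m) := by
  unfold cf
  push_cast
  have c3 : (0 : ℝ) < e3 m := by exact_mod_cast e3_pos
  have c4 : (0 : ℝ) < e4 m := by exact_mod_cast e4_pos
  rw [Real.log_mul (by positivity) c4.ne', Real.log_pow]
  push_cast; ring

lemma log_rad_tf (m : ℕ) : log (rad (tf m) : ℝ) = log (e1 m) + log (e3 m) + log (r4 m) := by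
  unfold tf
  rw [rad_e1_e3_e4]
  push_cast
  have c1 : (0 : ℝ) < e1 m := by exact_mod_cast e1_pos
  have c3 : (0 : ℝ) < e3 m := by exact_mod_cast e3_pos
  have c5 : (0 : ℝ) < r4 m := by exact_mod_cast r4_pos
  rw [Real.log_mul (by positivity) c5.ne', Real.log_mul c1.ne' c3.ne']

/-- Every element of a block lies in one of the classes. -/
lemma cover {N n a : ℕ} (hL : (10 : ℝ) ^ 7 ≤ log (N : ℝ)) (hn0 : 0 < n)
    (hn1 : n + a ≤ 2 * N) (hn2 : N ≤ 2 * n) (hn3 : N < n + a)
    (hW : (rad n : ℝ) * rad (n + a) ≤ Real.exp (1.002 * (log (N : ℝ) + 1)))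
    (n1 : ¬ ((rad n : ℝ) ≤ Real.exp (0.4959 * log (N : ℝ))))
    (n2 : ¬ ((rad (n + a) : ℝ) ≤ Real.exp (0.4959 * log (N : ℝ))))
    (n3 : ¬ ((sk n : ℝ) * sk (n + a) ≤ Real.exp (0.4939 * log (N : ℝ))))
    (n4 : ¬ ((rad (cf n) : ℝ) * rad (cf (n + a)) ≤ Real.exp (0.4959 * log (N : ℝ)) ∧
      2 * (N : ℝ) * ((rad (cf n) : ℝ) * rad (cf (n + a))) ≤
        Real.exp (0.4959 * log (N : ℝ)) * ((cf n : ℝ) * cf (n + a))))
    (n5 : ¬ ((rad (cf n) : ℝ) * rad (tf (n + a)) ≤ Real.exp (0.4959 * log (N : ℝ)) ∧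
      ((rad (cf n) : ℝ) * rad (tf (n + a))) * e2 (n + a) ≤
        Real.exp (0.4959 * log (N : ℝ)) * cf n))
    (n6 : ¬ ((rad (cf (n + a)) : ℝ) * rad (tf n) ≤ Real.exp (0.4959 * log (N : ℝ)) ∧
      ((rad (cf (n + a)) : ℝ) * rad (tf n)) * e2 n ≤
        Real.exp (0.4959 * log (N : ℝ)) * cf (n + a))) :
    CritCond (log (N : ℝ)) n (n + a) := by
  set L := log (N : ℝ) with hLdef
  have hNpos : (0 : ℝ) < N := by
    rcases Nat.eq_zero_or_pos N with h | h
    · rw [h] at hLdef; simp at hLdef; linarith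
    · exact_mod_cast h
  obtain ⟨a1, a2, a3, a5, a6, a7, a8, a9⟩ := log_data (m := n) hn0.ne'
  obtain ⟨b1, b2, b3, b5, b6, b7, b8, b9⟩ := log_data (m := n + a) (by omega)
  have hlog2 : log (2 : ℝ) ≤ 1 := by
    have := Real.log_two_lt_d9; linarith
  have hlog2' : 0 ≤ log (2 : ℝ) := Real.log_nonneg (by norm_num)
  have hnR : (0 : ℝ) < n := by exact_mod_cast hn0
  have hmR : (0 : ℝ) < ((n + a : ℕ) : ℝ) := by exact_mod_cast (show 0 < n + a by omega)
  -- sizes of n, n + a
  have u1 : L - 1 ≤ log (n : ℝ) := by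
    have h1 : (N : ℝ) ≤ 2 * n := by exact_mod_cast hn2
    have h2 := Real.log_le_log hNpos h1
    rw [Real.log_mul (by norm_num) hnR.ne'] at h2
    linarith
  have u2 : log (n : ℝ) ≤ L + 1 := by
    have h1 : (n : ℝ) ≤ 2 * N := by exact_mod_cast (show n ≤ 2 * N by omega)
    have h2 := Real.log_le_log hnR h1
    rw [Real.log_mul (by norm_num) hNpos.ne'] at h2
    linarith
  have u3 : L - 1 ≤ log ((n + a : ℕ) : ℝ) := by
    have h1 : (N : ℝ) ≤ ((n + a : ℕ) : ℝ) := by exact_mod_cast hn3.le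
    have h2 := Real.log_le_log hNpos h1
    linarith
  have u4 : log ((n + a : ℕ) : ℝ) ≤ L + 1 := by
    have h1 : ((n + a : ℕ) : ℝ) ≤ 2 * N := by exact_mod_cast hn1
    have h2 := Real.log_le_log hmR h1
    rw [Real.log_mul (by norm_num) hNpos.ne'] at h2
    linarith
  have r1 : (0 : ℝ) < rad n := by exact_mod_cast rad_pos _
  have r2 : (0 : ℝ) < rad (n + a) := by exact_mod_cast rad_pos _
  have r3 : (0 : ℝ) < rad (cf n) := by exact_mod_cast rad_pos _
  have r4' : (0 : ℝ) < rad (cf (n + a)) := by exact_mod_cast rad_pos _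
  have r5 : (0 : ℝ) < rad (tf n) := by exact_mod_cast rad_pos _
  have r6 : (0 : ℝ) < rad (tf (n + a)) := by exact_mod_cast rad_pos _
  have s1 : (0 : ℝ) < sk n := by exact_mod_cast sk_pos
  have s2 : (0 : ℝ) < sk (n + a) := by exact_mod_cast sk_pos
  have q1 : (0 : ℝ) < cf n := by exact_mod_cast cf_pos n
  have q2 : (0 : ℝ) < cf (n + a) := by exact_mod_cast cf_pos (n + a)
  have q3 : (0 : ℝ) < e2 n := by exact_mod_cast e2_pos
  have q4 : (0 : ℝ) < e2 (n + a) := by exact_mod_cast e2_pos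
  have w1 : log (rad n : ℝ) + log (rad (n + a) : ℝ) ≤ 1.002 * (L + 1) := by
    have h1 := Real.log_le_log (by positivity) hW
    rwa [Real.log_exp, Real.log_mul r1.ne' r2.ne'] at h1
  have m1 : 0.4959 * L < log (rad n : ℝ) := by
    push Not at n1
    have := Real.log_lt_log (Real.exp_pos _) n1
    rwa [Real.log_exp] at this
  have m2 : 0.4959 * L < log (rad (n + a) : ℝ) := by
    push Not at n2
    have := Real.log_lt_log (Real.exp_pos _) n2
    rwa [Real.log_exp] at this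
  have m3 : 0.4939 * L < log (sk n : ℝ) + log (sk (n + a) : ℝ) := by
    push Not at n3
    have := Real.log_lt_log (Real.exp_pos _) n3
    rwa [Real.log_exp, Real.log_mul s1.ne' s2.ne'] at this
  have m4 : ¬ (log (e3 n) + log (r4 n) + (log (e3 (n + a)) + log (r4 (n + a))) ≤ 0.4959 * L ∧
      1 + L + (log (e3 n) + log (r4 n) + (log (e3 (n + a)) + log (r4 (n + a)))) ≤
        0.4959 * L + (3 * log (e3 n) + log (e4 n) +
          (3 * log (e3 (n + a)) + log (e4 (n + a))))) := by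
    rintro ⟨h1, h2⟩
    apply n4
    constructor
    · apply le_of_log (by positivity) (Real.exp_pos _)
      rw [Real.log_exp, Real.log_mul r3.ne' r4'.ne', log_rad_cf, log_rad_cf]
      exact h1
    · apply le_of_log (by positivity) (by positivity)
      rw [Real.log_mul (by positivity) (by positivity), Real.log_mul (by norm_num) hNpos.ne',
        Real.log_mul r3.ne' r4'.ne', log_rad_cf, log_rad_cf, Real.log_mul (by positivity)
        (by positivity), Real.log_exp, Real.log_mul q1.ne' q2.ne', log_cf, log_cf]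
      linarith
  have m5 : ¬ (log (e3 n) + log (r4 n) + (log (e1 (n + a)) + log (e3 (n + a)) +
      log (r4 (n + a))) ≤ 0.4959 * L ∧
      log (e3 n) + log (r4 n) + (log (e1 (n + a)) + log (e3 (n + a)) + log (r4 (n + a))) +
        log (e2 (n + a)) ≤ 0.4959 * L + (3 * log (e3 n) + log (e4 n))) := by
    rintro ⟨h1, h2⟩
    apply n5
    constructor
    · apply le_of_log (by positivity) (Real.exp_pos _)
      rw [Real.log_exp, Real.log_mul r3.ne' r6.ne', log_rad_cf, log_rad_tf]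
      exact h1
    · apply le_of_log (by positivity) (by positivity)
      rw [Real.log_mul (by positivity) q4.ne', Real.log_mul r3.ne' r6.ne', log_rad_cf,
        log_rad_tf, Real.log_mul (by positivity) q1.ne', Real.log_exp, log_cf]
      exact h2
  have m6 : ¬ (log (e3 (n + a)) + log (r4 (n + a)) + (log (e1 n) + log (e3 n) +
      log (r4 n)) ≤ 0.4959 * L ∧
      log (e3 (n + a)) + log (r4 (n + a)) + (log (e1 n) + log (e3 n) + log (r4 n)) +
        log (e2 n) ≤ 0.4959 * L + (3 * log (e3 (n + a)) + log (e4 (n + a)))) := by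
    rintro ⟨h1, h2⟩
    apply n6
    constructor
    · apply le_of_log (by positivity) (Real.exp_pos _)
      rw [Real.log_exp, Real.log_mul r4'.ne' r5.ne', log_rad_cf, log_rad_tf]
      exact h1
    · apply le_of_log (by positivity) (by positivity)
      rw [Real.log_mul (by positivity) q3.ne', Real.log_mul r4'.ne' r5.ne', log_rad_cf,
        log_rad_tf, Real.log_mul (by positivity) q2.ne', Real.log_exp, log_cf]
      exact h2
  have hlp1 := lp_one (L := L) hL a1 a2 a3 a5 a6 b1 b2 b3 b5 b6 (by linarith) (by linarith)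
    (by linarith) (by linarith) (by linarith) (by linarith) (by linarith) (by linarith) m4 m5 m6
  have hlp2 := lp_two (L := L) hL a1 a2 a3 a5 a6 b1 b2 b3 b5 b6 (by linarith) (by linarith)
    (by linarith) (by linarith) (by linarith) (by linarith) (by linarith) hlp1
  exact hlp2

end Pool.Agent.Helper94.Abc
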