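import Mathlib
import Pool.Agent.Helper94.Abc.Block

set_option autoImplicit false

/-!
The bound for a dyadic block and a fixed small entry: the final count.
-/

namespace Pool.Agent.Helper94.Abc

open Finset Real
open Pool.Agent.Helper26.RadSum (rad rad_pos one_le_rad rad_mul_of_coprime)

theorem block_count {N a : ℕ} (ha : 0 < a) (hL : (10 : ℝ) ^ 7 ≤ log (N : ℝ))
    (hbig : 10 ^ 12 * (log (N : ℝ) + 10) ^ 4 ≤ Real.exp (0.00001 * log (N : ℝ)))
    (hdiv : ∀ D : ℕ, D ≠ 0 → (D : ℝ) ≤ 72 * (2 * (N : ℝ)) ^ 12 →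
      (D.divisors.card : ℝ) ≤ Real.exp (0.00001 * log (N : ℝ)))
    (hEN : EN (4 * N) ≤ Real.exp (0.00001 * log (N : ℝ)))
    (haN : (a : ℝ) ≤ 2 * Real.exp (0.002 * log (N : ℝ)))
    (S : Finset ℕ)
    (hS : ∀ n ∈ S, 0 < n ∧ n + a ≤ 2 * N ∧ N < n + a ∧ Nat.Coprime n a ∧
      (rad n : ℝ) * rad (n + a) ≤ Real.exp (1.002 * (log (N : ℝ) + 1))) :
    (S.card : ℝ) ≤ Real.exp (0.496 * log (N : ℝ)) := by
  classical
  set L := log (N : ℝ) with hLdef
  set t := Real.exp (0.00001 * L) with ht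
  set T := Real.exp (0.4959 * L) with hT
  set T1 := Real.exp (0.4939 * L) with hT1
  have hL0 : 0 < L := by linarith
  have ht0 : 0 < t := Real.exp_pos _
  have hT0 : 0 < T := Real.exp_pos _
  have hT10 : 0 < T1 := Real.exp_pos _
  have hNpos : (0 : ℝ) < N := by
    rcases Nat.eq_zero_or_pos N with h | h
    · rw [h] at hLdef; simp at hLdef; linarith
    · exact_mod_cast h
  have hNnat : 0 < N := by exact_mod_cast hNpos
  have hNexp : (N : ℝ) = Real.exp L := by rw [hLdef, Real.exp_log hNpos]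
  have hL10 : (10 : ℝ) ^ 4 ≤ (L + 10) ^ 4 := by gcongr; linarith
  have ht16 : (10 : ℝ) ^ 16 ≤ t := by linarith
  have ht1 : 1 ≤ t := by linarith
  -- `2 a ≤ N`
  have h2a : 2 * a ≤ N := by
    have h1 : 2 * (a : ℝ) ≤ N := by
      have h2 : Real.exp L = Real.exp (0.998 * L) * Real.exp (0.002 * L) := by
        rw [← Real.exp_add]; congr 1; ring
      have h3 : 4 ≤ Real.exp (0.998 * L) := by
        have := Real.add_one_le_exp (0.998 * L)
        linarith
      rw [hNexp, h2]
      have h4 := Real.exp_pos (0.002 * L)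
      nlinarith
    exact_mod_cast h1
  have hS' : ∀ n ∈ S, 0 < n ∧ n + a ≤ 2 * N ∧ N < n + a ∧ Nat.Coprime n a ∧
      (rad n : ℝ) * rad (n + a) ≤ Real.exp (1.002 * (L + 1)) ∧ N ≤ 2 * n := by
    intro n hn
    obtain ⟨h1, h2, h3, h4, h5⟩ := hS n hn
    exact ⟨h1, h2, h3, h4, h5, by omega⟩
  -- classes
  set P1 : ℕ → Prop := fun n => (rad n : ℝ) ≤ T with hP1
  set P2 : ℕ → Prop := fun n => (rad (n + a) : ℝ) ≤ T with hP2
  set P3 : ℕ → Prop := fun n => (sk n : ℝ) * sk (n + a) ≤ T1 with hP3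
  set P4 : ℕ → Prop := fun n => (rad (cf n) : ℝ) * rad (cf (n + a)) ≤ T ∧
      2 * (N : ℝ) * ((rad (cf n) : ℝ) * rad (cf (n + a))) ≤ T * ((cf n : ℝ) * cf (n + a)) with hP4
  set P5 : ℕ → Prop := fun n => (rad (cf n) : ℝ) * rad (tf (n + a)) ≤ T ∧
      ((rad (cf n) : ℝ) * rad (tf (n + a))) * e2 (n + a) ≤ T * cf n with hP5
  set P6 : ℕ → Prop := fun n => (rad (cf (n + a)) : ℝ) * rad (tf n) ≤ T ∧
      ((rad (cf (n + a)) : ℝ) * rad (tf n)) * e2 n ≤ T * cf (n + a) with hP6
  set P7 : ℕ → Prop := fun n => CritCond L n (n + a) with hP7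
  have hcover : S ⊆ S.filter P1 ∪ S.filter P2 ∪ S.filter P3 ∪ S.filter P4 ∪ S.filter P5 ∪
      S.filter P6 ∪ S.filter P7 := by
    intro n hn
    obtain ⟨h1, h2, h3, h4, h5, h6⟩ := hS' n hn
    by_cases c1 : P1 n
    · simp [hn, c1]
    by_cases c2 : P2 n
    · simp [hn, c2]
    by_cases c3 : P3 n
    · simp [hn, c3]
    by_cases c4 : P4 n
    · simp [hn, c4]
    by_cases c5 : P5 n
    · simp [hn, c5]
    by_cases c6 : P6 n
    · simp [hn, c6]
    have c7 : P7 n := cover hL h1 h2 h6 h3 h5 c1 c2 c3 c4 c5 c6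
    simp [hn, c7]
  have hmem : ∀ n ∈ S, ∀ d : ℕ, 0 < d → d ∣ n → d ∈ Finset.Icc 1 (4 * N) := by
    intro n hn d hd0 hd
    obtain ⟨h1, h2, h3, h4, h5, h6⟩ := hS' n hn
    rw [Finset.mem_Icc]
    have := Nat.le_of_dvd h1 hd
    omega
  have hmem' : ∀ n ∈ S, ∀ d : ℕ, 0 < d → d ∣ n + a → d ∈ Finset.Icc 1 (4 * N) := by
    intro n hn d hd0 hd
    obtain ⟨h1, h2, h3, h4, h5, h6⟩ := hS' n hn
    rw [Finset.mem_Icc]
    have := Nat.le_of_dvd (by omega) hd
    omega
  have hdvn : ∀ n ∈ S, ∀ d : ℕ, 0 < d → d ≤ 2 * N → (d.divisors.card : ℝ) ≤ t := by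
    intro n hn d hd0 hd
    apply hdiv d (by omega)
    have h1 : (d : ℝ) ≤ 2 * N := by exact_mod_cast hd
    have h2 : (1 : ℝ) ≤ 2 * N := by
      have : (1 : ℝ) ≤ N := by exact_mod_cast hNnat
      linarith
    have h3 : 2 * (N : ℝ) ≤ (2 * (N : ℝ)) ^ 12 := le_self_pow₀ h2 (by norm_num)
    have h4 : 0 ≤ (2 * (N : ℝ)) ^ 12 := by positivity
    linarith
  set E := EN (4 * N) with hE
  have hE0 : 0 ≤ E := EN_nonneg _
  have hE1 : 1 ≤ E := by
    rw [hE]
    unfold EN
    have h1 : (1 : ℕ) ∈ Finset.Icc 1 (4 * N) := by rw [Finset.mem_Icc]; omega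
    have h2 := Finset.single_le_sum (f := fun m : ℕ => 1 / (rad m : ℝ))
      (fun i _ => by positivity) h1
    have h3 : rad 1 = 1 := by simp [rad]
    simp only [h3, Nat.cast_one, div_one] at h2
    exact h2
  -- the seven counts
  have C1 : ((S.filter P1).card : ℝ) ≤ T * E := by
    apply trivial_class _ _ hT0.le
    intro n hn
    rw [Finset.mem_filter] at hn
    exact ⟨hmem n hn.1 n (hS' n hn.1).1 dvd_rfl, hn.2⟩
  have C2 : ((S.filter P2).card : ℝ) ≤ T * E := by
    apply trivial_class' _ a _ hT0.le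
    intro n hn
    rw [Finset.mem_filter] at hn
    exact ⟨hmem' n hn.1 (n + a) (by omega) dvd_rfl, hn.2⟩
  have C3 : ((S.filter P3).card : ℝ) ≤ ((1 + 2 * a) * T1) * E ^ 2 := by
    apply pell_class _ a N (4 * N) ha hNnat hT10.le
    · intro n hn
      rw [Finset.mem_filter] at hn
      obtain ⟨h1, h2, h3, h4, h5, h6⟩ := hS' n hn.1
      exact ⟨h6, by omega, h1⟩
    · intro n hn
      rw [Finset.mem_filter] at hn
      exact hmem n hn.1 _ sk_pos (sk_dvd (hS' n hn.1).1.ne')
    · intro n hn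
      rw [Finset.mem_filter] at hn
      exact hmem' n hn.1 _ sk_pos (sk_dvd (by omega))
    · intro n hn
      rw [Finset.mem_filter] at hn
      exact hn.2
  have C4 : ((S.filter P4).card : ℝ) ≤ (2 * T) * E ^ 2 := by
    apply linear_class _ (fun n => cf n) (fun n => cf (n + a)) a N (4 * N) hT0.le
    · intro n hn
      rw [Finset.mem_filter] at hn
      exact hmem n hn.1 _ (cf_pos n) (cf_dvd (hS' n hn.1).1.ne')
    · intro n hn
      rw [Finset.mem_filter] at hn
      exact hmem' n hn.1 _ (cf_pos _) (cf_dvd (by have := (hS' n hn.1).1; omega))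
    · intro n hn
      rw [Finset.mem_filter] at hn
      obtain ⟨h1, h2, h3, h4, h5, h6⟩ := hS' n hn.1
      have hco : Nat.Coprime n (n + a) := by
        rw [Nat.coprime_self_add_right]; exact h4
      exact (hco.coprime_dvd_left (cf_dvd h1.ne')).coprime_dvd_right (cf_dvd (by omega))
    · intro n hn
      rw [Finset.mem_filter] at hn
      obtain ⟨h1, h2, h3, h4, h5, h6⟩ := hS' n hn.1
      exact ⟨cf_dvd h1.ne', cf_dvd (by omega), by omega⟩
    · intro n hn
      rw [Finset.mem_filter] at hn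
      exact hn.2.1
    · intro n hn
      rw [Finset.mem_filter] at hn
      exact hn.2.2
  have C5 : ((S.filter P5).card : ℝ) ≤ (5 * t * T) * E ^ 2 := by
    apply quad_class _ (fun n => cf n) (fun n => tf (n + a)) (fun n => e2 (n + a)) (a : ℤ) N
      (4 * N) hNnat hT0.le ht0.le
    · intro n hn
      rw [Finset.mem_filter] at hn
      exact hmem n hn.1 _ (cf_pos n) (cf_dvd (hS' n hn.1).1.ne')
    · intro n hn
      rw [Finset.mem_filter] at hn
      exact hmem' n hn.1 _ (tf_pos _) (tf_dvd (by have := (hS' n hn.1).1; omega))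
    · intro n hn
      rw [Finset.mem_filter] at hn
      obtain ⟨h1, h2, h3, h4, h5, h6⟩ := hS' n hn.1
      have hco : Nat.Coprime n (n + a) := by
        rw [Nat.coprime_self_add_right]; exact h4
      exact Nat.isCoprime_iff_coprime.2
        ((hco.coprime_dvd_left (cf_dvd h1.ne')).coprime_dvd_right (tf_dvd (by omega)))
    · intro n hn
      rw [Finset.mem_filter] at hn
      obtain ⟨h1, h2, h3, h4, h5, h6⟩ := hS' n hn.1
      exact Nat.isCoprime_iff_coprime.2 (h4.coprime_dvd_left (cf_dvd h1.ne'))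
    · intro n hn
      rw [Finset.mem_filter] at hn
      obtain ⟨h1, h2, h3, h4, h5, h6⟩ := hS' n hn.1
      have e1' : ((tf (n + a) : ℕ) : ℤ) * ((e2 (n + a) : ℕ) : ℤ) ^ 2 - (a : ℤ) = (n : ℤ) := by
        have := tf_mul (m := n + a) (by omega)
        have h7 : ((tf (n + a) : ℕ) : ℤ) * ((e2 (n + a) : ℕ) : ℤ) ^ 2 = ((n + a : ℕ) : ℤ) := by
          exact_mod_cast this
        rw [h7]; push_cast; ring
      rw [e1']
      exact_mod_cast cf_dvd h1.ne'
    · intro n hn
      rw [Finset.mem_filter] at hn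
      obtain ⟨h1, h2, h3, h4, h5, h6⟩ := hS' n hn.1
      rw [tf_mul (by omega)]
      omega
    · intro n hn
      rw [Finset.mem_filter] at hn
      obtain ⟨h1, h2, h3, h4, h5, h6⟩ := hS' n hn.1
      rw [tf_mul (by omega)]
      omega
    · intro n hn m hm hv hl
      rw [Finset.mem_filter] at hn hm
      have e1' := tf_mul (m := n + a) (by have := (hS' n hn.1).1; omega)
      have e2' := tf_mul (m := m + a) (by have := (hS' m hm.1).1; omega)
      rw [hv, hl, e2'] at e1'
      omega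
    · intro n hn
      rw [Finset.mem_filter] at hn
      exact hn.2.1
    · intro n hn
      rw [Finset.mem_filter] at hn
      exact hn.2.2
    · intro n hn
      rw [Finset.mem_filter] at hn
      obtain ⟨h1, h2, h3, h4, h5, h6⟩ := hS' n hn.1
      have := Nat.le_of_dvd h1 (cf_dvd h1.ne')
      exact hdvn n hn.1 _ (cf_pos n) (by omega)
  have C6 : ((S.filter P6).card : ℝ) ≤ (5 * t * T) * E ^ 2 := by
    apply quad_class _ (fun n => cf (n + a)) (fun n => tf n) (fun n => e2 n) (-(a : ℤ)) N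
      (4 * N) hNnat hT0.le ht0.le
    · intro n hn
      rw [Finset.mem_filter] at hn
      exact hmem' n hn.1 _ (cf_pos _) (cf_dvd (by have := (hS' n hn.1).1; omega))
    · intro n hn
      rw [Finset.mem_filter] at hn
      exact hmem n hn.1 _ (tf_pos n) (tf_dvd (hS' n hn.1).1.ne')
    · intro n hn
      rw [Finset.mem_filter] at hn
      obtain ⟨h1, h2, h3, h4, h5, h6⟩ := hS' n hn.1
      have hco : Nat.Coprime (n + a) n := by
        rw [Nat.coprime_comm, Nat.coprime_self_add_right]; exact h4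
      exact Nat.isCoprime_iff_coprime.2
        ((hco.coprime_dvd_left (cf_dvd (by omega))).coprime_dvd_right (tf_dvd h1.ne'))
    · intro n hn
      rw [Finset.mem_filter] at hn
      obtain ⟨h1, h2, h3, h4, h5, h6⟩ := hS' n hn.1
      have hco : Nat.Coprime (n + a) a := by
        rw [Nat.coprime_add_self_left]; exact h4
      exact (Nat.isCoprime_iff_coprime.2 (hco.coprime_dvd_left (cf_dvd (by omega)))).neg_right
    · intro n hn
      rw [Finset.mem_filter] at hn
      obtain ⟨h1, h2, h3, h4, h5, h6⟩ := hS' n hn.1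
      have e1' : ((tf n : ℕ) : ℤ) * ((e2 n : ℕ) : ℤ) ^ 2 - -(a : ℤ) = ((n + a : ℕ) : ℤ) := by
        have := tf_mul (m := n) h1.ne'
        have h7 : ((tf n : ℕ) : ℤ) * ((e2 n : ℕ) : ℤ) ^ 2 = (n : ℤ) := by
          exact_mod_cast this
        rw [h7]; push_cast; ring
      rw [e1']
      exact_mod_cast cf_dvd (m := n + a) (by omega)
    · intro n hn
      rw [Finset.mem_filter] at hn
      obtain ⟨h1, h2, h3, h4, h5, h6⟩ := hS' n hn.1
      rw [tf_mul h1.ne']
      omega
    · intro n hn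
      rw [Finset.mem_filter] at hn
      obtain ⟨h1, h2, h3, h4, h5, h6⟩ := hS' n hn.1
      rw [tf_mul h1.ne']
      omega
    · intro n hn m hm hv hl
      rw [Finset.mem_filter] at hn hm
      have e1' := tf_mul (m := n) (by have := (hS' n hn.1).1; omega)
      have e2' := tf_mul (m := m) (by have := (hS' m hm.1).1; omega)
      rw [hv, hl, e2'] at e1'
      omega
    · intro n hn
      rw [Finset.mem_filter] at hn
      exact hn.2.1
    · intro n hn
      rw [Finset.mem_filter] at hn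
      exact hn.2.2
    · intro n hn
      rw [Finset.mem_filter] at hn
      obtain ⟨h1, h2, h3, h4, h5, h6⟩ := hS' n hn.1
      have := Nat.le_of_dvd (show 0 < n + a by omega) (cf_dvd (m := n + a) (by omega))
      exact hdvn n hn.1 _ (cf_pos _) (by omega)
  have C7 : ((S.filter P7).card : ℝ) ≤ Real.exp (0.4957 * L) * E ^ 2 := by
    apply crit_class N a _ ha hL hbig hdiv haN
    · intro n hn
      rw [Finset.mem_filter] at hn
      obtain ⟨h1, h2, h3, h4, h5, h6⟩ := hS' n hn.1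
      exact ⟨h1, h2, h6, h4⟩
    · intro n hn
      rw [Finset.mem_filter] at hn
      exact hn.2
  have hcard : (S.card : ℝ) ≤ (S.filter P1).card + (S.filter P2).card + (S.filter P3).card +
      (S.filter P4).card + (S.filter P5).card + (S.filter P6).card + (S.filter P7).card := by
    have h1 := Finset.card_le_card hcover
    have h2 : (S.filter P1 ∪ S.filter P2 ∪ S.filter P3 ∪ S.filter P4 ∪ S.filter P5 ∪
      S.filter P6 ∪ S.filter P7).card ≤ (S.filter P1).card + (S.filter P2).card +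
      (S.filter P3).card + (S.filter P4).card + (S.filter P5).card + (S.filter P6).card +
      (S.filter P7).card := by
      refine (Finset.card_union_le _ _).trans (Nat.add_le_add_right ?_ _)
      refine (Finset.card_union_le _ _).trans (Nat.add_le_add_right ?_ _)
      refine (Finset.card_union_le _ _).trans (Nat.add_le_add_right ?_ _)
      refine (Finset.card_union_le _ _).trans (Nat.add_le_add_right ?_ _)
      refine (Finset.card_union_le _ _).trans (Nat.add_le_add_right ?_ _)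
      exact Finset.card_union_le _ _
    exact_mod_cast h1.trans h2
  -- final numerical estimate
  have hEt : E ≤ t := hEN
  have hE2 : E ≤ E ^ 2 := by nlinarith
  have hE2t : E ^ 2 ≤ t ^ 2 := by gcongr
  have hPell : (1 + 2 * (a : ℝ)) * T1 ≤ 5 * T := by
    have h1 : (1 : ℝ) ≤ Real.exp (0.002 * L) := Real.one_le_exp (by positivity)
    have h2 : T = Real.exp (0.002 * L) * T1 := by
      rw [hT, hT1, ← Real.exp_add]; congr 1; ring
    rw [h2]
    have h3 : 1 + 2 * (a : ℝ) ≤ 5 * Real.exp (0.002 * L) := by linarith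
    nlinarith
  have hK : Real.exp (0.4957 * L) ≤ T := by
    rw [hT]; apply Real.exp_le_exp.2; linarith
  have hsum : (S.card : ℝ) ≤ (10 + 10 * t) * T * t ^ 2 := by
    have f1 : T * E ≤ T * E ^ 2 := by gcongr
    have f3 : ((1 + 2 * (a : ℝ)) * T1) * E ^ 2 ≤ (5 * T) * E ^ 2 := by gcongr
    have f7 : Real.exp (0.4957 * L) * E ^ 2 ≤ T * E ^ 2 := by gcongr
    have f8 : (10 + 10 * t) * T * E ^ 2 ≤ (10 + 10 * t) * T * t ^ 2 := by gcongr
    have f9 : T * E + T * E + ((1 + 2 * (a : ℝ)) * T1) * E ^ 2 + (2 * T) * E ^ 2 +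
      (5 * t * T) * E ^ 2 + (5 * t * T) * E ^ 2 + Real.exp (0.4957 * L) * E ^ 2 ≤
        (10 + 10 * t) * T * E ^ 2 := by
      have : (10 + 10 * t) * T * E ^ 2 = 10 * (T * E ^ 2) + (5 * t * T) * E ^ 2 +
        (5 * t * T) * E ^ 2 := by ring
      rw [this]
      linarith
    linarith
  have hfin : (10 + 10 * t) * T * t ^ 2 ≤ t ^ 4 * T := by
    have h1 : 10 + 10 * t ≤ t ^ 2 := by nlinarith
    calc (10 + 10 * t) * T * t ^ 2 ≤ t ^ 2 * T * t ^ 2 := by gcongr
      _ = t ^ 4 * T := by ring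
  have hfin2 : t ^ 4 * T ≤ Real.exp (0.496 * L) := by
    rw [ht, hT, ← Real.exp_nat_mul, ← Real.exp_add]
    apply Real.exp_le_exp.2
    push_cast
    linarith
  linarith

theorem block_eventually : ∃ N0 : ℕ, ∀ N : ℕ, N0 ≤ N → ∀ a : ℕ, 1 ≤ a →
    (a : ℝ) ≤ ((2 * N : ℕ) : ℝ) ^ (1 / 500 : ℝ) →
      ((((Finset.Icc 1 (2 * N)).filter (fun n => Nat.Coprime n a ∧ N < n + a ∧ n + a ≤ 2 * N ∧
        (rad n : ℝ) * rad (n + a) ≤ ((2 * N : ℕ) : ℝ) ^ (1 + 1 / 500 : ℝ))).card : ℕ) : ℝ) ≤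
          (N : ℝ) ^ (1 / 2 - 2 * (1 / 500) : ℝ) := by
  obtain ⟨N0, hN0⟩ := Filter.eventually_atTop.1 (ev_big.and (ev_EN.and (ev_div.and ev_L)))
  refine ⟨N0, ?_⟩
  intro N hN a ha haN
  obtain ⟨h1, h2, h3, h4⟩ := hN0 N hN
  set L := log (N : ℝ) with hLdef
  have hNpos : (0 : ℝ) < N := by
    rcases Nat.eq_zero_or_pos N with h | h
    · rw [h] at hLdef; simp at hLdef; linarith
    · exact_mod_cast h
  have hlog2 : log (2 : ℝ) ≤ 0.7 := by
    have := Real.log_two_lt_d9; linarith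
  have hlog2' : 0 < log (2 : ℝ) := Real.log_pos (by norm_num)
  have h2N : ∀ c : ℝ, ((2 * N : ℕ) : ℝ) ^ c = Real.exp ((log 2 + L) * c) := by
    intro c
    push_cast
    rw [Real.rpow_def_of_pos (by positivity), Real.log_mul (by norm_num) hNpos.ne']
  have hrhs : (N : ℝ) ^ (1 / 2 - 2 * (1 / 500) : ℝ) = Real.exp (0.496 * L) := by
    rw [Real.rpow_def_of_pos hNpos]; congr 1; norm_num; ring
  rw [hrhs]
  apply block_count (N := N) (a := a) ha h4 h1 h3 h2
  · rw [h2N] at haN
    refine haN.trans ?_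
    have h5 : Real.exp ((log 2 + L) * (1 / 500)) =
      Real.exp (log 2 * (1 / 500)) * Real.exp (0.002 * L) := by
      rw [← Real.exp_add]; congr 1; ring
    rw [h5]
    apply mul_le_mul_of_nonneg_right _ (Real.exp_pos _).le
    calc Real.exp (log 2 * (1 / 500)) ≤ Real.exp (log 2) := by
          apply Real.exp_le_exp.2; linarith
      _ = 2 := Real.exp_log (by norm_num)
  · intro n hn
    rw [Finset.mem_filter, Finset.mem_Icc] at hn
    obtain ⟨⟨k1, k2⟩, k3, k4, k5, k6⟩ := hn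
    refine ⟨k1, k5, k4, k3, ?_⟩
    rw [h2N] at k6
    refine k6.trans ?_
    apply Real.exp_le_exp.2
    have : (0 : ℝ) ≤ L := by linarith
    nlinarith

end Pool.Agent.Helper94.Abc
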