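import Mathlib
import Pool.Agent.Helper94.Abc.Block2
import Pool.Agent.Helper51.PowSave

set_option autoImplicit false

/-!
Power saving for the abc-triples with a small entry and a small radical: the number of coprime
`a + b = c` with `c ≤ X`, `a ≤ c^(1/500)` and `rad(abc) ≤ c^(1 + 1/500)` is `O(X^(1/2 - 1/500))`.
-/

namespace Pool.Agent.Helper94.Abc.PowerSavingFinal

theorem result :
    ∃ C : ℝ, ∀ X : ℕ,
      ((((Finset.Icc 1 X ×ˢ Finset.Icc 1 X).filter (fun t : ℕ × ℕ =>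
        Nat.Coprime t.1 t.2 ∧ t.1 + t.2 ≤ X ∧
        (t.1 : ℝ) ≤ ((t.1 + t.2 : ℕ) : ℝ) ^ (1 / 500 : ℝ) ∧
        ((∏ p ∈ (t.1 * t.2 * (t.1 + t.2)).primeFactors, p : ℕ) : ℝ) ≤
          ((t.1 + t.2 : ℕ) : ℝ) ^ (1 + 1 / 500 : ℝ))).card : ℕ) : ℝ) ≤
            C * (X : ℝ) ^ (1 / 2 - 1 / 500 : ℝ) :=
  Pool.Agent.Helper94.Abc.final_of_block (1 / 500) (by norm_num) (by norm_num)
    Pool.Agent.Helper94.Abc.block_eventually

end Pool.Agent.Helper94.Abc.PowerSavingFinal
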